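import Mathlib

/-! # The interpolation identity behind the Bernstein-Szegő inequality -/

set_option autoImplicit false
open MeasureTheory Filter Topology Set

namespace Pool.Agent.X127.SW

noncomputable section

/-- the function on `[-1, 1]` -/
def gz (α x : ℝ) : ℂ :=
  Complex.exp (Complex.I * α * x) * (Complex.I * x * Real.sin α - Real.cos α)

/-- the weights -/
def wk (α : ℝ) (k : ℤ) : ℝ := Real.sin α ^ 2 / (α - k * Real.pi) ^ 2

/-- the signed weights -/
def ck (α : ℝ) (k : ℤ) : ℝ := -((-1) ^ k * wk α k)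

lemma wk_nonneg (α : ℝ) (k : ℤ) : 0 ≤ wk α k := by unfold wk; positivity

lemma m1_abs (k : ℤ) : |((-1 : ℝ)) ^ k| = 1 := by
  rw [abs_zpow, abs_neg, abs_one, one_zpow]

lemma ck_abs (α : ℝ) (k : ℤ) : |ck α k| = wk α k := by
  unfold ck
  rw [abs_neg, abs_mul, m1_abs, one_mul, abs_of_nonneg (wk_nonneg α k)]

lemma wk_summable (α : ℝ) : Summable (wk α) := by
  have h := (Real.summable_one_div_int_add_rpow (-(α / Real.pi)) 2).2 one_lt_two
  have h2 := h.mul_left (Real.sin α ^ 2 / Real.pi ^ 2)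
  refine h2.congr fun k => ?_
  unfold wk
  rw [Real.rpow_two, sq_abs]
  have hp := Real.pi_pos.ne'
  have e : α - k * Real.pi = -(Real.pi * ((k : ℝ) + -(α / Real.pi))) := by
    field_simp
    ring
  rw [e, neg_sq, mul_pow]
  rw [div_mul_div_comm, mul_one]

lemma beta_ne {α : ℝ} (hs : Real.sin α ≠ 0) (n : ℤ) : α - n * Real.pi ≠ 0 := by
  intro h
  apply hs
  have : α = n * Real.pi := by linarith
  rw [this, Real.sin_int_mul_pi]

lemma coef {α : ℝ} (hs : Real.sin α ≠ 0) (n : ℤ) :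
    ∫ x in (-1 : ℝ)..1, Complex.exp (-(Real.pi * Complex.I * n * x)) * gz α x =
      2 * (ck α n : ℂ) := by
  obtain ⟨β, hβ⟩ : ∃ β : ℝ, β = α - n * Real.pi := ⟨_, rfl⟩
  have b0 : β ≠ 0 := by rw [hβ]; exact beta_ne hs n
  have b0' : (β : ℂ) ≠ 0 := Complex.ofReal_ne_zero.2 b0
  obtain ⟨s, hs'⟩ : ∃ s : ℝ, s = Real.sin α := ⟨_, rfl⟩
  obtain ⟨c, hc'⟩ : ∃ c : ℝ, c = Real.cos α := ⟨_, rfl⟩
  obtain ⟨A, hA⟩ : ∃ A : ℂ, A = s / β := ⟨_, rfl⟩
  obtain ⟨B, hB⟩ : ∃ B : ℂ, B = Complex.I * (c + s / β) / β := ⟨_, rfl⟩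
  have e1 : ∀ x : ℝ, Complex.exp (-(Real.pi * Complex.I * n * x)) * gz α x =
      Complex.exp (Complex.I * β * x) * (Complex.I * x * s - c) := by
    intro x
    unfold gz
    rw [← mul_assoc, ← Complex.exp_add, hβ, hs', hc']
    congr 2
    push_cast
    ring
  simp only [e1]
  have hd : ∀ x : ℝ, HasDerivAt (fun x : ℝ => Complex.exp (Complex.I * β * x) * (A * x + B))
      (Complex.exp (Complex.I * β * x) * (Complex.I * x * s - c)) x := by
    intro x
    have h1 : HasDerivAt (fun x : ℝ => Complex.exp (Complex.I * β * x))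
        (Complex.exp (Complex.I * β * x) * (Complex.I * β)) x := by
      have h := ((Complex.ofRealCLM.hasDerivAt (x := x)).const_mul (Complex.I * β)).cexp
      simpa using h
    have h2 : HasDerivAt (fun x : ℝ => (A * x + B : ℂ)) A x := by
      have h := ((Complex.ofRealCLM.hasDerivAt (x := x)).const_mul A).add_const B
      simpa using h
    refine (h1.mul h2).congr_deriv ?_
    rw [hA, hB]
    have hI : Complex.I * Complex.I = -1 := Complex.I_mul_I
    field_simp
    linear_combination ((c : ℂ) * β + s) * hI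
  rw [intervalIntegral.integral_eq_sub_of_hasDerivAt (fun x _ => hd x)
    (Continuous.intervalIntegrable (by fun_prop) _ _)]
  have cb : Real.cos β = (-1) ^ n * c := by rw [hβ, hc', Real.cos_sub_int_mul_pi]
  have sb : Real.sin β = (-1) ^ n * s := by rw [hβ, hs', Real.sin_sub_int_mul_pi]
  have x1 : Complex.exp (Complex.I * β * (1 : ℝ)) = Real.cos β + Real.sin β * Complex.I := by
    rw [Complex.ofReal_one, mul_one, mul_comm, Complex.exp_mul_I]
    push_cast
    rfl
  have x2 : Complex.exp (Complex.I * β * (-1 : ℝ)) = Real.cos β - Real.sin β * Complex.I := by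
    have : Complex.I * β * ((-1 : ℝ) : ℂ) = ((-β : ℝ) : ℂ) * Complex.I := by push_cast; ring
    rw [this, Complex.exp_mul_I]
    push_cast
    rw [Complex.cos_neg, Complex.sin_neg]
    ring
  rw [x1, x2, cb, sb]
  unfold ck wk
  rw [← hβ, ← hs', hA, hB]
  push_cast
  have hI : Complex.I ^ 2 = -1 := Complex.I_sq
  field_simp
  ring_nf
  rw [hI]
  ring

lemma gz_ends (α : ℝ) : gz α (-1) = -1 ∧ gz α 1 = -1 := by
  have c1 : (Real.cos α : ℂ) ^ 2 + (Real.sin α : ℂ) ^ 2 = 1 := by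
    have := Real.cos_sq_add_sin_sq α
    exact_mod_cast this
  have hI : Complex.I ^ 2 = -1 := Complex.I_sq
  constructor
  · unfold gz
    have : Complex.I * α * ((-1 : ℝ) : ℂ) = ((-α : ℝ) : ℂ) * Complex.I := by push_cast; ring
    rw [this, Complex.exp_mul_I, ← Complex.ofReal_cos, ← Complex.ofReal_sin, Real.cos_neg,
      Real.sin_neg]
    push_cast
    push_cast at c1
    linear_combination (-1 : ℂ) * c1 + (Complex.sin α) ^ 2 * hI
  · unfold gz
    have : Complex.I * α * ((1 : ℝ) : ℂ) = ((α : ℝ) : ℂ) * Complex.I := by push_cast; ring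
    rw [this, Complex.exp_mul_I, ← Complex.ofReal_cos, ← Complex.ofReal_sin]
    push_cast
    push_cast at c1
    linear_combination (-1 : ℂ) * c1 + (Complex.sin α) ^ 2 * hI

instance fact2 : Fact ((0 : ℝ) < 2) := ⟨two_pos⟩

lemma gz_cont (α : ℝ) : Continuous (gz α) := by
  unfold gz
  fun_prop

/-- the lifted function -/
def gl (α : ℝ) : C(AddCircle (2 : ℝ), ℂ) :=
  ⟨AddCircle.liftIco 2 (-1) (gz α), AddCircle.liftIco_continuous (by
    have := gz_ends α
    rw [show (-1 : ℝ) + 2 = 1 by norm_num, this.1, this.2]) (gz_cont α).continuousOn⟩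

lemma gl_coef {α : ℝ} (hs : Real.sin α ≠ 0) (n : ℤ) : fourierCoeff (gl α) n = (ck α n : ℂ) := by
  have h1 : fourierCoeff (gl α) n = fourierCoeff (AddCircle.liftIco 2 (-1) (gz α)) n := rfl
  rw [h1, fourierCoeff_liftIco_eq, fourierCoeffOn_eq_integral]
  have e2 : ∀ x : ℝ, fourier (-n) (x : AddCircle ((-1 : ℝ) + 2 - -1)) • gz α x =
      Complex.exp (-(Real.pi * Complex.I * n * x)) * gz α x := by
    intro x
    rw [fourier_coe_apply, smul_eq_mul]
    congr 2
    push_cast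
    ring
  simp only [e2]
  rw [show (-1 : ℝ) + 2 = 1 by norm_num, coef hs n]
  norm_num
  ring

lemma gl_val (α : ℝ) {x : ℝ} (hx : x ∈ Icc (-1 : ℝ) 1) : gl α (x : AddCircle (2 : ℝ)) = gz α x := by
  rcases hx.2.lt_or_eq with h | h
  · exact AddCircle.liftIco_coe_apply (p := 2) (a := -1) (f := gz α) ⟨hx.1, by linarith⟩
  · have e : ((x : ℝ) : AddCircle (2 : ℝ)) = ((-1 : ℝ) : AddCircle (2 : ℝ)) := by
      have h3 := AddCircle.coe_add_period (2 : ℝ) (-1 : ℝ)
      rw [show (-1 : ℝ) + 2 = 1 by norm_num] at h3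
      rw [h]; exact h3
    rw [e]
    have h2 : gl α ((-1 : ℝ) : AddCircle (2 : ℝ)) = gz α (-1) :=
      AddCircle.liftIco_coe_apply (p := 2) (a := -1) (f := gz α) ⟨le_rfl, by norm_num⟩
    rw [h2, h, (gz_ends α).1, (gz_ends α).2]

lemma tri_sum {α : ℝ} (hs : Real.sin α ≠ 0) {x : ℝ} (hx : x ∈ Icc (-1 : ℝ) 1) :
    HasSum (fun k : ℤ => (ck α k : ℂ) * Complex.exp (Complex.I * ((k * Real.pi - α : ℝ) : ℂ) * x))
      (Complex.I * x * Real.sin α - Real.cos α) := by
  have sm : Summable (fourierCoeff (gl α)) := by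
    have h1 : Summable fun k : ℤ => (ck α k : ℂ) := by
      refine Summable.of_norm ?_
      refine (wk_summable α).congr fun k => ?_
      rw [Complex.norm_real, Real.norm_eq_abs, ck_abs]
    refine h1.congr fun k => ?_
    rw [gl_coef hs]
  have h := has_pointwise_sum_fourier_series_of_summable sm (x : AddCircle (2 : ℝ))
  rw [gl_val α hx] at h
  have h2 := h.mul_left (Complex.exp (-(Complex.I * α * x)))
  have e : Complex.exp (-(Complex.I * α * x)) * gz α x =
      Complex.I * x * Real.sin α - Real.cos α := by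
    unfold gz
    rw [← mul_assoc, ← Complex.exp_add]
    simp
  rw [e] at h2
  have e3 : (fun k : ℤ => (ck α k : ℂ) *
      Complex.exp (Complex.I * ((k * Real.pi - α : ℝ) : ℂ) * x)) = fun i =>
      Complex.exp (-(Complex.I * α * x)) * fourierCoeff (gl α) i •
        fourier i (x : AddCircle (2 : ℝ)) := by
    funext k
    rw [gl_coef hs, smul_eq_mul, fourier_coe_apply, mul_left_comm, ← Complex.exp_add]
    congr 2
    push_cast
    ring
  rw [e3]
  exact h2

lemma wk_one {α : ℝ} (hs : Real.sin α ≠ 0) : HasSum (wk α) 1 := by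
  have h := tri_sum hs (x := -1) ⟨le_rfl, by norm_num⟩
  have e1 : Complex.I * ((-1 : ℝ) : ℂ) * Real.sin α - Real.cos α =
      -(Complex.exp (Complex.I * α)) := by
    rw [mul_comm Complex.I (α : ℂ), Complex.exp_mul_I, ← Complex.ofReal_cos, ← Complex.ofReal_sin]
    push_cast
    ring
  have e2 : ∀ k : ℤ, (ck α k : ℂ) *
      Complex.exp (Complex.I * ((k * Real.pi - α : ℝ) : ℂ) * ((-1 : ℝ) : ℂ)) =
      -(Complex.exp (Complex.I * α)) * (wk α k : ℂ) := by
    intro k
    have e3 : Complex.exp (Complex.I * ((k * Real.pi - α : ℝ) : ℂ) * ((-1 : ℝ) : ℂ)) =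
        (((-1) ^ k : ℝ) : ℂ) * Complex.exp (Complex.I * α) := by
      have e4 : Complex.I * ((k * Real.pi - α : ℝ) : ℂ) * ((-1 : ℝ) : ℂ) =
          ((α - k * Real.pi : ℝ) : ℂ) * Complex.I := by push_cast; ring
      rw [e4, Complex.exp_mul_I, ← Complex.ofReal_cos, ← Complex.ofReal_sin,
        Real.cos_sub_int_mul_pi, Real.sin_sub_int_mul_pi, mul_comm Complex.I (α : ℂ),
        Complex.exp_mul_I, ← Complex.ofReal_cos, ← Complex.ofReal_sin]
      push_cast
      ring
    rw [e3]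
    unfold ck
    have e5 : ((-1 : ℝ) ^ k) * (-1) ^ k = 1 := by
      rw [← mul_zpow]; simp
    have e6 : (((-1 : ℝ) ^ k : ℝ) : ℂ) * (((-1 : ℝ) ^ k : ℝ) : ℂ) = 1 := by
      rw [← Complex.ofReal_mul, e5, Complex.ofReal_one]
    rw [Complex.ofReal_neg, Complex.ofReal_mul]
    linear_combination (-(wk α k : ℂ) * Complex.exp (Complex.I * α)) * e6
  rw [e1] at h
  simp only [e2] at h
  have h2 := h.mul_left (-(Complex.exp (Complex.I * α)))⁻¹
  have ne : -(Complex.exp (Complex.I * α)) ≠ 0 := neg_ne_zero.2 (Complex.exp_ne_zero _)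
  rw [inv_mul_cancel₀ ne] at h2
  simp only [← mul_assoc, inv_mul_cancel₀ ne, one_mul] at h2
  have h3 : HasSum (fun i => ((wk α i : ℝ) : ℂ)) ((1 : ℝ) : ℂ) := by
    rw [Complex.ofReal_one]; exact h2
  exact Complex.hasSum_ofReal.1 h3

/-- **the interpolation identity, with its error** -/
theorem tri {α : ℝ} (hs : Real.sin α ≠ 0) {x : ℝ} (hx : x ∈ Icc (-1 : ℝ) 1) (t : Finset ℤ) :
    ‖Complex.I * x * Real.sin α - Real.cos α - ∑ k ∈ t, (ck α k : ℂ) *
      Complex.exp (Complex.I * ((k * Real.pi - α : ℝ) : ℂ) * x)‖ ≤ 1 - ∑ k ∈ t, wk α k := by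
  obtain ⟨f, hf⟩ : ∃ f : ℤ → ℂ, f = fun k => (ck α k : ℂ) *
      Complex.exp (Complex.I * ((k * Real.pi - α : ℝ) : ℂ) * x) := ⟨_, rfl⟩
  have fb : ∀ k, ‖f k‖ ≤ wk α k := by
    intro k
    rw [hf]
    show ‖(ck α k : ℂ) * Complex.exp (Complex.I * ((k * Real.pi - α : ℝ) : ℂ) * x)‖ ≤ wk α k
    have : Complex.I * ((k * Real.pi - α : ℝ) : ℂ) * x =
        (((k * Real.pi - α) * x : ℝ) : ℂ) * Complex.I := by push_cast; ring
    rw [norm_mul, this, Complex.norm_exp_ofReal_mul_I, mul_one, Complex.norm_real,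
      Real.norm_eq_abs, ck_abs]
  have h1 : HasSum f (Complex.I * x * Real.sin α - Real.cos α) := by
    rw [hf]; exact tri_sum hs hx
  have h2 := wk_one hs
  have T1 : Tendsto (fun u : Finset ℤ => ‖∑ k ∈ u, f k - ∑ k ∈ t, f k‖) atTop
      (𝓝 ‖Complex.I * x * Real.sin α - Real.cos α - ∑ k ∈ t, f k‖) :=
    (h1.sub_const _).norm
  have T2 : Tendsto (fun u : Finset ℤ => ∑ k ∈ u, wk α k - ∑ k ∈ t, wk α k) atTop
      (𝓝 (1 - ∑ k ∈ t, wk α k)) := h2.sub_const _
  have key : ‖Complex.I * x * Real.sin α - Real.cos α - ∑ k ∈ t, f k‖ ≤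
      1 - ∑ k ∈ t, wk α k := by
    refine le_of_tendsto_of_tendsto T1 T2 ?_
    filter_upwards [eventually_ge_atTop t] with u hu
    rw [← Finset.sum_sdiff_eq_sub hu, ← Finset.sum_sdiff_eq_sub hu]
    exact norm_sum_le_of_le _ fun k _ => fb k
  rw [hf] at key
  exact key

end

end Pool.Agent.X127.SW
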