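import Pool.Agent.X127.SW.Spec
import Pool.Agent.X127.SW.Tri

/-! # The Bernstein-Szegő inequality in law for stationary waves -/

set_option autoImplicit false
open MeasureTheory Filter Topology ProbabilityTheory
open scoped ContDiff ENNReal

namespace Pool.Agent.X127.SW

open Pool.Agent.Y139.SW

noncomputable section

variable {d : ℕ} {S : Type*} [MeasurableSpace S] {P : Measure S} {τ : E d → S → S}

lemma norm_trig {ι : Type*} (t : Finset ι) (c A : ι → ℝ) :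
    ‖∑ i ∈ t, (c i : ℂ) * Complex.exp (A i * Complex.I)‖ ^ 2 =
      ∑ i ∈ t, ∑ j ∈ t, c i * c j * Real.cos (A j - A i) := by
  obtain ⟨Z, hZ⟩ : ∃ Z, Z = ∑ i ∈ t, (c i : ℂ) * Complex.exp (A i * Complex.I) := ⟨_, rfl⟩
  have re : Z.re = ∑ i ∈ t, c i * Real.cos (A i) := by
    rw [hZ, Complex.re_sum]
    refine Finset.sum_congr rfl fun i _ => ?_
    rw [Complex.re_ofReal_mul, Complex.exp_ofReal_mul_I_re]
  have im : Z.im = ∑ i ∈ t, c i * Real.sin (A i) := by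
    rw [hZ, Complex.im_sum]
    refine Finset.sum_congr rfl fun i _ => ?_
    rw [Complex.im_ofReal_mul, Complex.exp_ofReal_mul_I_im]
  rw [← hZ, ← Complex.normSq_eq_norm_sq, Complex.normSq_apply, re, im, Finset.sum_mul_sum,
    Finset.sum_mul_sum, ← Finset.sum_add_distrib]
  refine Finset.sum_congr rfl fun i _ => ?_
  rw [← Finset.sum_add_distrib]
  refine Finset.sum_congr rfl fun j _ => ?_
  rw [Real.cos_sub]
  ring

lemma cosI' (σ : Measure (E d)) [IsFiniteMeasure σ] (x : E d) (c : ℝ) :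
    Integrable (fun ξ => c * Real.cos (inner ℝ ξ x)) σ := (cosI σ x).const_mul c

/-- the isometry -/
theorem iso [IsProbabilityMeasure P] (hτ : ∀ x, MeasurePreserving (τ x) P P)
    {G : S → E d → ℝ} (W : Wave P τ G) {σ : Measure (E d)} [IsFiniteMeasure σ]
    (hσ : Spec P G σ) {ι : Type*} (t : Finset ι) (c : ι → ℝ) (a : ι → E d) :
    Integrable (fun ξ => ‖∑ i ∈ t, (c i : ℂ) *
      Complex.exp ((inner ℝ ξ (a i) : ℝ) * Complex.I)‖ ^ 2) σ ∧
    ∫ s, (∑ i ∈ t, c i * G s (a i)) ^ 2 ∂P =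
      ∫ ξ, ‖∑ i ∈ t, (c i : ℂ) * Complex.exp ((inner ℝ ξ (a i) : ℝ) * Complex.I)‖ ^ 2 ∂σ := by
  have e : ∀ ξ, ‖∑ i ∈ t, (c i : ℂ) * Complex.exp ((inner ℝ ξ (a i) : ℝ) * Complex.I)‖ ^ 2 =
      ∑ i ∈ t, ∑ j ∈ t, c i * c j * Real.cos (inner ℝ ξ (a j - a i)) := by
    intro ξ
    rw [norm_trig]
    refine Finset.sum_congr rfl fun i _ => Finset.sum_congr rfl fun j _ => ?_
    rw [inner_sub_right]
  simp only [e]
  have ii : ∀ i, Integrable (fun ξ => ∑ j ∈ t, c i * c j * Real.cos (inner ℝ ξ (a j - a i))) σ :=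
    fun i => integrable_finsetSum _ fun j _ => cosI' σ _ _
  refine ⟨integrable_finsetSum _ fun i _ => ii i, ?_⟩
  rw [(sum_sq hτ W t c a).2, integral_finsetSum _ fun i _ => ii i]
  refine Finset.sum_congr rfl fun i _ => ?_
  rw [integral_finsetSum _ fun j _ => cosI' σ _ _]
  refine Finset.sum_congr rfl fun j _ => ?_
  rw [integral_const_mul, hσ]

theorem iso_le [IsProbabilityMeasure P] (hτ : ∀ x, MeasurePreserving (τ x) P P)
    {G : S → E d → ℝ} (W : Wave P τ G) {ι : Type*} (t : Finset ι) (c : ι → ℝ) (a : ι → E d)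
    {B : ℝ} (hB : ∀ ξ : E d, ‖ξ‖ = 1 →
      ‖∑ i ∈ t, (c i : ℂ) * Complex.exp ((inner ℝ ξ (a i) : ℝ) * Complex.I)‖ ≤ B) :
    ∫ s, (∑ i ∈ t, c i * G s (a i)) ^ 2 ∂P ≤ B ^ 2 * ∫ s, G s 0 ^ 2 ∂P := by
  obtain ⟨σ, fσ, hσ⟩ := exists_spec hτ W
  obtain ⟨h1, h2⟩ := iso hτ W hσ t c a
  rw [h2]
  have t0 : ∫ ξ : E d, (1 : ℝ) ∂σ = ∫ s, G s 0 ^ 2 ∂P := by
    have := hσ 0
    simp only [inner_zero_right, Real.cos_zero] at this
    rw [this, cov_zero]
  rw [← t0, ← integral_const_mul]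
  refine integral_mono_ae h1 (integrable_const _) ?_
  filter_upwards [spec_sphere hτ W hσ] with ξ hξ
  rw [mul_one]
  exact pow_le_pow_left₀ (norm_nonneg _) (hB ξ hξ) 2

lemma sumI [IsProbabilityMeasure P] (hτ : ∀ x, MeasurePreserving (τ x) P P) {G : S → E d → ℝ}
    (W : Wave P τ G) {ι : Type*} (t : Finset ι) (c : ι → ℝ) (a : ι → E d) :
    Measurable fun s => ∑ i ∈ t, c i * G s (a i) :=
  Finset.measurable_fun_sum t fun i _ => measurable_const.mul (W.sf.meas _)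

/-- one step -/
lemma approx_h [IsProbabilityMeasure P] (hτ : ∀ x, MeasurePreserving (τ x) P P)
    {G : S → E d → ℝ} (W : Wave P τ G) {v : E d} (hv : ‖v‖ = 1) {α : ℝ} (hs : Real.sin α ≠ 0)
    (t : Finset ℤ) {h : ℝ} (h0 : 0 < h) (h1 : h ≤ 1) :
    Integrable (fun s => (Real.sin α * ((G s (h • v) - G s 0) / h) - Real.cos α * G s 0 -
      ∑ k ∈ t, ck α k * G s ((k * Real.pi - α) • v)) ^ 2) P ∧
    ∫ s, (Real.sin α * ((G s (h • v) - G s 0) / h) - Real.cos α * G s 0 -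
      ∑ k ∈ t, ck α k * G s ((k * Real.pi - α) • v)) ^ 2 ∂P ≤
      (1 - ∑ k ∈ t, wk α k + h) ^ 2 * ∫ s, G s 0 ^ 2 ∂P := by
  obtain ⟨c, hc⟩ : ∃ c : ℤ ⊕ Fin 2 → ℝ, c = Sum.elim (fun k => -ck α k)
    ![Real.sin α / h, -(Real.sin α / h) - Real.cos α] := ⟨_, rfl⟩
  obtain ⟨a, ha⟩ : ∃ a : ℤ ⊕ Fin 2 → E d, a = Sum.elim (fun k : ℤ => (k * Real.pi - α) • v)
    ![h • v, 0] := ⟨_, rfl⟩
  have e1 : ∀ s, Real.sin α * ((G s (h • v) - G s 0) / h) - Real.cos α * G s 0 -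
      ∑ k ∈ t, ck α k * G s ((k * Real.pi - α) • v) =
      ∑ i ∈ t.disjSum Finset.univ, c i * G s (a i) := by
    intro s
    rw [Finset.sum_disjSum, Fin.sum_univ_two, hc, ha]
    simp only [Sum.elim_inl, Sum.elim_inr, Matrix.cons_val_zero, Matrix.cons_val_one, neg_mul,
      Finset.sum_neg_distrib]
    ring
  simp only [e1]
  refine ⟨(sum_sq hτ W _ c a).1, iso_le hτ W _ c a fun ξ hξ => ?_⟩
  obtain ⟨x, hx⟩ : ∃ x : ℝ, x = inner ℝ ξ v := ⟨_, rfl⟩
  have x1 : |x| ≤ 1 := by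
    rw [hx]
    have := abs_real_inner_le_norm ξ v
    rw [hξ, hv, mul_one] at this
    exact this
  rw [Finset.sum_disjSum, Fin.sum_univ_two, hc, ha]
  simp only [Sum.elim_inl, Sum.elim_inr, Matrix.cons_val_zero, Matrix.cons_val_one,
    inner_smul_right, inner_zero_right, ← hx]
  have key := tri hs (abs_le.1 x1) t
  have k2 := Complex.norm_exp_sub_one_sub_id_le (x := ((h * x : ℝ) : ℂ) * Complex.I) (by
    rw [norm_mul, Complex.norm_I, mul_one, Complex.norm_real, Real.norm_eq_abs, abs_mul,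
      abs_of_pos h0]
    nlinarith [abs_nonneg x])
  have e2 : ∑ k ∈ t, ((-ck α k : ℝ) : ℂ) *
      Complex.exp ((((k * Real.pi - α) * x : ℝ) : ℂ) * Complex.I) +
      (((Real.sin α / h : ℝ) : ℂ) * Complex.exp (((h * x : ℝ) : ℂ) * Complex.I) +
      ((-(Real.sin α / h) - Real.cos α : ℝ) : ℂ) * Complex.exp (((0 : ℝ) : ℂ) * Complex.I)) =
      (Complex.I * x * Real.sin α - Real.cos α - ∑ k ∈ t, (ck α k : ℂ) *
      Complex.exp (Complex.I * ((k * Real.pi - α : ℝ) : ℂ) * x)) +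
      ((Real.sin α / h : ℝ) : ℂ) * (Complex.exp (((h * x : ℝ) : ℂ) * Complex.I) - 1 -
        ((h * x : ℝ) : ℂ) * Complex.I) := by
    have e3 : ∑ k ∈ t, ((-ck α k : ℝ) : ℂ) *
      Complex.exp ((((k * Real.pi - α) * x : ℝ) : ℂ) * Complex.I) =
      -∑ k ∈ t, (ck α k : ℂ) * Complex.exp (Complex.I * ((k * Real.pi - α : ℝ) : ℂ) * x) := by
      rw [← Finset.sum_neg_distrib]
      refine Finset.sum_congr rfl fun k _ => ?_
      have : (((k * Real.pi - α) * x : ℝ) : ℂ) * Complex.I =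
        Complex.I * ((k * Real.pi - α : ℝ) : ℂ) * x := by push_cast; ring
      rw [this]
      push_cast
      ring
    rw [e3]
    generalize (∑ k ∈ t, (ck α k : ℂ) *
      Complex.exp (Complex.I * ((k * Real.pi - α : ℝ) : ℂ) * x)) = Q
    have hne : (h : ℂ) ≠ 0 := Complex.ofReal_ne_zero.2 h0.ne'
    simp only [Complex.ofReal_zero, zero_mul, Complex.exp_zero, mul_one]
    push_cast
    field_simp
    ring
  rw [e2]
  refine (norm_add_le _ _).trans (add_le_add key ?_)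
  rw [norm_mul, Complex.norm_real, Real.norm_eq_abs, abs_div, abs_of_pos h0]
  have k3 : ‖((h * x : ℝ) : ℂ) * Complex.I‖ ^ 2 ≤ h ^ 2 := by
    rw [norm_mul, Complex.norm_I, mul_one, Complex.norm_real, Real.norm_eq_abs, sq_abs, mul_pow]
    have : x ^ 2 ≤ 1 := by rw [← sq_abs]; exact pow_le_one₀ (abs_nonneg _) x1
    nlinarith [sq_nonneg h]
  have k4 := k2.trans k3
  have k5 : |Real.sin α| ≤ 1 := Real.abs_sin_le_one α
  calc |Real.sin α| / h * ‖Complex.exp (((h * x : ℝ) : ℂ) * Complex.I) - 1 -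
      ((h * x : ℝ) : ℂ) * Complex.I‖ ≤ 1 / h * h ^ 2 := by gcongr
    _ = h := by field_simp

/-- the interpolation formula in the mean square sense -/
theorem approx [IsProbabilityMeasure P] (hτ : ∀ x, MeasurePreserving (τ x) P P)
    {G : S → E d → ℝ} (W : Wave P τ G) {v : E d} (hv : ‖v‖ = 1) {α : ℝ} (hs : Real.sin α ≠ 0)
    (t : Finset ℤ) :
    Integrable (fun s => (Real.sin α * Dv v (G s) 0 - Real.cos α * G s 0 -
      ∑ k ∈ t, ck α k * G s ((k * Real.pi - α) • v)) ^ 2) P ∧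
    ∫ s, (Real.sin α * Dv v (G s) 0 - Real.cos α * G s 0 -
      ∑ k ∈ t, ck α k * G s ((k * Real.pi - α) • v)) ^ 2 ∂P ≤
      2 * (1 - ∑ k ∈ t, wk α k) ^ 2 * ∫ s, G s 0 ^ 2 ∂P := by
  obtain ⟨m, hm⟩ : ∃ m, m = ∫ s, G s 0 ^ 2 ∂P := ⟨_, rfl⟩
  have m0 : 0 ≤ m := by rw [hm]; exact integral_nonneg fun s => sq_nonneg _
  obtain ⟨w, hw⟩ : ∃ w, w = 1 - ∑ k ∈ t, wk α k := ⟨_, rfl⟩
  obtain ⟨X, hX⟩ : ∃ X : S → ℝ, X = fun s => ∑ k ∈ t, ck α k * G s ((k * Real.pi - α) • v) :=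
    ⟨_, rfl⟩
  have mX : Measurable X := by
    rw [hX]; exact sumI hτ W t _ fun k : ℤ => (k * Real.pi - α) • v
  have mY : Measurable fun s => Real.sin α * Dv v (G s) 0 - Real.cos α * G s 0 - X s :=
    ((measurable_const.mul ((wdv hτ W v).sf.meas 0)).sub
      (measurable_const.mul (W.sf.meas 0))).sub mX
  have key : ∀ h : ℝ, 0 < h → h ≤ 1 →
      Integrable (fun s => (Real.sin α * Dv v (G s) 0 - Real.cos α * G s 0 - X s) ^ 2) P ∧
      ∫ s, (Real.sin α * Dv v (G s) 0 - Real.cos α * G s 0 - X s) ^ 2 ∂P ≤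
        2 * (w + h) ^ 2 * m + 2 * h ^ 2 * m := by
    intro h h0 h1
    have l := lemB hτ W 0 (h • v)
    have a := approx_h hτ W hv hs t h0 h1
    rw [← hm, ← hw] at a
    have e1 : ∀ s, (G s (0 + h • v) - G s 0 - Dv (h • v) (G s) 0) ^ 2 =
        h ^ 2 * ((G s (h • v) - G s 0) / h - Dv v (G s) 0) ^ 2 := by
      intro s
      have : Dv (h • v) (G s) 0 = h * Dv v (G s) 0 := by
        show fderiv ℝ (G s) 0 (h • v) = _
        rw [map_smul]; rfl
      rw [this, zero_add]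
      field_simp
    simp only [e1] at l
    have hn : ‖h • v‖ ^ 4 = h ^ 4 := by
      rw [norm_smul, hv, mul_one, Real.norm_eq_abs, abs_of_pos h0]
    rw [integral_const_mul, hn, ← hm] at l
    have hh : (0 : ℝ) < h ^ 2 := by positivity
    have l1 : Integrable (fun s => ((G s (h • v) - G s 0) / h - Dv v (G s) 0) ^ 2) P := by
      have := l.1.const_mul (h ^ 2)⁻¹
      refine this.congr (ae_of_all _ fun s => ?_)
      show (h ^ 2)⁻¹ * (h ^ 2 * ((G s (h • v) - G s 0) / h - Dv v (G s) 0) ^ 2) = _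
      field_simp
    have l2 : ∫ s, ((G s (h • v) - G s 0) / h - Dv v (G s) 0) ^ 2 ∂P ≤ h ^ 2 * m := by
      have := l.2
      have h4 : h ^ 4 * m = h ^ 2 * (h ^ 2 * m) := by ring
      rw [h4] at this
      exact le_of_mul_le_mul_left this hh
    have pt : ∀ s, (Real.sin α * Dv v (G s) 0 - Real.cos α * G s 0 - X s) ^ 2 ≤
        2 * (Real.sin α * ((G s (h • v) - G s 0) / h) - Real.cos α * G s 0 - X s) ^ 2 +
        2 * ((G s (h • v) - G s 0) / h - Dv v (G s) 0) ^ 2 := by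
      intro s
      obtain ⟨p, hp⟩ : ∃ p, p = (G s (h • v) - G s 0) / h - Dv v (G s) 0 := ⟨_, rfl⟩
      obtain ⟨y, hy⟩ : ∃ y, y = Real.sin α * ((G s (h • v) - G s 0) / h) -
        Real.cos α * G s 0 - X s := ⟨_, rfl⟩
      have e : Real.sin α * Dv v (G s) 0 - Real.cos α * G s 0 - X s = y - Real.sin α * p := by
        rw [hy, hp]; ring
      rw [e, ← hp, ← hy]
      have s1 : Real.sin α ^ 2 ≤ 1 := Real.sin_sq_le_one α
      nlinarith [sq_nonneg (y + Real.sin α * p), sq_nonneg p]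
    have ib : Integrable (fun s => 2 * (Real.sin α * ((G s (h • v) - G s 0) / h) -
        Real.cos α * G s 0 - X s) ^ 2 +
        2 * ((G s (h • v) - G s 0) / h - Dv v (G s) 0) ^ 2) P := by
      rw [hX]
      exact (a.1.const_mul 2).add (l1.const_mul 2)
    have ia : Integrable (fun s =>
        (Real.sin α * Dv v (G s) 0 - Real.cos α * G s 0 - X s) ^ 2) P := by
      refine Integrable.mono' ib (mY.pow_const 2).aestronglyMeasurable (ae_of_all _ fun s => ?_)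
      rw [Real.norm_eq_abs, abs_of_nonneg (sq_nonneg _)]
      exact pt s
    refine ⟨ia, (integral_mono ia ib pt).trans ?_⟩
    have e5 : ∫ s, (2 * (Real.sin α * ((G s (h • v) - G s 0) / h) -
        Real.cos α * G s 0 - X s) ^ 2 +
        2 * ((G s (h • v) - G s 0) / h - Dv v (G s) 0) ^ 2) ∂P =
        2 * (∫ s, (Real.sin α * ((G s (h • v) - G s 0) / h) -
        Real.cos α * G s 0 - X s) ^ 2 ∂P) +
        2 * ∫ s, ((G s (h • v) - G s 0) / h - Dv v (G s) 0) ^ 2 ∂P := by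
      rw [integral_add (by rw [hX]; exact a.1.const_mul 2) (l1.const_mul 2),
        integral_const_mul, integral_const_mul]
    rw [e5]
    have a2 := a.2
    rw [hX]
    linarith
  have k1 := (key 1 one_pos le_rfl).1
  rw [← hm, ← hw]
  have lim : Tendsto (fun h : ℝ => 2 * (w + h) ^ 2 * m + 2 * h ^ 2 * m) (𝓝[>] 0)
      (𝓝 (2 * (w + 0) ^ 2 * m + 2 * 0 ^ 2 * m)) := by
    have : Continuous fun h : ℝ => 2 * (w + h) ^ 2 * m + 2 * h ^ 2 * m := by fun_prop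
    exact this.continuousAt.tendsto.mono_left nhdsWithin_le_nhds
  have k2 : ∫ s, (Real.sin α * Dv v (G s) 0 - Real.cos α * G s 0 - X s) ^ 2 ∂P ≤
      2 * (w + 0) ^ 2 * m + 2 * 0 ^ 2 * m := by
    refine ge_of_tendsto lim ?_
    have : ∀ᶠ h : ℝ in 𝓝[>] 0, h ≤ 1 := by
      refine nhdsWithin_le_nhds ?_
      exact (eventually_le_nhds (one_pos)).mono fun x hx => hx
    filter_upwards [this, self_mem_nhdsWithin] with h h1 h0
    exact (key h h0 h1).2
  rw [hX] at k1 k2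
  refine ⟨k1, k2.trans (le_of_eq ?_)⟩
  ring

/-- Jensen for the finite sums -/
lemma jens {α : ℝ} (hs : Real.sin α ≠ 0) {Φ : ℝ → ℝ} (cΦ : ConvexOn ℝ Set.univ Φ)
    (eΦ : ∀ x, Φ (-x) = Φ x) (t : Finset ℤ) (y : ℤ → ℝ) :
    Φ (∑ k ∈ t, ck α k * y k) ≤ ∑ k ∈ t, wk α k * Φ (y k) + (1 - ∑ k ∈ t, wk α k) * Φ 0 := by
  have w1 : ∑ k ∈ t, wk α k ≤ 1 := sum_le_hasSum t (fun k _ => wk_nonneg α k) (wk_one hs)
  obtain ⟨w, hw⟩ : ∃ w : Option ℤ → ℝ, w = fun o => o.elim (1 - ∑ k ∈ t, wk α k) (wk α) := ⟨_, rfl⟩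
  obtain ⟨p, hp⟩ : ∃ p : Option ℤ → ℝ, p = fun o => o.elim 0 fun k => -((-1) ^ k * y k) := ⟨_, rfl⟩
  have h := cΦ.map_sum_le (t := Finset.insertNone t) (w := w) (p := p) (fun o _ => by
    rw [hw]
    cases o with
    | none => show 0 ≤ 1 - ∑ k ∈ t, wk α k; linarith
    | some k => exact wk_nonneg α k) (by
      rw [Finset.sum_insertNone, hw]
      show (1 - ∑ k ∈ t, wk α k) + ∑ k ∈ t, wk α k = 1
      ring) (fun _ _ => Set.mem_univ _)
  rw [Finset.sum_insertNone, Finset.sum_insertNone, hw, hp] at h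
  simp only [Option.elim, smul_eq_mul, mul_zero, zero_add] at h
  have e1 : ∑ k ∈ t, wk α k * -((-1) ^ k * y k) = ∑ k ∈ t, ck α k * y k := by
    refine Finset.sum_congr rfl fun k _ => ?_
    unfold ck; ring
  have e2 : ∑ k ∈ t, wk α k * Φ (-((-1) ^ k * y k)) = ∑ k ∈ t, wk α k * Φ (y k) := by
    refine Finset.sum_congr rfl fun k _ => ?_
    rw [eΦ]
    rcases Int.even_or_odd k with h1 | h1
    · rw [h1.neg_one_zpow, one_mul]
    · rw [h1.neg_one_zpow, neg_one_mul, eΦ]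
  rw [e1, e2] at h
  linarith

theorem conv_cont {Φ : ℝ → ℝ} (cΦ : ConvexOn ℝ Set.univ Φ) : Continuous Φ :=
  continuousOn_univ.1 (cΦ.continuousOn isOpen_univ)

lemma even_min {Φ : ℝ → ℝ} (cΦ : ConvexOn ℝ Set.univ Φ) (eΦ : ∀ x, Φ (-x) = Φ x) (x : ℝ) :
    Φ 0 ≤ Φ x := by
  have := cΦ.2 (Set.mem_univ x) (Set.mem_univ (-x)) (by norm_num : (0 : ℝ) ≤ 1 / 2)
    (by norm_num : (0 : ℝ) ≤ 1 / 2) (by norm_num)
  rw [eΦ] at this
  simp only [smul_eq_mul] at this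
  have e : 1 / 2 * x + 1 / 2 * -x = 0 := by ring
  rw [e] at this
  linarith

lemma fin_ineq [IsProbabilityMeasure P] (hτ : ∀ x, MeasurePreserving (τ x) P P)
    {G : S → E d → ℝ} (W : Wave P τ G) {v : E d} {α : ℝ} (hs : Real.sin α ≠ 0)
    {Φ : ℝ → ℝ} (cΦ : ConvexOn ℝ Set.univ Φ) (eΦ : ∀ x, Φ (-x) = Φ x) (t : Finset ℤ) :
    ∫⁻ s, ENNReal.ofReal (Φ (∑ k ∈ t, ck α k * G s ((k * Real.pi - α) • v))) ∂P ≤
      ∫⁻ s, ENNReal.ofReal (Φ (G s 0)) ∂P := by
  have w1 : ∑ k ∈ t, wk α k ≤ 1 := sum_le_hasSum t (fun k _ => wk_nonneg α k) (wk_one hs)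
  have cc := conv_cont cΦ
  obtain ⟨A, hA⟩ : ∃ A, A = ∫⁻ s, ENNReal.ofReal (Φ (G s 0)) ∂P := ⟨_, rfl⟩
  have A0 : ENNReal.ofReal (Φ 0) ≤ A := by
    rw [hA]
    calc ENNReal.ofReal (Φ 0) = ∫⁻ _, ENNReal.ofReal (Φ 0) ∂P := by
          rw [lintegral_const, measure_univ, mul_one]
      _ ≤ _ := lintegral_mono fun s => ENNReal.ofReal_le_ofReal (even_min cΦ eΦ _)
  have m1 : ∀ y, Measurable fun s => ENNReal.ofReal (Φ (G s y)) := fun y =>
    (cc.measurable.comp (W.sf.meas y)).ennreal_ofReal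
  have st : ∀ y, ∫⁻ s, ENNReal.ofReal (Φ (G s y)) ∂P = A := fun y => by
    rw [hA]
    exact st_lint hτ W.sf y (k := fun x => ENNReal.ofReal (Φ x)) cc.measurable.ennreal_ofReal
  rw [← hA]
  have pt : ∀ s, ENNReal.ofReal (Φ (∑ k ∈ t, ck α k * G s ((k * Real.pi - α) • v))) ≤
      ∑ k ∈ t, ENNReal.ofReal (wk α k) * ENNReal.ofReal (Φ (G s ((k * Real.pi - α) • v))) +
        ENNReal.ofReal (1 - ∑ k ∈ t, wk α k) * ENNReal.ofReal (Φ 0) := by
    intro s
    refine (ENNReal.ofReal_le_ofReal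
      (jens hs cΦ eΦ t fun k => G s ((k * Real.pi - α) • v))).trans ?_
    refine ENNReal.ofReal_add_le.trans (add_le_add ?_ ?_)
    · refine le_trans (b := ∑ k ∈ t, ENNReal.ofReal (wk α k * Φ (G s ((k * Real.pi - α) • v))))
        ?_ (le_of_eq ?_)
      · exact Finset.le_sum_of_subadditive ENNReal.ofReal ENNReal.ofReal_zero.le
          (fun x y => ENNReal.ofReal_add_le) t _
      · exact Finset.sum_congr rfl fun k _ => ENNReal.ofReal_mul (wk_nonneg α k)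
    · rw [ENNReal.ofReal_mul (by linarith)]
  refine (lintegral_mono pt).trans ?_
  rw [lintegral_add_right _ measurable_const, lintegral_const, measure_univ, mul_one,
    lintegral_finsetSum _ fun k _ => (m1 _).const_mul _]
  simp only [lintegral_const_mul _ (m1 _), st]
  rw [← Finset.sum_mul, ← ENNReal.ofReal_sum_of_nonneg fun k _ => wk_nonneg α k]
  calc ENNReal.ofReal (∑ k ∈ t, wk α k) * A +
      ENNReal.ofReal (1 - ∑ k ∈ t, wk α k) * ENNReal.ofReal (Φ 0) ≤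
      ENNReal.ofReal (∑ k ∈ t, wk α k) * A + ENNReal.ofReal (1 - ∑ k ∈ t, wk α k) * A := by
        gcongr
    _ = A := by
        rw [← add_mul, ← ENNReal.ofReal_add (Finset.sum_nonneg fun k _ => wk_nonneg α k)
          (by linarith)]
        simp

/-- **Bernstein–Szegő in law**, in the form with `sin α ≠ 0` -/
theorem szego1 [IsProbabilityMeasure P] (hτ : ∀ x, MeasurePreserving (τ x) P P)
    {G : S → E d → ℝ} (W : Wave P τ G) {v : E d} (hv : ‖v‖ = 1) {α : ℝ} (hs : Real.sin α ≠ 0)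
    {Φ : ℝ → ℝ} (cΦ : ConvexOn ℝ Set.univ Φ) (eΦ : ∀ x, Φ (-x) = Φ x) :
    ∫⁻ s, ENNReal.ofReal (Φ (Real.sin α * Dv v (G s) 0 - Real.cos α * G s 0)) ∂P ≤
      ∫⁻ s, ENNReal.ofReal (Φ (G s 0)) ∂P := by
  have cc := conv_cont cΦ
  obtain ⟨m, hm⟩ : ∃ m, m = ∫ s, G s 0 ^ 2 ∂P := ⟨_, rfl⟩
  have m0 : 0 ≤ m := by rw [hm]; exact integral_nonneg fun s => sq_nonneg _
  have ex : ∀ n : ℕ, ∃ t : Finset ℤ, 1 - ∑ k ∈ t, wk α k ≤ (1 / 2) ^ n := by
    intro n
    have h1 : ∀ᶠ t : Finset ℤ in atTop, 1 - (1 / 2) ^ n < ∑ k ∈ t, wk α k :=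
      (wk_one hs).eventually_const_lt (by
        have : (0 : ℝ) < (1 / 2) ^ n := by positivity
        linarith)
    obtain ⟨t, ht⟩ := h1.exists
    exact ⟨t, by linarith⟩
  choose t ht using ex
  obtain ⟨Y, hY⟩ : ∃ Y : S → ℝ, Y = fun s => Real.sin α * Dv v (G s) 0 - Real.cos α * G s 0 :=
    ⟨_, rfl⟩
  obtain ⟨X, hX⟩ : ∃ X : ℕ → S → ℝ, X = fun n s =>
    ∑ k ∈ t n, ck α k * G s ((k * Real.pi - α) • v) := ⟨_, rfl⟩
  have mX : ∀ n, Measurable (X n) := fun n => by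
    rw [hX]; exact sumI hτ W (t n) _ fun k : ℤ => (k * Real.pi - α) • v
  have mY : Measurable Y := by
    rw [hY]
    exact (measurable_const.mul ((wdv hτ W v).sf.meas 0)).sub
      (measurable_const.mul (W.sf.meas 0))
  have b : ∀ n, ∫⁻ s, ENNReal.ofReal ((Y s - X n s) ^ 2) ∂P ≤
      ENNReal.ofReal (2 * m) * ENNReal.ofReal (1 / 4) ^ n := by
    intro n
    have a := approx hτ W hv hs (t n)
    rw [← hm] at a
    have a1 : Integrable (fun s => (Y s - X n s) ^ 2) P := by rw [hY, hX]; exact a.1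
    have a2 : ∫ s, (Y s - X n s) ^ 2 ∂P ≤ 2 * (1 - ∑ k ∈ t n, wk α k) ^ 2 * m := by
      rw [hY, hX]; exact a.2
    rw [← ofReal_integral_eq_lintegral_ofReal a1 (ae_of_all _ fun s => sq_nonneg _),
      ← ENNReal.ofReal_pow (by norm_num), ← ENNReal.ofReal_mul (by positivity)]
    refine ENNReal.ofReal_le_ofReal (a2.trans ?_)
    have w1 : ∑ k ∈ t n, wk α k ≤ 1 :=
      sum_le_hasSum (t n) (fun k _ => wk_nonneg α k) (wk_one hs)
    have h1 : (1 - ∑ k ∈ t n, wk α k) ^ 2 ≤ ((1 / 2) ^ n) ^ 2 :=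
      pow_le_pow_left₀ (by linarith) (ht n) 2
    have h2 : (((1 : ℝ) / 2) ^ n) ^ 2 = (1 / 4) ^ n := by
      rw [← pow_mul, mul_comm n 2, pow_mul]; norm_num
    rw [h2] at h1
    nlinarith
  have ae1 : ∀ᵐ s ∂P, Tendsto (fun n => X n s) atTop (𝓝 (Y s)) := by
    have m2 : ∀ n, Measurable fun s => ENNReal.ofReal ((Y s - X n s) ^ 2) := fun n =>
      ((mY.sub (mX n)).pow_const 2).ennreal_ofReal
    have fin : ∫⁻ s, ∑' n, ENNReal.ofReal ((Y s - X n s) ^ 2) ∂P ≠ ⊤ := by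
      rw [lintegral_tsum fun n => (m2 n).aemeasurable]
      refine ne_top_of_le_ne_top ?_ (ENNReal.tsum_le_tsum b)
      rw [ENNReal.tsum_mul_left]
      refine ENNReal.mul_ne_top ENNReal.ofReal_ne_top ?_
      rw [ENNReal.tsum_geometric]
      refine ENNReal.inv_ne_top.2 ?_
      have : ENNReal.ofReal (1 / 4) < 1 := by
        rw [← ENNReal.ofReal_one]
        exact (ENNReal.ofReal_lt_ofReal_iff one_pos).2 (by norm_num)
      exact (tsub_pos_of_lt this).ne'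
    have h2 := ae_lt_top (Measurable.tsum m2) fin
    filter_upwards [h2] with s hs2
    have h3 := ENNReal.tendsto_atTop_zero_of_tsum_ne_top hs2.ne
    have h4 : Tendsto (fun n => (Y s - X n s) ^ 2) atTop (𝓝 0) := by
      have := (ENNReal.tendsto_toReal ENNReal.zero_ne_top).comp h3
      refine this.congr fun n => ?_
      show (ENNReal.ofReal ((Y s - X n s) ^ 2)).toReal = _
      rw [ENNReal.toReal_ofReal (sq_nonneg _)]
    have h5 : Tendsto (fun n => |Y s - X n s|) atTop (𝓝 0) := by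
      have := (Real.continuous_sqrt.tendsto 0).comp h4
      rw [Real.sqrt_zero] at this
      refine this.congr fun n => ?_
      show √((Y s - X n s) ^ 2) = _
      rw [Real.sqrt_sq_eq_abs]
    rw [tendsto_iff_norm_sub_tendsto_zero]
    refine h5.congr fun n => ?_
    rw [Real.norm_eq_abs, abs_sub_comm]
  have e1 : ∫⁻ s, ENNReal.ofReal (Φ (Y s)) ∂P =
      ∫⁻ s, liminf (fun n => ENNReal.ofReal (Φ (X n s))) atTop ∂P := by
    refine lintegral_congr_ae ?_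
    filter_upwards [ae1] with s h
    exact ((ENNReal.tendsto_ofReal ((cc.tendsto _).comp h)).liminf_eq).symm
  have e2 : ∫⁻ s, ENNReal.ofReal (Φ (Real.sin α * Dv v (G s) 0 - Real.cos α * G s 0)) ∂P =
      ∫⁻ s, ENNReal.ofReal (Φ (Y s)) ∂P := by rw [hY]
  rw [e2, e1]
  refine (lintegral_liminf_le fun n => (cc.measurable.comp (mX n)).ennreal_ofReal).trans ?_
  refine liminf_le_of_le (by isBoundedDefault) fun b hb => ?_
  obtain ⟨n, hn⟩ := hb.exists
  refine hn.trans ?_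
  rw [hX]
  exact fin_ineq hτ W hs cΦ eΦ (t n)

/-- **The Bernstein–Szegő inequality in law.** -/
theorem szego [IsProbabilityMeasure P] (hτ : ∀ x, MeasurePreserving (τ x) P P)
    {G : S → E d → ℝ} (W : Wave P τ G) {v : E d} (hv : ‖v‖ = 1) (α : ℝ)
    {Φ : ℝ → ℝ} (cΦ : ConvexOn ℝ Set.univ Φ) (eΦ : ∀ x, Φ (-x) = Φ x) :
    ∫⁻ s, ENNReal.ofReal (Φ (Real.cos α * G s 0 + Real.sin α * Dv v (G s) 0)) ∂P ≤
      ∫⁻ s, ENNReal.ofReal (Φ (G s 0)) ∂P := by
  by_cases hs : Real.sin α = 0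
  · refine le_of_eq (lintegral_congr fun s => ?_)
    rw [hs, zero_mul, add_zero]
    rcases Real.sin_eq_zero_iff_cos_eq.1 hs with h | h
    · rw [h, one_mul]
    · rw [h, neg_one_mul, eΦ]
  · have h := szego1 hτ W hv (α := -α) (by rw [Real.sin_neg]; exact neg_ne_zero.2 hs) cΦ eΦ
    refine le_trans (le_of_eq (lintegral_congr fun s => ?_)) h
    rw [Real.sin_neg, Real.cos_neg]
    rw [← eΦ (Real.cos α * G s 0 + Real.sin α * Dv v (G s) 0)]
    congr 2
    ring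

end

end Pool.Agent.X127.SW
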