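import Pool.Agent.X127.SW.Grad

/-! # The reverse Bernstein inequality in law -/

set_option autoImplicit false
open MeasureTheory Filter Topology
open scoped ContDiff ENNReal

namespace Pool.Agent.X127.SW

open Pool.Agent.Y139.SW

noncomputable section

variable {d : ℕ} {S : Type*} [MeasurableSpace S] {P : Measure S} {τ : E d → S → S}

/-- the Laplacian in any orthonormal basis -/
lemma lap_basis (b : OrthonormalBasis (Fin d) ℝ (E d)) {f : E d → ℝ} (hf : ContDiff ℝ ∞ f)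
    (y : E d) : ∑ i, Dv (b i) (Dv (b i) f) y = Lap f y := by
  have h1 : ∀ v : E d, ∀ j, D j (Dv v f) y = ∑ k, v k * D j (D k f) y := by
    intro v j
    rw [dv_fun, D_sum Finset.univ (fun i => contDiff_const.mul (D_sm hf i)) j y]
    exact Finset.sum_congr rfl fun i _ => D_cmul (D_sm hf i) _ _ _
  have h2 : ∀ i, Dv (b i) (Dv (b i) f) y =
      ∑ j, ∑ k, (b i j * b i k) * D j (D k f) y := by
    intro i
    rw [dv_eq]
    refine Finset.sum_congr rfl fun j _ => ?_
    rw [h1, Finset.mul_sum]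
    exact Finset.sum_congr rfl fun k _ => by ring
  have h3 : ∀ j k : Fin d, ∑ i, b i j * b i k = if j = k then 1 else 0 := by
    intro j k
    have h := b.sum_inner_mul_inner (EuclideanSpace.single j (1 : ℝ))
      (EuclideanSpace.single k (1 : ℝ))
    have e : ∀ i, inner ℝ (EuclideanSpace.single j (1 : ℝ)) (b i) *
        inner ℝ (b i) (EuclideanSpace.single k (1 : ℝ)) = b i j * b i k := by
      intro i
      rw [EuclideanSpace.inner_single_left, EuclideanSpace.inner_single_right]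
      simp
    simp only [e] at h
    rw [h, EuclideanSpace.inner_single_left]
    simp [Pi.single_apply, eq_comm]
  simp only [h2]
  rw [Finset.sum_comm]
  unfold Lap
  refine Finset.sum_congr rfl fun j _ => ?_
  rw [Finset.sum_comm]
  have e : ∀ k, ∑ i, (b i j * b i k) * D j (D k f) y = if j = k then D j (D k f) y else 0 := by
    intro k
    rw [← Finset.sum_mul, h3]
    split_ifs <;> simp
  simp only [e]
  simp

lemma szD [IsProbabilityMeasure P] (hτ : ∀ x, MeasurePreserving (τ x) P P)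
    {G : S → E d → ℝ} (W : Wave P τ G) {v : E d} (hv : ‖v‖ = 1)
    {Φ : ℝ → ℝ} (cΦ : ConvexOn ℝ Set.univ Φ) (eΦ : ∀ x, Φ (-x) = Φ x) :
    ∫⁻ s, ENNReal.ofReal (Φ (Dv v (G s) 0)) ∂P ≤ ∫⁻ s, ENNReal.ofReal (Φ (G s 0)) ∂P := by
  have h := szego hτ W hv (Real.pi / 2) cΦ eΦ
  simp only [Real.cos_pi_div_two, Real.sin_pi_div_two, zero_mul, one_mul, zero_add] at h
  exact h

/-- **the reverse inequality** -/
theorem rev [IsProbabilityMeasure P] (hτ : ∀ x, MeasurePreserving (τ x) P P)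
    {G : S → E d → ℝ} (W : Wave P τ G) (b : OrthonormalBasis (Fin d) ℝ (E d))
    {p : Fin d → ℝ} (p0 : ∀ i, 0 < p i) (p1 : ∑ i, p i = 1)
    {Φ : ℝ → ℝ} (cΦ : ConvexOn ℝ Set.univ Φ) (eΦ : ∀ x, Φ (-x) = Φ x) (Φ0 : ∀ x, 0 ≤ Φ x) :
    ∫⁻ s, ENNReal.ofReal (Φ (G s 0)) ∂P ≤
      ∑ i, ENNReal.ofReal (p i) * ∫⁻ s, ENNReal.ofReal (Φ (Dv (b i) (G s) 0 / p i)) ∂P := by
  have cc := conv_cont cΦ
  have Wi : ∀ i, Wave P τ (fun s => Dv (b i) (G s)) := fun i => wdv hτ W (b i)
  have Wii : ∀ i, Wave P τ (fun s => Dv (b i) (Dv (b i) (G s))) := fun i => wdv hτ (Wi i) (b i)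
  have ms : ∀ i, Measurable fun s =>
      ENNReal.ofReal (Φ (Dv (b i) (Dv (b i) (G s)) 0 / p i)) := fun i =>
    (cc.measurable.comp (((Wii i).sf.meas 0).div_const _)).ennreal_ofReal
  calc ∫⁻ s, ENNReal.ofReal (Φ (G s 0)) ∂P ≤
      ∫⁻ s, ∑ i, ENNReal.ofReal (p i) *
        ENNReal.ofReal (Φ (Dv (b i) (Dv (b i) (G s)) 0 / p i)) ∂P := by
        refine lintegral_mono fun s => ?_
        have e1 : G s 0 = -∑ i, p i • (Dv (b i) (Dv (b i) (G s)) 0 / p i) := by
          have e2 : ∀ i, p i • (Dv (b i) (Dv (b i) (G s)) 0 / p i) =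
              Dv (b i) (Dv (b i) (G s)) 0 := fun i => by
            rw [smul_eq_mul, mul_div_cancel₀ _ (p0 i).ne']
          simp only [e2]
          rw [lap_basis b (W.sf.smooth s), W.eq s 0, neg_neg]
        have e3 := cΦ.map_sum_le (t := Finset.univ) (w := p)
          (p := fun i => Dv (b i) (Dv (b i) (G s)) 0 / p i) (fun i _ => (p0 i).le) p1
          fun i _ => Set.mem_univ _
        have e4 : Φ (G s 0) ≤ ∑ i, p i • Φ (Dv (b i) (Dv (b i) (G s)) 0 / p i) := by
          rw [e1, eΦ]; exact e3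
        refine (ENNReal.ofReal_le_ofReal e4).trans (le_of_eq ?_)
        simp only [smul_eq_mul]
        rw [ENNReal.ofReal_sum_of_nonneg fun i _ => mul_nonneg (p0 i).le (Φ0 _)]
        exact Finset.sum_congr rfl fun i _ => ENNReal.ofReal_mul (p0 i).le
    _ = ∑ i, ENNReal.ofReal (p i) *
        ∫⁻ s, ENNReal.ofReal (Φ (Dv (b i) (Dv (b i) (G s)) 0 / p i)) ∂P := by
        rw [lintegral_finsetSum _ fun i _ => (ms i).const_mul _]
        exact Finset.sum_congr rfl fun i _ => lintegral_const_mul _ (ms i)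
    _ ≤ _ := by
        refine Finset.sum_le_sum fun i _ => mul_le_mul' le_rfl ?_
        have hv : ‖b i‖ = 1 := b.norm_eq_one i
        refine szD hτ (Wi i) hv (Φ := fun x => Φ (x / p i)) ?_ fun x => ?_
        · refine ⟨convex_univ, fun x _ y _ q r hq hr hqr => ?_⟩
          have := cΦ.2 (Set.mem_univ (x / p i)) (Set.mem_univ (y / p i)) hq hr hqr
          simp only [smul_eq_mul] at this ⊢
          rw [show (q * x + r * y) / p i = q * (x / p i) + r * (y / p i) by ring]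
          exact this
        · show Φ (-x / p i) = Φ (x / p i)
          rw [neg_div, eΦ]

lemma pow_conv {q : ℝ} (hq : 1 ≤ q) : ConvexOn ℝ Set.univ fun x : ℝ => |x| ^ q := by
  have h1 : ConvexOn ℝ Set.univ (fun x : ℝ => |x|) := convexOn_univ_norm (E := ℝ)
  refine ⟨convex_univ, fun x _ y _ a b ha hb hab => ?_⟩
  have h2 := h1.2 (Set.mem_univ x) (Set.mem_univ y) ha hb hab
  have h3 := (convexOn_rpow hq).2 (show |x| ∈ Set.Ici (0 : ℝ) from abs_nonneg x)
    (show |y| ∈ Set.Ici (0 : ℝ) from abs_nonneg y) ha hb hab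
  exact (Real.rpow_le_rpow (abs_nonneg _) h2 (by linarith)).trans h3

lemma lq_eq {q : ℝ} (hq : 1 ≤ q) (f : S → ℝ) : eLpNorm f (ENNReal.ofReal q) P =
    (∫⁻ s, ENNReal.ofReal (|f s| ^ q) ∂P) ^ (1 / q) := by
  have q0 : 0 < q := by linarith
  rw [eLpNorm_eq_lintegral_rpow_enorm_toReal (by simpa using q0) ENNReal.ofReal_ne_top,
    ENNReal.toReal_ofReal q0.le]
  congr 1
  refine lintegral_congr fun s => ?_
  rw [← ENNReal.ofReal_rpow_of_nonneg (abs_nonneg _) q0.le, ← Real.enorm_eq_ofReal_abs]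

/-- **the norm bound** -/
theorem rev_lq [IsProbabilityMeasure P] (hτ : ∀ x, MeasurePreserving (τ x) P P)
    {G : S → E d → ℝ} (W : Wave P τ G) (b : OrthonormalBasis (Fin d) ℝ (E d))
    {q : ℝ} (hq : 1 ≤ q) :
    eLpNorm (fun s => G s 0) (ENNReal.ofReal q) P ≤
      ∑ i, eLpNorm (fun s => Dv (b i) (G s) 0) (ENNReal.ofReal q) P := by
  have q0 : 0 < q := by linarith
  have Wi : ∀ i, Wave P τ (fun s => Dv (b i) (G s)) := fun i => wdv hτ W (b i)
  have Wii : ∀ i, Wave P τ (fun s => Dv (b i) (Dv (b i) (G s))) := fun i => wdv hτ (Wi i) (b i)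
  have e : (fun s => G s 0) = -∑ i, fun s => Dv (b i) (Dv (b i) (G s)) 0 := by
    funext s
    rw [Pi.neg_apply, Finset.sum_apply, lap_basis b (W.sf.smooth s), W.eq s 0, neg_neg]
  rw [e, eLpNorm_neg]
  refine (eLpNorm_sum_le (fun i _ => ((Wii i).sf.meas 0).aestronglyMeasurable)
    (by rw [← ENNReal.ofReal_one]; exact ENNReal.ofReal_le_ofReal hq)).trans ?_
  refine Finset.sum_le_sum fun i _ => ?_
  rw [lq_eq hq, lq_eq hq]
  refine ENNReal.rpow_le_rpow ?_ (by positivity)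
  exact szD hτ (Wi i) (b.norm_eq_one i) (pow_conv hq) fun x => by rw [abs_neg]

/-- **the sup bound** -/
theorem rev_sup [IsProbabilityMeasure P] (hτ : ∀ x, MeasurePreserving (τ x) P P)
    {G : S → E d → ℝ} (W : Wave P τ G) (b : OrthonormalBasis (Fin d) ℝ (E d))
    {K : Fin d → ℝ} (hK : ∀ i, ∀ᵐ s ∂P, |Dv (b i) (G s) 0| ≤ K i) :
    ∀ᵐ s ∂P, |G s 0| ≤ ∑ i, K i := by
  have Wi : ∀ i, Wave P τ (fun s => Dv (b i) (G s)) := fun i => wdv hτ W (b i)
  have Wii : ∀ i, Wave P τ (fun s => Dv (b i) (Dv (b i) (G s))) := fun i => wdv hτ (Wi i) (b i)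
  have h1 : ∀ i, ∀ᵐ s ∂P, |Dv (b i) (Dv (b i) (G s)) 0| ≤ K i := by
    intro i
    have h := szD hτ (Wi i) (b.norm_eq_one i) (pen_conv (K i)) (pen_even (K i))
    have z : ∫⁻ s, ENNReal.ofReal (pen (K i) (Dv (b i) (G s) 0)) ∂P = 0 := by
      have : ∫⁻ s, ENNReal.ofReal (pen (K i) (Dv (b i) (G s) 0)) ∂P = ∫⁻ _, 0 ∂P := by
        refine lintegral_congr_ae ?_
        filter_upwards [hK i] with s hs using pen_zero.2 hs
      rw [this, lintegral_zero]
    rw [z, nonpos_iff_eq_zero] at h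
    have mz : Measurable fun s =>
        ENNReal.ofReal (pen (K i) (Dv (b i) (Dv (b i) (G s)) 0)) :=
      ((conv_cont (pen_conv (K i))).measurable.comp ((Wii i).sf.meas 0)).ennreal_ofReal
    rw [lintegral_eq_zero_iff mz] at h
    filter_upwards [h] with s hs using pen_zero.1 hs
  filter_upwards [ae_all_iff.2 h1] with s hs
  have e : G s 0 = -∑ i, Dv (b i) (Dv (b i) (G s)) 0 := by
    rw [lap_basis b (W.sf.smooth s), W.eq s 0, neg_neg]
  rw [e, abs_neg]
  exact (Finset.abs_sum_le_sum_abs _ _).trans (Finset.sum_le_sum fun i _ => hs i)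

end

end Pool.Agent.X127.SW
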