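import Pool.Agent.X127.SW.Grad

/-! # Bounded stationary waves are dominated by the arcsine law -/

set_option autoImplicit false
open MeasureTheory Filter Topology ProbabilityTheory
open scoped ContDiff ENNReal

namespace Pool.Agent.X127.SW

open Pool.Agent.Y139.SW
open Pool.Agent.TH421.AC (Pr Pr_d Pr_sm)

noncomputable section

lemma sxc {x : ℝ} (h0 : 0 ≤ x) (h1 : x ≤ Real.pi) : x * Real.cos x ≤ Real.sin x := by
  have hd : ∀ y, HasDerivAt (fun y => Real.sin y - y * Real.cos y) (y * Real.sin y) y := by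
    intro y
    have := (Real.hasDerivAt_sin y).sub ((hasDerivAt_id y).mul (Real.hasDerivAt_cos y))
    refine this.congr_deriv ?_
    simp only [id]
    ring
  have mono : MonotoneOn (fun y => Real.sin y - y * Real.cos y) (Set.Icc 0 Real.pi) := by
    refine monotoneOn_of_deriv_nonneg (convex_Icc _ _) ?_ ?_ fun y hy => ?_
    · exact (continuous_iff_continuousAt.2 fun y => (hd y).continuousAt).continuousOn
    · exact fun y _ => (hd y).differentiableAt.differentiableWithinAt
    · rw [(hd y).deriv]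
      rw [interior_Icc] at hy
      exact mul_nonneg hy.1.le (Real.sin_nonneg_of_nonneg_of_le_pi hy.1.le hy.2.le)
  have := mono ⟨le_rfl, Real.pi_pos.le⟩ ⟨h0, h1⟩ h0
  simp only [Real.sin_zero, zero_mul, sub_zero] at this
  linarith

section calcs

variable (R a : ℝ)

/-- the angle -/
def th (t : ℝ) : ℝ := Real.arccos (t / R)
/-- the height -/
def hu (t : ℝ) : ℝ := R * Real.sin (th R t)
/-- the constant -/
def cc : ℝ := (hu R a - a * th R a) / Real.pi
/-- left branch -/
def p1 (t : ℝ) : ℝ := cc R a * (Real.pi - th R t) / hu R t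
/-- right branch -/
def p2 (t : ℝ) : ℝ := 1 - (a + cc R a) * th R t / hu R t
/-- the solution -/
def ps (t : ℝ) : ℝ := p1 R a (min t a) + p2 R a (max t a) - p2 R a a
/-- its derivative -/
def gs (t : ℝ) : ℝ := (t * ps R a t - max (t - a) 0 + cc R a) / hu R t ^ 2

variable {R a}

lemma th_facts (R0 : 0 < R) {t : ℝ} (ht : t ∈ Set.Ioo (-R) R) :
    0 < th R t ∧ th R t < Real.pi ∧ R * Real.cos (th R t) = t ∧ 0 < hu R t ∧
      hu R t ^ 2 = R ^ 2 - t ^ 2 := by
  have h1 : -1 < t / R := by rw [lt_div_iff₀ R0]; linarith [ht.1]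
  have h2 : t / R < 1 := by rw [div_lt_iff₀ R0]; linarith [ht.2]
  have c : Real.cos (th R t) = t / R := Real.cos_arccos h1.le h2.le
  have a0 : 0 < th R t := Real.arccos_pos.2 h2
  have a1 : th R t < Real.pi := by
    refine lt_of_le_of_ne (Real.arccos_le_pi _) fun h => ?_
    rw [h, Real.cos_pi] at c
    linarith
  have s0 : 0 < Real.sin (th R t) := Real.sin_pos_of_pos_of_lt_pi a0 a1
  refine ⟨a0, a1, by rw [c]; field_simp, by unfold hu; positivity, ?_⟩
  unfold hu
  rw [mul_pow, Real.sin_sq, c]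
  field_simp

lemma th_der (R0 : 0 < R) {t : ℝ} (ht : t ∈ Set.Ioo (-R) R) :
    HasDerivAt (th R) (-1 / hu R t) t := by
  have h1 : -1 < t / R := by rw [lt_div_iff₀ R0]; linarith [ht.1]
  have h2 : t / R < 1 := by rw [div_lt_iff₀ R0]; linarith [ht.2]
  have h3 : HasDerivAt (fun t : ℝ => t / R) (1 / R) t := (hasDerivAt_id t).div_const R
  have h4 := (Real.hasDerivAt_arccos h1.ne' h2.ne).comp t h3
  refine h4.congr_deriv ?_
  have e : Real.sin (th R t) = √(1 - (t / R) ^ 2) := Real.sin_arccos _
  unfold hu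
  rw [e]
  have := (th_facts R0 ht).2.2.2.1
  unfold hu at this
  rw [e] at this
  have s0 : √(1 - (t / R) ^ 2) ≠ 0 := fun h => by rw [h, mul_zero] at this; exact lt_irrefl _ this
  field_simp

lemma hu_der (R0 : 0 < R) {t : ℝ} (ht : t ∈ Set.Ioo (-R) R) :
    HasDerivAt (hu R) (-t / hu R t) t := by
  have h := ((Real.hasDerivAt_sin (th R t)).comp t (th_der R0 ht)).const_mul R
  refine h.congr_deriv ?_
  have c := (th_facts R0 ht).2.2.1
  calc R * (Real.cos (th R t) * (-1 / hu R t)) = -(R * Real.cos (th R t)) / hu R t := by ring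
    _ = -t / hu R t := by rw [c]

lemma p1_der (R0 : 0 < R) {t : ℝ} (ht : t ∈ Set.Ioo (-R) R) :
    HasDerivAt (p1 R a) ((t * p1 R a t + cc R a) / hu R t ^ 2) t := by
  obtain ⟨_, _, _, u0, _⟩ := th_facts R0 ht
  have h := (((th_der R0 ht).const_sub Real.pi).const_mul (cc R a)).div (hu_der R0 ht) u0.ne'
  refine h.congr_deriv ?_
  unfold p1
  field_simp
  ring

lemma p2_der (R0 : 0 < R) {t : ℝ} (ht : t ∈ Set.Ioo (-R) R) :
    HasDerivAt (p2 R a) ((t * p2 R a t - (t - a) + cc R a) / hu R t ^ 2) t := by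
  obtain ⟨_, _, _, u0, _⟩ := th_facts R0 ht
  have h := (((th_der R0 ht).const_mul (a + cc R a)).div (hu_der R0 ht) u0.ne').const_sub 1
  refine h.congr_deriv ?_
  unfold p2
  field_simp
  ring

lemma p1_c (R0 : 0 < R) : ContinuousOn (p1 R a) (Set.Ioo (-R) R) := fun _ ht =>
  (p1_der R0 ht).continuousAt.continuousWithinAt

lemma p2_c (R0 : 0 < R) : ContinuousOn (p2 R a) (Set.Ioo (-R) R) := fun _ ht =>
  (p2_der R0 ht).continuousAt.continuousWithinAt

lemma hu_c (R0 : 0 < R) : ContinuousOn (hu R) (Set.Ioo (-R) R) := fun _ ht =>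
  (hu_der R0 ht).continuousAt.continuousWithinAt

lemma p_eq (R0 : 0 < R) (ha : a ∈ Set.Ioo (-R) R) : p1 R a a = p2 R a a := by
  obtain ⟨_, _, _, u0, _⟩ := th_facts R0 ha
  have : cc R a * Real.pi = hu R a - a * th R a := by
    unfold cc
    have := Real.pi_pos.ne'
    field_simp
  unfold p1 p2
  field_simp
  linarith

lemma ps_le {t : ℝ} (h : t ≤ a) : ps R a t = p1 R a t := by
  unfold ps
  rw [min_eq_left h, max_eq_right h]
  ring

lemma ps_ge (R0 : 0 < R) (ha : a ∈ Set.Ioo (-R) R) {t : ℝ} (h : a ≤ t) :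
    ps R a t = p2 R a t := by
  unfold ps
  rw [min_eq_right h, max_eq_left h, p_eq R0 ha]
  ring

lemma ps_c (R0 : 0 < R) (ha : a ∈ Set.Ioo (-R) R) : ContinuousOn (ps R a) (Set.Ioo (-R) R) := by
  have h1 : ContinuousOn (fun t => p1 R a (min t a)) (Set.Ioo (-R) R) :=
    (p1_c R0).comp (continuous_id.min continuous_const).continuousOn fun t ht =>
      ⟨lt_min ht.1 ha.1, (min_le_left _ _).trans_lt ht.2⟩
  have h2 : ContinuousOn (fun t => p2 R a (max t a)) (Set.Ioo (-R) R) :=
    (p2_c R0).comp (continuous_id.max continuous_const).continuousOn fun t ht =>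
      ⟨ht.1.trans_le (le_max_left _ _), max_lt ht.2 ha.2⟩
  exact (h1.add h2).sub continuousOn_const

lemma gs_c (R0 : 0 < R) (ha : a ∈ Set.Ioo (-R) R) : ContinuousOn (gs R a) (Set.Ioo (-R) R) := by
  refine ContinuousOn.div ?_ ((hu_c R0).pow 2) fun t ht => ?_
  · refine ((continuousOn_id.mul (ps_c R0 ha)).sub ?_).add continuousOn_const
    exact ((continuous_id.sub continuous_const).max continuous_const).continuousOn
  · have := (th_facts R0 ht).2.2.2.1
    positivity

lemma ps_der (R0 : 0 < R) (ha : a ∈ Set.Ioo (-R) R) {t : ℝ} (ht : t ∈ Set.Ioo (-R) R)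
    (hne : t ≠ a) : HasDerivAt (ps R a) (gs R a t) t := by
  rcases lt_or_gt_of_ne hne with h | h
  · have h1 := p1_der (a := a) R0 ht
    have e : ps R a =ᶠ[𝓝 t] p1 R a := by
      filter_upwards [eventually_lt_nhds h] with s hs using ps_le hs.le
    have h2 := h1.congr_of_eventuallyEq e
    refine h2.congr_deriv ?_
    unfold gs
    rw [ps_le h.le, max_eq_right (by linarith), sub_zero]
  · have h1 := p2_der (a := a) R0 ht
    have e : ps R a =ᶠ[𝓝 t] p2 R a := by
      filter_upwards [eventually_gt_nhds h] with s hs using ps_ge R0 ha hs.le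
    have h2 := h1.congr_of_eventuallyEq e
    refine h2.congr_deriv ?_
    unfold gs
    rw [ps_ge R0 ha h.le, max_eq_left (by linarith)]

lemma cc_nn (R0 : 0 < R) (ha : a ∈ Set.Ioo (-R) R) : 0 ≤ cc R a ∧ 0 ≤ a + cc R a := by
  obtain ⟨t0, t1, c, u0, _⟩ := th_facts R0 ha
  have pp := Real.pi_pos
  have h1 := sxc t0.le t1.le
  have h2 := sxc (x := Real.pi - th R a) (by linarith) (by linarith)
  rw [Real.cos_pi_sub, Real.sin_pi_sub] at h2
  have e : cc R a = R * (Real.sin (th R a) - th R a * Real.cos (th R a)) / Real.pi := by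
    unfold cc hu
    rw [mul_sub]
    congr 1
    have : a * th R a = R * Real.cos (th R a) * th R a := by rw [c]
    rw [this]; ring
  have e2 : a + cc R a = R * (Real.sin (th R a) + (Real.pi - th R a) * Real.cos (th R a)) /
      Real.pi := by
    rw [e]
    have : a = R * Real.cos (th R a) := c.symm
    conv_lhs => rw [this]
    have : Real.cos (th R (R * Real.cos (th R a))) = Real.cos (th R a) := by rw [c]
    rw [c] at this ⊢
    field_simp
    rw [show a = R * Real.cos (th R a) from c.symm]
    rw [c]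
    have c' := c
    nlinarith [c']
  constructor
  · rw [e]
    have : 0 ≤ Real.sin (th R a) - th R a * Real.cos (th R a) := by linarith
    positivity
  · rw [e2]
    have : 0 ≤ Real.sin (th R a) + (Real.pi - th R a) * Real.cos (th R a) := by linarith
    positivity

lemma gs_nn (R0 : 0 < R) (ha : a ∈ Set.Ioo (-R) R) {t : ℝ} (ht : t ∈ Set.Ioo (-R) R) :
    0 ≤ gs R a t := by
  obtain ⟨t0, t1, c, u0, _⟩ := th_facts R0 ht
  obtain ⟨c0, c1⟩ := cc_nn R0 ha
  have h1 := sxc t0.le t1.le
  have h2 := sxc (x := Real.pi - th R t) (by linarith) (by linarith)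
  rw [Real.cos_pi_sub, Real.sin_pi_sub] at h2
  unfold gs
  refine div_nonneg ?_ (sq_nonneg _)
  rcases le_total t a with h | h
  · rw [ps_le h, max_eq_right (by linarith), sub_zero]
    unfold p1
    have e : t * (cc R a * (Real.pi - th R t) / hu R t) + cc R a =
        cc R a * ((t * (Real.pi - th R t) + hu R t) / hu R t) := by
      field_simp
    rw [e]
    refine mul_nonneg c0 (div_nonneg ?_ u0.le)
    have e2 : t * (Real.pi - th R t) + hu R t =
        R * (Real.sin (th R t) - (Real.pi - th R t) * -Real.cos (th R t)) := by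
      unfold hu
      have : t * (Real.pi - th R t) = R * Real.cos (th R t) * (Real.pi - th R t) := by rw [c]
      rw [this]; ring
    rw [e2]
    exact mul_nonneg R0.le (by linarith)
  · rw [ps_ge R0 ha h, max_eq_left (by linarith)]
    unfold p2
    have e : t * (1 - (a + cc R a) * th R t / hu R t) - (t - a) + cc R a =
        (a + cc R a) * ((hu R t - t * th R t) / hu R t) := by
      field_simp
      ring
    rw [e]
    refine mul_nonneg c1 (div_nonneg ?_ u0.le)
    have e2 : hu R t - t * th R t = R * (Real.sin (th R t) - th R t * Real.cos (th R t)) := by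
      unfold hu
      have : t * th R t = R * Real.cos (th R t) * th R t := by rw [c]
      rw [this]; ring
    rw [e2]
    exact mul_nonneg R0.le (by linarith)

lemma ode (R0 : 0 < R) {t : ℝ} (ht : t ∈ Set.Ioo (-R) R) :
    max (t - a) 0 - cc R a = t * ps R a t - gs R a t * (R ^ 2 - t ^ 2) := by
  obtain ⟨_, _, _, u0, u2⟩ := th_facts R0 ht
  unfold gs
  rw [← u2]
  field_simp
  ring

lemma int_val (R0 : 0 < R) (ha : a ∈ Set.Ioo (-R) R) :
    1 / Real.pi * ∫ x in (0 : ℝ)..Real.pi, max (R * Real.cos x - a) 0 = cc R a := by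
  obtain ⟨t0, t1, c, u0, _⟩ := th_facts R0 ha
  have cont : Continuous fun x => max (R * Real.cos x - a) 0 := by fun_prop
  rw [← intervalIntegral.integral_add_adjacent_intervals (b := th R a)
    (cont.intervalIntegrable _ _) (cont.intervalIntegrable _ _)]
  have e1 : ∫ x in (0 : ℝ)..th R a, max (R * Real.cos x - a) 0 = hu R a - a * th R a := by
    have : ∫ x in (0 : ℝ)..th R a, max (R * Real.cos x - a) 0 =
        ∫ x in (0 : ℝ)..th R a, (R * Real.cos x - a) := by
      refine intervalIntegral.integral_congr fun x hx => ?_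
      rw [Set.uIcc_of_le t0.le] at hx
      refine max_eq_left ?_
      have := Real.cos_le_cos_of_nonneg_of_le_pi hx.1 t1.le hx.2
      nlinarith
    rw [this, intervalIntegral.integral_sub ((Real.continuous_cos.const_mul
      R).intervalIntegrable _ _) (continuous_const.intervalIntegrable _ _),
      intervalIntegral.integral_const_mul, integral_cos, intervalIntegral.integral_const]
    unfold hu
    simp only [Real.sin_zero, sub_zero, smul_eq_mul]
    ring
  have e2 : ∫ x in th R a..Real.pi, max (R * Real.cos x - a) 0 = 0 := by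
    have : ∫ x in th R a..Real.pi, max (R * Real.cos x - a) 0 =
        ∫ x in th R a..Real.pi, (0 : ℝ) := by
      refine intervalIntegral.integral_congr fun x hx => ?_
      rw [Set.uIcc_of_le t1.le] at hx
      refine max_eq_right ?_
      have := Real.cos_le_cos_of_nonneg_of_le_pi t0.le hx.2 hx.1
      nlinarith
    rw [this, intervalIntegral.integral_zero]
  rw [e1, e2, add_zero]
  unfold cc
  ring

end calcs

variable {d : ℕ} {S : Type*} [MeasurableSpace S] {P : Measure S} {τ : E d → S → S}

theorem core [IsProbabilityMeasure P] (hτ : ∀ x, MeasurePreserving (τ x) P P)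
    {G : S → E d → ℝ} (W : Wave P τ G) {M : ℝ} (hM : ∀ᵐ s ∂P, |G s 0| ≤ M) {R a : ℝ}
    (hR : M < R) (ha : a ∈ Set.Ioo (-R) R) : ∫ s, max (G s 0 - a) 0 ∂P ≤ cc R a := by
  obtain ⟨s0, hs0⟩ := hM.exists
  have M0 : 0 ≤ M := (abs_nonneg _).trans hs0
  have R0 : 0 < R := M0.trans_lt hR
  obtain ⟨k, hk⟩ : ∃ k : ℝ → ℝ, k = fun t => max (-M) (min t M) := ⟨_, rfl⟩
  have kc : Continuous k := by rw [hk]; fun_prop
  have km : ∀ t, k t ∈ Set.Ioo (-R) R := fun t => by
    rw [hk]
    exact ⟨lt_of_lt_of_le (by linarith) (le_max_left _ _),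
      max_lt (by linarith) ((min_le_right _ _).trans_lt hR)⟩
  have ki : ∀ t, |t| ≤ M → k t = t := fun t ht => by
    rw [hk]
    have := abs_le.1 ht
    show max (-M) (min t M) = t
    rw [min_eq_left this.2, max_eq_right this.1]
  have gc : Continuous fun t => gs R a (k t) := (gs_c R0 ha).comp_continuous kc km
  have pc : Continuous fun t => ps R a (k t) := (ps_c R0 ha).comp_continuous kc km
  have st := stein hτ W hM gc
  have ft : ∀ x, |x| ≤ M → Pr (fun t => gs R a (k t)) x = ps R a x - ps R a 0 := by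
    intro x hx
    have sub : ∀ t ∈ Set.uIcc 0 x, |t| ≤ M := by
      intro t ht
      have h5 := abs_le.1 hx
      rcases le_total 0 x with h | h
      · rw [Set.uIcc_of_le h] at ht
        exact abs_le.2 ⟨by linarith [ht.1], by linarith [ht.2]⟩
      · rw [Set.uIcc_of_ge h] at ht
        exact abs_le.2 ⟨by linarith [ht.1], by linarith [ht.2]⟩
    have sub2 : ∀ t, |t| ≤ M → t ∈ Set.Ioo (-R) R := fun t ht => by
      have := abs_le.1 ht
      exact ⟨by linarith [this.1], by linarith [this.2]⟩
    unfold Pr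
    refine MeasureTheory.integral_eq_of_hasDerivAt_off_countable (ps R a)
      (fun t => gs R a (k t)) (s := {a}) (Set.countable_singleton a) ?_ ?_
      (gc.intervalIntegrable _ _)
    · exact (ps_c R0 ha).mono fun t ht => sub2 t (sub t ht)
    · intro t ht
      have h1 : t ∈ Set.uIcc 0 x := Set.Ioo_subset_Icc_self ht.1
      have h2 := sub t h1
      rw [ki t h2]
      exact ps_der R0 ha (sub2 t h2) fun h => ht.2 h
  have iG : Integrable (fun s => G s 0) P := l2_l1 W.m0 W.l2
  have W1 := fun i => W.der hτ i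
  have iΓ : Integrable (fun s => ∑ i, D i (G s) 0 ^ 2) P :=
    integrable_finsetSum _ fun i _ => (W1 i).l2
  have ib : ∀ {f : S → ℝ} {h : ℝ → ℝ}, Continuous h → Integrable f P →
      Integrable (fun s => h (G s 0) * f s) P := by
    intro f h ck hf
    obtain ⟨B, hB⟩ := isCompact_Icc.exists_bound_of_continuousOn (s := Set.Icc (-M) M)
      ck.continuousOn
    exact hf.bdd_mul (ck.measurable.comp (W.sf.meas 0)).aestronglyMeasurable
      (hM.mono fun s hs => hB _ (abs_le.1 hs))
  have i1 : Integrable (fun s => ps R a (k (G s 0)) * G s 0) P := ib pc iG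
  have i2 : Integrable (fun s => gs R a (k (G s 0)) * ∑ i, D i (G s) 0 ^ 2) P := ib gc iΓ
  have i3 : Integrable (fun s => max (G s 0 - a) 0) P :=
    (iG.sub (integrable_const a)).sup (integrable_const 0)
  have pt : ∀ᵐ s ∂P, max (G s 0 - a) 0 - cc R a ≤
      ps R a (k (G s 0)) * G s 0 - gs R a (k (G s 0)) * ∑ i, D i (G s) 0 ^ 2 := by
    filter_upwards [hM, grad hτ W hM] with s h1 h2
    have h3 : G s 0 ∈ Set.Ioo (-R) R := by
      have := abs_le.1 h1
      exact ⟨by linarith [this.1], by linarith [this.2]⟩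
    rw [ode R0 h3, ki _ h1]
    have h4 := gs_nn R0 ha h3
    have h5 : ∑ i, D i (G s) 0 ^ 2 ≤ R ^ 2 - G s 0 ^ 2 := by nlinarith
    nlinarith [mul_le_mul_of_nonneg_left h5 h4]
  have e1 : ∫ s, (ps R a (k (G s 0)) * G s 0 -
      gs R a (k (G s 0)) * ∑ i, D i (G s) 0 ^ 2) ∂P = 0 := by
    rw [integral_sub i1 i2, ← st]
    have e2 : ∫ s, Pr (fun t => gs R a (k t)) (G s 0) * G s 0 ∂P =
        ∫ s, (ps R a (k (G s 0)) * G s 0 - ps R a 0 * G s 0) ∂P := by
      refine integral_congr_ae ?_
      filter_upwards [hM] with s hs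
      rw [ft _ hs, ki _ hs]
      ring
    rw [e2, integral_sub i1 (iG.const_mul _), integral_const_mul, W.mean hτ]
    ring
  have h : ∫ s, (max (G s 0 - a) 0 - cc R a) ∂P ≤ ∫ s, (ps R a (k (G s 0)) * G s 0 -
      gs R a (k (G s 0)) * ∑ i, D i (G s) 0 ^ 2) ∂P :=
    integral_mono_ae (i3.sub (integrable_const (cc R a))) (i1.sub i2) pt
  rw [e1] at h
  have e3 : ∫ s, (max (G s 0 - a) 0 - cc R a) ∂P = (∫ s, max (G s 0 - a) 0 ∂P) - cc R a := by
    rw [integral_sub i3 (integrable_const _), integral_const]; simp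
  have h' : ∫ s, (max (G s 0 - a) 0 - cc R a) ∂P ≤ 0 := h
  rw [e3] at h'
  linarith

/-- **Bounded stationary waves are dominated by the arcsine law.** -/
theorem arcsine [IsProbabilityMeasure P] (hτ : ∀ x, MeasurePreserving (τ x) P P)
    {G : S → E d → ℝ} (W : Wave P τ G) {M : ℝ} (hM : ∀ᵐ s ∂P, |G s 0| ≤ M) (a : ℝ) :
    ∫ s, max (G s 0 - a) 0 ∂P ≤
      1 / Real.pi * ∫ x in (0 : ℝ)..Real.pi, max (M * Real.cos x - a) 0 := by
  obtain ⟨s0, hs0⟩ := hM.exists
  have M0 : 0 ≤ M := (abs_nonneg _).trans hs0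
  have pp := Real.pi_pos
  have iG : Integrable (fun s => G s 0) P := l2_l1 W.m0 W.l2
  have cont : ∀ R : ℝ, Continuous fun x => max (R * Real.cos x - a) 0 := fun R => by fun_prop
  have key : ∀ R, M < R → ∫ s, max (G s 0 - a) 0 ∂P ≤
      1 / Real.pi * ∫ x in (0 : ℝ)..Real.pi, max (R * Real.cos x - a) 0 := by
    intro R hR
    have R0 : 0 < R := M0.trans_lt hR
    by_cases h1 : R ≤ a
    · have e : ∫ s, max (G s 0 - a) 0 ∂P = 0 := by
        refine integral_eq_zero_of_ae ?_
        filter_upwards [hM] with s hs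
        exact max_eq_right (by linarith [(abs_le.1 hs).2])
      rw [e]
      have : 0 ≤ ∫ x in (0 : ℝ)..Real.pi, max (R * Real.cos x - a) 0 :=
        intervalIntegral.integral_nonneg pp.le fun x _ => le_max_right _ _
      positivity
    · by_cases h2 : a ≤ -R
      · have e : ∫ s, max (G s 0 - a) 0 ∂P = -a := by
          have : ∫ s, max (G s 0 - a) 0 ∂P = ∫ s, (G s 0 - a) ∂P := by
            refine integral_congr_ae ?_
            filter_upwards [hM] with s hs
            exact max_eq_left (by linarith [(abs_le.1 hs).1])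
          rw [this, integral_sub iG (integrable_const a), W.mean hτ, integral_const]
          simp
        have e2 : ∫ x in (0 : ℝ)..Real.pi, max (R * Real.cos x - a) 0 = Real.pi * -a := by
          have : ∫ x in (0 : ℝ)..Real.pi, max (R * Real.cos x - a) 0 =
              ∫ x in (0 : ℝ)..Real.pi, (R * Real.cos x - a) := by
            refine intervalIntegral.integral_congr fun x _ => ?_
            refine max_eq_left ?_
            have := Real.neg_one_le_cos x
            nlinarith
          rw [this, intervalIntegral.integral_sub ((Real.continuous_cos.const_mul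
            R).intervalIntegrable _ _) (continuous_const.intervalIntegrable _ _),
            intervalIntegral.integral_const_mul, integral_cos, intervalIntegral.integral_const]
          simp
        rw [e, e2]
        refine le_of_eq ?_
        field_simp
      · push Not at h1 h2
        have ha : a ∈ Set.Ioo (-R) R := ⟨h2, h1⟩
        rw [int_val R0 ha]
        exact core hτ W hM hR ha
  have key2 : ∀ R, M < R → ∫ s, max (G s 0 - a) 0 ∂P ≤
      1 / Real.pi * (∫ x in (0 : ℝ)..Real.pi, max (M * Real.cos x - a) 0) + (R - M) := by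
    intro R hR
    refine (key R hR).trans ?_
    have h1 : ∫ x in (0 : ℝ)..Real.pi, max (R * Real.cos x - a) 0 ≤
        ∫ x in (0 : ℝ)..Real.pi, (max (M * Real.cos x - a) 0 + (R - M)) := by
      refine intervalIntegral.integral_mono_on pp.le ((cont R).intervalIntegrable _ _)
        (((cont M).add continuous_const).intervalIntegrable _ _) fun x _ => ?_
      have h3 := Real.cos_le_one x
      have h4 := le_max_left (M * Real.cos x - a) 0
      have h5 := le_max_right (M * Real.cos x - a) 0
      refine max_le ?_ (by linarith)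
      nlinarith
    rw [intervalIntegral.integral_add ((cont M).intervalIntegrable _ _)
      (continuous_const.intervalIntegrable _ _), intervalIntegral.integral_const] at h1
    simp only [sub_zero, smul_eq_mul] at h1
    calc 1 / Real.pi * ∫ x in (0 : ℝ)..Real.pi, max (R * Real.cos x - a) 0 ≤
        1 / Real.pi * ((∫ x in (0 : ℝ)..Real.pi, max (M * Real.cos x - a) 0) +
          Real.pi * (R - M)) := mul_le_mul_of_nonneg_left h1 (by positivity)
      _ = _ := by field_simp
  have lim : Tendsto (fun R : ℝ => 1 / Real.pi *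
      (∫ x in (0 : ℝ)..Real.pi, max (M * Real.cos x - a) 0) + (R - M)) (𝓝[>] M)
      (𝓝 (1 / Real.pi * (∫ x in (0 : ℝ)..Real.pi, max (M * Real.cos x - a) 0) + (M - M))) := by
    have : Continuous fun R : ℝ => 1 / Real.pi *
      (∫ x in (0 : ℝ)..Real.pi, max (M * Real.cos x - a) 0) + (R - M) := by fun_prop
    exact this.continuousAt.tendsto.mono_left nhdsWithin_le_nhds
  rw [sub_self, add_zero] at lim
  refine ge_of_tendsto lim ?_
  filter_upwards [self_mem_nhdsWithin] with R hR using key2 R hR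

/-- the variance of a bounded wave -/
theorem half [IsProbabilityMeasure P] (hτ : ∀ x, MeasurePreserving (τ x) P P)
    {G : S → E d → ℝ} (W : Wave P τ G) {M : ℝ} (hM : ∀ᵐ s ∂P, |G s 0| ≤ M) :
    ∫ s, G s 0 ^ 2 ∂P ≤ M ^ 2 / 2 := by
  have W1 := fun i => W.der hτ i
  have iΓ : Integrable (fun s => ∑ i, D i (G s) 0 ^ 2) P :=
    integrable_finsetSum _ fun i _ => (W1 i).l2
  have h := integral_mono_ae (W.l2.add iΓ) (integrable_const (M ^ 2)) (grad hτ W hM)
  have e : ∫ s, (G s 0 ^ 2 + ∑ i, D i (G s) 0 ^ 2) ∂P = 2 * ∫ s, G s 0 ^ 2 ∂P := by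
    rw [integral_add W.l2 iΓ, integral_finsetSum _ fun i _ => (W1 i).l2, W.energy hτ]
    ring
  have h' : ∫ s, (G s 0 ^ 2 + ∑ i, D i (G s) 0 ^ 2) ∂P ≤ ∫ _, M ^ 2 ∂P := h
  rw [e, integral_const] at h'
  simp only [probReal_univ, smul_eq_mul, one_mul] at h'
  linarith

end

end Pool.Agent.X127.SW
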