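import Pool.Agent.X127.SW.Mxi
import Pool.Agent.X127.PB.Gr2

/-! # The maximal inequality on large cubes -/

set_option autoImplicit false
open MeasureTheory Filter Topology
open scoped ContDiff ENNReal

namespace Pool.Agent.X127.SW

open Pool.Agent.Y139.SW

noncomputable section

variable {d : ℕ} {S : Type*} [MeasurableSpace S] {P : Measure S} {τ : E d → S → S}

/-- the centres of the small cubes -/
def zc (r : ℝ) (n : ℕ) (j : Fin d → Fin n) : E d :=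
  WithLp.toLp 2 fun i => (2 * ((j i : ℕ) : ℝ) + 1 - n) * r

lemma near {r : ℝ} (hr : 0 < r) {n : ℕ} (hn : 0 < n) {t : ℝ} (ht : |t| ≤ n * r) :
    ∃ j : Fin n, |t - (2 * ((j : ℕ) : ℝ) + 1 - n) * r| ≤ r := by
  obtain ⟨a, ha⟩ : ∃ a : ℝ, a = (t / r + n) / 2 := ⟨_, rfl⟩
  have b1 := (abs_le.1 ht).1
  have b2 := (abs_le.1 ht).2
  have c1 : -(n : ℝ) ≤ t / r := by rw [le_div_iff₀ hr]; linarith
  have c2 : t / r ≤ n := by rw [div_le_iff₀ hr]; linarith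
  have a0 : 0 ≤ a := by rw [ha]; linarith
  have a1 : a ≤ n := by rw [ha]; linarith
  have et : t = (2 * a - n) * r := by
    rw [ha]
    field_simp
    ring
  have main : ∀ k : ℕ, k < n → (k : ℝ) ≤ a → a ≤ k + 1 →
      ∃ j : Fin n, |t - (2 * ((j : ℕ) : ℝ) + 1 - n) * r| ≤ r := by
    intro k hk h1 h2
    refine ⟨⟨k, hk⟩, ?_⟩
    have e : t - (2 * (((⟨k, hk⟩ : Fin n) : ℕ) : ℝ) + 1 - n) * r = (2 * (a - k) - 1) * r := by
      rw [et]
      show (2 * a - n) * r - (2 * (k : ℝ) + 1 - n) * r = _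
      ring
    rw [e, abs_mul, abs_of_pos hr]
    have : |2 * (a - k) - 1| ≤ 1 := abs_le.2 ⟨by linarith, by linarith⟩
    calc |2 * (a - k) - 1| * r ≤ 1 * r := by gcongr
      _ = r := one_mul r
  rcases lt_or_ge ⌊a⌋₊ n with h | h
  · exact main _ h (Nat.floor_le a0) (Nat.lt_floor_add_one a).le
  · have h1 : (n : ℝ) ≤ a := le_trans (by exact_mod_cast h) (Nat.floor_le a0)
    have h2 : ((n - 1 : ℕ) : ℝ) = n - 1 := by
      rw [Nat.cast_sub hn, Nat.cast_one]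
    exact main (n - 1) (by omega) (by rw [h2]; linarith) (by rw [h2]; linarith)

/-- **the maximal inequality on large cubes** -/
theorem maxbig [IsProbabilityMeasure P] (hτ : ∀ x, MeasurePreserving (τ x) P P) {r : ℝ}
    (hr : 0 < r) {n : ℕ} (hn : 0 < n) {Φ : ℝ → ℝ} (cΦ : ConvexOn ℝ Set.univ Φ)
    (eΦ : ∀ x, Φ (-x) = Φ x) (Φ0 : ∀ x, 0 ≤ Φ x) {G : S → E d → ℝ} (W : Wave P τ G) :
    ∫⁻ s, ENNReal.ofReal (Φ (sSup ((fun y => |G s y|) '' {y : E d | ∀ i, |y i| ≤ n * r}) /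
      (1 + 2 * r) ^ d)) ∂P ≤ (n : ℝ≥0∞) ^ d * ∫⁻ s, ENNReal.ofReal (Φ (G s 0)) ∂P := by
  have cc := conv_cont cΦ
  obtain ⟨L, hL⟩ : ∃ L : List (E d),
    L = (List.finRange d).map fun i => EuclideanSpace.single i (1 : ℝ) := ⟨_, rfl⟩
  have hLu : ∀ v ∈ L, ‖v‖ = 1 := by
    intro v hv
    rw [hL] at hv
    obtain ⟨i, _, rfl⟩ := List.mem_map.1 hv
    simp
  have hLl : L.length = d := by rw [hL, List.length_map, List.length_finRange]
  obtain ⟨Nj, hN⟩ : ∃ Nj : (Fin d → Fin n) → S → ℝ,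
    Nj = fun j s => Nf r L fun y => G s (y + zc r n j) := ⟨_, rfl⟩
  have nej : Nonempty (Fin n) := ⟨⟨0, hn⟩⟩
  have mN : ∀ j, Measurable (Nj j) := fun j => by
    rw [hN]; exact Nf_meas hτ r L (wshift hτ W _)
  have law : ∀ j, ∫⁻ s, ENNReal.ofReal (Φ (Nj j s / (1 + 2 * r) ^ d)) ∂P ≤
      ∫⁻ s, ENNReal.ofReal (Φ (G s 0)) ∂P := by
    intro j
    have h := Nf_law hτ hr cΦ eΦ Φ0 L hLu (wshift hτ W (zc r n j))
    rw [hLl] at h
    rw [hN]
    refine h.trans (le_of_eq ?_)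
    exact st_l hτ W (0 + zc r n j) cc
  have pt : ∀ s, ∀ y : E d, (∀ i, |y i| ≤ n * r) → ∃ j, |G s y| ≤ Nj j s := by
    intro s y hy
    choose j hj using fun i => near hr hn (hy i)
    refine ⟨j, ?_⟩
    have h1 : ∀ i, |(y - zc r n j) i| ≤ r := fun i => by
      rw [PiLp.sub_apply]
      exact hj i
    have h2 := Nf_pt hr L (g := fun y => G s (y + zc r n j)) (sh_sm (W.sf.smooth s) _)
      (y - zc r n j) (by rw [hL]; exact cube_reach h1)
    rw [hN]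
    simp only [sub_add_cancel] at h2
    exact h2
  have C0 : (0 : ℝ) < (1 + 2 * r) ^ d := by positivity
  have n0 : (0 : ℝ) ≤ n * r := by positivity
  have pt2 : ∀ s, ENNReal.ofReal (Φ (sSup ((fun y => |G s y|) ''
      {y : E d | ∀ i, |y i| ≤ n * r}) / (1 + 2 * r) ^ d)) ≤
      ∑ j, ENNReal.ofReal (Φ (Nj j s / (1 + 2 * r) ^ d)) := by
    intro s
    obtain ⟨j0, -, hj0⟩ := Finset.exists_max_image Finset.univ (fun j => Nj j s)
      Finset.univ_nonempty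
    have ne : ((fun y => |G s y|) '' {y : E d | ∀ i, |y i| ≤ n * r}).Nonempty :=
      ⟨_, 0, fun i => by simpa using n0, rfl⟩
    have up : sSup ((fun y => |G s y|) '' {y : E d | ∀ i, |y i| ≤ n * r}) ≤ Nj j0 s := by
      refine csSup_le ne ?_
      rintro _ ⟨y, hy, rfl⟩
      obtain ⟨j, hj⟩ := pt s y hy
      exact hj.trans (hj0 j (Finset.mem_univ j))
    have lo : 0 ≤ sSup ((fun y => |G s y|) '' {y : E d | ∀ i, |y i| ≤ n * r}) :=
      Real.sSup_nonneg (by rintro _ ⟨y, _, rfl⟩; exact abs_nonneg _)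
    have h1 : Φ (sSup ((fun y => |G s y|) '' {y : E d | ∀ i, |y i| ≤ n * r}) /
        (1 + 2 * r) ^ d) ≤ Φ (Nj j0 s / (1 + 2 * r) ^ d) := by
      refine Pool.Agent.X127.PB.even_mono cΦ eΦ ?_
      rw [abs_of_nonneg (by positivity), abs_of_nonneg (div_nonneg (lo.trans up) C0.le)]
      gcongr
    refine (ENNReal.ofReal_le_ofReal h1).trans ?_
    exact Finset.single_le_sum (f := fun j => ENNReal.ofReal (Φ (Nj j s / (1 + 2 * r) ^ d)))
      (fun _ _ => bot_le) (Finset.mem_univ j0)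
  calc ∫⁻ s, ENNReal.ofReal (Φ (sSup ((fun y => |G s y|) '' {y : E d | ∀ i, |y i| ≤ n * r}) /
        (1 + 2 * r) ^ d)) ∂P ≤
      ∫⁻ s, ∑ j, ENNReal.ofReal (Φ (Nj j s / (1 + 2 * r) ^ d)) ∂P := lintegral_mono pt2
    _ = ∑ j, ∫⁻ s, ENNReal.ofReal (Φ (Nj j s / (1 + 2 * r) ^ d)) ∂P :=
        lintegral_finsetSum _ fun j _ =>
          (cc.measurable.comp ((mN j).div_const _)).ennreal_ofReal
    _ ≤ ∑ _j : Fin d → Fin n, ∫⁻ s, ENNReal.ofReal (Φ (G s 0)) ∂P :=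
        Finset.sum_le_sum fun j _ => law j
    _ = (n : ℝ≥0∞) ^ d * ∫⁻ s, ENNReal.ofReal (Φ (G s 0)) ∂P := by
        rw [Finset.sum_const, Finset.card_univ, Fintype.card_fun, Fintype.card_fin,
          Fintype.card_fin, nsmul_eq_mul]
        push_cast
        rfl

/-- a measurable majorant on large cubes -/
lemma dom [IsProbabilityMeasure P] (hτ : ∀ x, MeasurePreserving (τ x) P P) {r : ℝ}
    (hr : 0 < r) {n : ℕ} (hn : 0 < n) {Φ : ℝ → ℝ} (cΦ : ConvexOn ℝ Set.univ Φ)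
    (eΦ : ∀ x, Φ (-x) = Φ x) (Φ0 : ∀ x, 0 ≤ Φ x) {G : S → E d → ℝ} (W : Wave P τ G) :
    ∃ Y : S → ℝ≥0∞, Measurable Y ∧ (∀ s, ∀ y : E d, (∀ i, |y i| ≤ n * r) →
      ENNReal.ofReal (Φ (G s y / (1 + 2 * r) ^ d)) ≤ Y s) ∧
      ∫⁻ s, Y s ∂P ≤ (n : ℝ≥0∞) ^ d * ∫⁻ s, ENNReal.ofReal (Φ (G s 0)) ∂P := by
  have cc := conv_cont cΦ
  obtain ⟨L, hL⟩ : ∃ L : List (E d),
    L = (List.finRange d).map fun i => EuclideanSpace.single i (1 : ℝ) := ⟨_, rfl⟩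
  have hLu : ∀ v ∈ L, ‖v‖ = 1 := by
    intro v hv
    rw [hL] at hv
    obtain ⟨i, _, rfl⟩ := List.mem_map.1 hv
    simp
  have hLl : L.length = d := by rw [hL, List.length_map, List.length_finRange]
  obtain ⟨Nj, hN⟩ : ∃ Nj : (Fin d → Fin n) → S → ℝ,
    Nj = fun j s => Nf r L fun y => G s (y + zc r n j) := ⟨_, rfl⟩
  have mN : ∀ j, Measurable (Nj j) := fun j => by
    rw [hN]; exact Nf_meas hτ r L (wshift hτ W _)
  have mY : ∀ j, Measurable fun s => ENNReal.ofReal (Φ (Nj j s / (1 + 2 * r) ^ d)) := fun j =>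
    (cc.measurable.comp ((mN j).div_const _)).ennreal_ofReal
  have law : ∀ j, ∫⁻ s, ENNReal.ofReal (Φ (Nj j s / (1 + 2 * r) ^ d)) ∂P ≤
      ∫⁻ s, ENNReal.ofReal (Φ (G s 0)) ∂P := by
    intro j
    have h := Nf_law hτ hr cΦ eΦ Φ0 L hLu (wshift hτ W (zc r n j))
    rw [hLl] at h
    rw [hN]
    refine h.trans (le_of_eq ?_)
    exact st_l hτ W (0 + zc r n j) cc
  have C0 : (0 : ℝ) < (1 + 2 * r) ^ d := by positivity
  refine ⟨fun s => ∑ j, ENNReal.ofReal (Φ (Nj j s / (1 + 2 * r) ^ d)),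
    Finset.measurable_fun_sum _ fun j _ => mY j, fun s y hy => ?_, ?_⟩
  · choose j hj using fun i => near hr hn (hy i)
    have h1 : ∀ i, |(y - zc r n j) i| ≤ r := fun i => by
      rw [PiLp.sub_apply]
      exact hj i
    have h2 := Nf_pt hr L (g := fun y => G s (y + zc r n j)) (sh_sm (W.sf.smooth s) _)
      (y - zc r n j) (by rw [hL]; exact cube_reach h1)
    simp only [sub_add_cancel] at h2
    have h3 : |G s y| ≤ Nj j s := by rw [hN]; exact h2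
    have h4 : Φ (G s y / (1 + 2 * r) ^ d) ≤ Φ (Nj j s / (1 + 2 * r) ^ d) := by
      refine Pool.Agent.X127.PB.even_mono cΦ eΦ ?_
      rw [abs_div, abs_div, abs_of_pos C0]
      have : |G s y| ≤ |Nj j s| := h3.trans (le_abs_self _)
      gcongr
    refine (ENNReal.ofReal_le_ofReal h4).trans ?_
    exact Finset.single_le_sum (f := fun j => ENNReal.ofReal (Φ (Nj j s / (1 + 2 * r) ^ d)))
      (fun _ _ => bot_le) (Finset.mem_univ j)
  · calc ∫⁻ s, ∑ j, ENNReal.ofReal (Φ (Nj j s / (1 + 2 * r) ^ d)) ∂P =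
        ∑ j, ∫⁻ s, ENNReal.ofReal (Φ (Nj j s / (1 + 2 * r) ^ d)) ∂P :=
          lintegral_finsetSum _ fun j _ => mY j
      _ ≤ ∑ _j : Fin d → Fin n, ∫⁻ s, ENNReal.ofReal (Φ (G s 0)) ∂P :=
          Finset.sum_le_sum fun j _ => law j
      _ = (n : ℝ≥0∞) ^ d * ∫⁻ s, ENNReal.ofReal (Φ (G s 0)) ∂P := by
          rw [Finset.sum_const, Finset.card_univ, Fintype.card_fun, Fintype.card_fin,
            Fintype.card_fin, nsmul_eq_mul]
          push_cast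
          rfl

/-- **growth of the samples** -/
theorem growth [IsProbabilityMeasure P] (hτ : ∀ x, MeasurePreserving (τ x) P P)
    {G : S → E d → ℝ} (W : Wave P τ G) :
    ∀ᵐ s ∂P, ∃ C : ℝ, ∀ y : E d, G s y ^ 2 ≤ C * (1 + ‖y‖) ^ (d + 1) := by
  have cq : ConvexOn ℝ Set.univ fun x : ℝ => x ^ 2 := (Even.convexOn_pow (by decide))
  have D := fun k : ℕ => dom hτ (r := 1) one_pos (n := 2 ^ k) (by positivity) cq
    (fun x => neg_sq x) (fun x => sq_nonneg x) W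
  choose Y mY hY iY using D
  obtain ⟨E2, hE⟩ : ∃ E2 : ℝ≥0∞, E2 = ∫⁻ s, ENNReal.ofReal (G s 0 ^ 2) ∂P := ⟨_, rfl⟩
  have E2f : E2 ≠ ⊤ := by
    rw [hE]
    exact W.l2.lintegral_lt_top.ne
  obtain ⟨c, hc⟩ : ∃ c : ℕ → ℝ≥0∞, c = fun k => ((2 : ℝ≥0∞)⁻¹) ^ (k * (d + 1)) := ⟨_, rfl⟩
  have two_inv : (2 : ℝ≥0∞)⁻¹ * 2 = 1 := ENNReal.inv_mul_cancel (by simp) (by simp)
  have ck : ∀ k, c k * 2 ^ (k * (d + 1)) = 1 := fun k => by
    rw [hc]
    show ((2 : ℝ≥0∞)⁻¹) ^ (k * (d + 1)) * 2 ^ (k * (d + 1)) = 1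
    rw [← mul_pow, two_inv, one_pow]
  have ck2 : ∀ k, c k * (((2 ^ k : ℕ) : ℝ≥0∞) ^ d * E2) = ((2 : ℝ≥0∞)⁻¹) ^ k * E2 := fun k => by
    rw [hc]
    show ((2 : ℝ≥0∞)⁻¹) ^ (k * (d + 1)) * (((2 ^ k : ℕ) : ℝ≥0∞) ^ d * E2) = _
    rw [← mul_assoc]
    congr 1
    push_cast
    rw [← pow_mul, show k * (d + 1) = k * d + k by ring, pow_add,
      mul_right_comm, ← mul_pow, two_inv, one_pow, one_mul]
  obtain ⟨K, hK⟩ : ∃ K : S → ℝ≥0∞, K = fun s => ∑' k, c k * Y k s := ⟨_, rfl⟩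
  have mc : ∀ k, Measurable fun s => c k * Y k s := fun k => (mY k).const_mul _
  have iK : ∫⁻ s, K s ∂P ≠ ⊤ := by
    have h1 : ∫⁻ s, K s ∂P ≤ ∑' k, ((2 : ℝ≥0∞)⁻¹) ^ k * E2 := by
      rw [hK]
      show ∫⁻ s, ∑' k, c k * Y k s ∂P ≤ _
      rw [lintegral_tsum fun k => (mc k).aemeasurable]
      refine ENNReal.tsum_le_tsum fun k => ?_
      rw [lintegral_const_mul _ (mY k), ← ck2 k]
      refine mul_le_mul' le_rfl ?_
      have := iY k
      rw [hE]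
      exact this
    refine ne_top_of_le_ne_top ?_ h1
    rw [ENNReal.tsum_mul_right, ENNReal.tsum_geometric, ENNReal.one_sub_inv_two, inv_inv]
    exact ENNReal.mul_ne_top (by simp) E2f
  have mK : Measurable K := by rw [hK]; exact Measurable.ennreal_tsum mc
  filter_upwards [ae_lt_top mK iK] with s hs
  refine ⟨(3 ^ d) ^ 2 * (K s).toReal * 2 ^ (d + 1), fun y => ?_⟩
  have x1 : (1 : ℝ) ≤ 1 + ‖y‖ := by linarith [norm_nonneg y]
  obtain ⟨k, k1, k2⟩ := exists_nat_pow_near x1 (one_lt_two)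
  have hcube : ∀ i, |y i| ≤ ((2 ^ (k + 1) : ℕ) : ℝ) * 1 := by
    intro i
    have h1 : |y i| ≤ ‖y‖ := by
      have := EuclideanSpace.norm_sq_eq y
      have h2 : |y i| ^ 2 ≤ ‖y‖ ^ 2 := by
        rw [this]
        have := Finset.single_le_sum (f := fun i => ‖y i‖ ^ 2) (fun j _ => sq_nonneg _)
          (Finset.mem_univ i)
        exact this
      exact (sq_le_sq₀ (abs_nonneg _) (norm_nonneg _)).1 h2
    push_cast
    linarith
  have h1 := hY (k + 1) s y hcube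
  have h2 : c (k + 1) * Y (k + 1) s ≤ K s := by
    rw [hK]
    exact ENNReal.le_tsum (f := fun k => c k * Y k s) (k + 1)
  have h3 : Y (k + 1) s ≤ K s * 2 ^ ((k + 1) * (d + 1)) := by
    calc Y (k + 1) s = c (k + 1) * 2 ^ ((k + 1) * (d + 1)) * Y (k + 1) s := by
          rw [ck, one_mul]
      _ = c (k + 1) * Y (k + 1) s * 2 ^ ((k + 1) * (d + 1)) := by ring
      _ ≤ _ := mul_le_mul' h2 le_rfl
  have h4 : (G s y / (1 + 2 * 1) ^ d) ^ 2 ≤ (K s).toReal * 2 ^ ((k + 1) * (d + 1)) := by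
    have h5 := h1.trans h3
    have h6 : K s * 2 ^ ((k + 1) * (d + 1)) ≠ ⊤ := ENNReal.mul_ne_top hs.ne (by simp)
    rw [ENNReal.ofReal_le_iff_le_toReal h6, ENNReal.toReal_mul, ENNReal.toReal_pow] at h5
    simpa using h5
  have h7 : (2 : ℝ) ^ ((k + 1) * (d + 1)) ≤ 2 ^ (d + 1) * (1 + ‖y‖) ^ (d + 1) := by
    rw [pow_mul, pow_succ (2 : ℝ) k, mul_pow, mul_comm]
    gcongr
  have t3 : (0 : ℝ) < 3 ^ d := by positivity
  have e3 : (1 + 2 * 1 : ℝ) = 3 := by norm_num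
  rw [e3, div_pow, div_le_iff₀ (by positivity)] at h4
  have k0 : 0 ≤ (K s).toReal := ENNReal.toReal_nonneg
  calc G s y ^ 2 ≤ (K s).toReal * 2 ^ ((k + 1) * (d + 1)) * (3 ^ d) ^ 2 := h4
    _ ≤ (K s).toReal * (2 ^ (d + 1) * (1 + ‖y‖) ^ (d + 1)) * (3 ^ d) ^ 2 := by gcongr
    _ = _ := by ring

end

end Pool.Agent.X127.SW
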