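import Mathlib

/-! # The Bessel function at 3.83 -/

set_option autoImplicit false
open MeasureTheory Filter Topology

namespace Pool.Agent.X127.SW

noncomputable section

lemma re_exp_sum (y : ℝ) (N : ℕ) :
    (∑ m ∈ Finset.range (2 * N), ((y : ℂ) * Complex.I) ^ m / (m.factorial : ℂ)).re =
      ∑ k ∈ Finset.range N, (-1) ^ k * y ^ (2 * k) / ((2 * k).factorial : ℝ) := by
  induction N with
  | zero => simp
  | succ N ih =>
    rw [show 2 * (N + 1) = 2 * N + 1 + 1 by ring, Finset.sum_range_succ, Finset.sum_range_succ,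
      Complex.add_re, Complex.add_re, ih, Finset.sum_range_succ]
    have e1 : ((y : ℂ) * Complex.I) ^ (2 * N) / ((2 * N).factorial : ℂ) =
        (((-1) ^ N * y ^ (2 * N) / ((2 * N).factorial : ℝ) : ℝ) : ℂ) := by
      rw [mul_pow, pow_mul Complex.I, Complex.I_sq]
      push_cast
      ring
    have e2 : ((y : ℂ) * Complex.I) ^ (2 * N + 1) / ((2 * N + 1).factorial : ℂ) =
        (((-1) ^ N * y ^ (2 * N + 1) / ((2 * N + 1).factorial : ℝ) : ℝ) : ℂ) * Complex.I := by
      rw [pow_succ, mul_pow, pow_mul Complex.I, Complex.I_sq]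
      push_cast
      ring
    rw [e1, e2, Complex.ofReal_re, Complex.re_ofReal_mul, Complex.I_re, mul_zero, add_zero]

lemma cos_poly {y : ℝ} (hy : |y| ≤ 4) :
    Real.cos y ≤ (∑ k ∈ Finset.range 10, (-1) ^ k * y ^ (2 * k) / ((2 * k).factorial : ℝ)) +
      1 / 1000000 := by
  have n1 : ‖(y : ℂ) * Complex.I‖ = |y| := by
    rw [norm_mul, Complex.norm_I, mul_one, Complex.norm_real, Real.norm_eq_abs]
  have h := Complex.exp_bound' (x := (y : ℂ) * Complex.I) (n := 20) (by
    rw [n1]
    have : ((20 : ℕ).succ : ℝ) = 21 := by norm_num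
    rw [this]
    linarith)
  rw [n1] at h
  have h2 : |y| ^ 20 / ((20 : ℕ).factorial : ℝ) * 2 ≤ 1 / 1000000 := by
    have : |y| ^ 20 ≤ 4 ^ 20 := pow_le_pow_left₀ (abs_nonneg _) hy 20
    calc |y| ^ 20 / ((20 : ℕ).factorial : ℝ) * 2 ≤ 4 ^ 20 / ((20 : ℕ).factorial : ℝ) * 2 := by
          gcongr
      _ ≤ 1 / 1000000 := by norm_num [Nat.factorial]
  have h3 := (Complex.abs_re_le_norm _).trans (h.trans h2)
  rw [Complex.sub_re, show (20 : ℕ) = 2 * 10 by norm_num, re_exp_sum,
    Complex.exp_ofReal_mul_I_re] at h3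
  have := (abs_le.1 h3).2
  linarith

/-- the average of `cos(r sin θ)` -/
theorem bessel : ∫ x in (0 : ℝ)..Real.pi, Real.cos (383 / 100 * Real.sin x) ≤
    -(2 / 5) * Real.pi := by
  have pp := Real.pi_pos
  obtain ⟨r, hr⟩ : ∃ r : ℝ, r = 383 / 100 := ⟨_, rfl⟩
  rw [← hr]
  have h1 : ∫ x in (0 : ℝ)..Real.pi, Real.cos (r * Real.sin x) ≤
      ∫ x in (0 : ℝ)..Real.pi, ((∑ k ∈ Finset.range 10, (-1) ^ k * (r * Real.sin x) ^ (2 * k) /
        ((2 * k).factorial : ℝ)) + 1 / 1000000) := by
    refine intervalIntegral.integral_mono_on pp.le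
      (Continuous.intervalIntegrable (by fun_prop) _ _)
      (Continuous.intervalIntegrable (by fun_prop) _ _) fun x _ => cos_poly ?_
    rw [abs_mul, hr, abs_of_pos (by norm_num)]
    have := Real.abs_sin_le_one x
    linarith
  have e1 : ∫ x in (0 : ℝ)..Real.pi, ((∑ k ∈ Finset.range 10,
      (-1) ^ k * (r * Real.sin x) ^ (2 * k) / ((2 * k).factorial : ℝ)) + 1 / 1000000) =
      Real.pi * ((∑ k ∈ Finset.range 10, (-1) ^ k * r ^ (2 * k) / ((2 * k).factorial : ℝ) *
        ∏ i ∈ Finset.range k, ((2 * (i : ℝ) + 1) / (2 * i + 2))) + 1 / 1000000) := by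
    rw [intervalIntegral.integral_add (Continuous.intervalIntegrable (by fun_prop) _ _)
      (Continuous.intervalIntegrable (by fun_prop) _ _), intervalIntegral.integral_const,
      intervalIntegral.integral_finsetSum fun k _ =>
        Continuous.intervalIntegrable (by fun_prop) _ _, mul_add, Finset.mul_sum]
    congr 1
    · refine Finset.sum_congr rfl fun k _ => ?_
      have e2 : ∀ x, (-1) ^ k * (r * Real.sin x) ^ (2 * k) / ((2 * k).factorial : ℝ) =
          (-1) ^ k * r ^ (2 * k) / ((2 * k).factorial : ℝ) * Real.sin x ^ (2 * k) := by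
        intro x
        rw [mul_pow]; ring
      simp only [e2]
      rw [intervalIntegral.integral_const_mul, integral_sin_pow_even]
      ring
    · simp
  rw [e1] at h1
  refine h1.trans ?_
  rw [mul_comm (-(2 / 5)) Real.pi]
  refine mul_le_mul_of_nonneg_left ?_ pp.le
  rw [hr]
  norm_num [Finset.sum_range_succ, Finset.prod_range_succ, Nat.factorial]

end

end Pool.Agent.X127.SW
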