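import Pool.Agent.X127.SW.Grad
import Pool.Agent.X127.SW.Bes

/-! # Quasi-symmetry in law of plane stationary waves -/

set_option autoImplicit false
open MeasureTheory Filter Topology ProbabilityTheory
open scoped ContDiff ENNReal

namespace Pool.Agent.X127.SW

open Pool.Agent.Y139.SW

noncomputable section

variable {d : ℕ} {S : Type*} [MeasurableSpace S] {P : Measure S} {τ : E d → S → S}

/-- Lebesgue measure on the unit interval -/
def ui : Measure ℝ := volume.restrict (Set.Ioc (0 : ℝ) 1)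

instance : IsProbabilityMeasure ui := ⟨by unfold ui; simp⟩

lemma ui_int (f : ℝ → ℝ) : ∫ t in (0 : ℝ)..1, f t = ∫ t, f t ∂ui := by
  rw [intervalIntegral.integral_of_le zero_le_one]; rfl

lemma ui_cont {f : ℝ → ℝ} (hf : Continuous f) : Integrable f ui :=
  (hf.integrableOn_Icc (a := 0) (b := 1)).mono_set Set.Ioc_subset_Icc_self

section

variable {a : ℝ → E d}

lemma path_meas (ca : Continuous a) {G : S → E d → ℝ} (h : SF τ G) :
    Measurable fun p : S × ℝ => G p.1 (a p.2) :=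
  (joint h).comp ((ca.measurable.comp measurable_snd).prodMk measurable_fst)

lemma path_sq [IsProbabilityMeasure P] (hτ : ∀ x, MeasurePreserving (τ x) P P)
    (ca : Continuous a) {G : S → E d → ℝ} (W : Wave P τ G) :
    Integrable (fun p : S × ℝ => G p.1 (a p.2) ^ 2) (P.prod ui) := by
  rw [integrable_prod_iff' ((path_meas ca W.sf).pow_const 2).aestronglyMeasurable]
  refine ⟨ae_of_all _ fun t => sqi hτ W (a t), ?_⟩
  have : (fun t => ∫ s, ‖G s (a t) ^ 2‖ ∂P) = fun _ => ∫ s, G s 0 ^ 2 ∂P := by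
    funext t
    rw [← sqe hτ W (a t)]
    congr 1; funext s
    rw [Real.norm_eq_abs, abs_of_nonneg (sq_nonneg _)]
  show Integrable (fun t => ∫ s, ‖G s (a t) ^ 2‖ ∂P) ui
  rw [this]
  exact integrable_const _

/-- exchange of expectations -/
lemma fz [IsProbabilityMeasure P] (hτ : ∀ x, MeasurePreserving (τ x) P P)
    (ca : Continuous a) {G : S → E d → ℝ} (W : Wave P τ G) {Z : S → ℝ} (mZ : Measurable Z)
    (iZ : Integrable (fun s => Z s ^ 2) P) :
    ∫ s, Z s * (∫ t, G s (a t) ∂ui) ∂P = ∫ t, (∫ s, Z s * G s (a t) ∂P) ∂ui := by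
  have i1 : Integrable (fun p : S × ℝ => Z p.1 ^ 2) (P.prod ui) := iZ.comp_fst ui
  have i2 : Integrable (fun p : S × ℝ => Z p.1 * G p.1 (a p.2)) (P.prod ui) :=
    mul_l2 (mZ.comp measurable_fst) (path_meas ca W.sf) i1 (path_sq hτ ca W)
  simp only [← integral_const_mul]
  exact integral_integral_swap i2

/-- **the mean value property in the mean square sense** -/
theorem mv [IsProbabilityMeasure P] (hτ : ∀ x, MeasurePreserving (τ x) P P)
    (ca : Continuous a) {G : S → E d → ℝ} (W : Wave P τ G) {κ : ℝ}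
    (hc : ∀ ξ : E d, ‖ξ‖ = 1 → ∫ t, Real.cos (inner ℝ ξ (a t)) ∂ui = -κ)
    (hs : ∀ ξ : E d, ‖ξ‖ = 1 → ∫ t, Real.sin (inner ℝ ξ (a t)) ∂ui = 0) :
    ∀ᵐ s ∂P, ∫ t, G s (a t) ∂ui = -(κ * G s 0) := by
  obtain ⟨σ, fσ, hσ⟩ := exists_spec hτ W
  have sph := spec_sphere hτ W hσ
  obtain ⟨X, hX⟩ : ∃ X : S → ℝ, X = fun s => ∫ t, G s (a t) ∂ui := ⟨_, rfl⟩
  have mX : Measurable X := by
    rw [hX]
    exact ((path_meas ca W.sf).stronglyMeasurable.integral_prod_right' (ν := ui)).measurable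
  have gc : ∀ s, Continuous fun t => G s (a t) := fun s => (W.sf.smooth s).continuous.comp ca
  have iX : Integrable (fun s => X s ^ 2) P := by
    have := (jt (P := P) (K := fun t s => G s (a t)) (c := ∫ s, G s 0 ^ 2 ∂P)
      (fun t => W.sf.meas _) gc (fun t _ => sqi hτ W _) (fun t _ => (sqe hτ W _).le)).1
    simp only [ui_int] at this
    rw [hX]; exact this
  -- orthogonality
  have o1 : ∀ x : E d, ∫ s, X s * G s x ∂P = -κ * cov P G x := by
    intro x
    have e1 : ∫ s, X s * G s x ∂P = ∫ s, G s x * (∫ t, G s (a t) ∂ui) ∂P := by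
      rw [hX]; congr 1; funext s; ring
    rw [e1, fz hτ ca W (W.sf.meas x) (sqi hτ W x)]
    have e2 : ∀ t, ∫ s, G s x * G s (a t) ∂P = ∫ ξ, Real.cos (inner ℝ ξ (a t - x)) ∂σ := fun t => by
      rw [cov_xy hτ W, hσ]
    simp only [e2]
    have ic : Continuous fun p : ℝ × E d => Real.cos (inner ℝ p.2 (a p.1 - x)) :=
      Real.continuous_cos.comp (continuous_snd.inner ((ca.comp continuous_fst).sub
        continuous_const))
    have i3 : Integrable (fun p : ℝ × E d => Real.cos (inner ℝ p.2 (a p.1 - x)))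
        (ui.prod σ) := by
      refine Integrable.mono' (integrable_const (1 : ℝ)) ic.aestronglyMeasurable
        (ae_of_all _ fun p => ?_)
      rw [Real.norm_eq_abs]; exact Real.abs_cos_le_one _
    rw [integral_integral_swap i3, ← hσ, ← integral_const_mul]
    refine integral_congr_ae ?_
    filter_upwards [sph] with ξ hξ
    have ci : Continuous fun t => inner ℝ ξ (a t) := continuous_const.inner ca
    have j1 : Integrable (fun t => Real.cos (inner ℝ ξ x) * Real.cos (inner ℝ ξ (a t))) ui :=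
      (ui_cont (Real.continuous_cos.comp ci)).const_mul _
    have j2 : Integrable (fun t => Real.sin (inner ℝ ξ x) * Real.sin (inner ℝ ξ (a t))) ui :=
      (ui_cont (Real.continuous_sin.comp ci)).const_mul _
    have e3 : ∀ t, Real.cos (inner ℝ ξ (a t - x)) =
        Real.cos (inner ℝ ξ x) * Real.cos (inner ℝ ξ (a t)) +
        Real.sin (inner ℝ ξ x) * Real.sin (inner ℝ ξ (a t)) := by
      intro t
      rw [inner_sub_right, Real.cos_sub]
      ring
    simp only [e3]
    rw [integral_add j1 j2, integral_const_mul, integral_const_mul, hc ξ hξ, hs ξ hξ]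
    ring
  have iXG : ∀ x, Integrable (fun s => X s * G s x) P := fun x =>
    mul_l2 mX (W.sf.meas x) iX (sqi hτ W x)
  obtain ⟨Y, hY⟩ : ∃ Y : S → ℝ, Y = fun s => X s + κ * G s 0 := ⟨_, rfl⟩
  have mY : Measurable Y := by rw [hY]; exact mX.add ((W.sf.meas 0).const_mul κ)
  have o2 : ∀ x, ∫ s, Y s * G s x ∂P = 0 := by
    intro x
    have e : ∀ s, Y s * G s x = X s * G s x + κ * (G s 0 * G s x) := fun s => by
      rw [hY]; ring
    simp only [e]
    rw [integral_add (iXG x) ((mulI hτ W W 0 x).const_mul κ), integral_const_mul, o1]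
    unfold cov
    ring
  have iY : Integrable (fun s => Y s ^ 2) P := by
    have e : ∀ s, Y s ^ 2 = X s ^ 2 + 2 * κ * (X s * G s 0) + κ ^ 2 * G s 0 ^ 2 := fun s => by
      rw [hY]; ring
    simp only [e]
    exact (iX.add ((iXG 0).const_mul _)).add (W.l2.const_mul _)
  have z : ∫ s, Y s ^ 2 ∂P = 0 := by
    have e : ∀ s, Y s ^ 2 = Y s * (∫ t, G s (a t) ∂ui) + κ * (Y s * G s 0) := fun s => by
      rw [hY, hX]; ring
    have iYX : Integrable (fun s => Y s * (∫ t, G s (a t) ∂ui)) P := by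
      have := mul_l2 mY mX iY iX
      rw [hX] at this
      exact this
    simp only [e]
    rw [integral_add iYX ((mul_l2 mY (W.sf.meas 0) iY W.l2).const_mul κ), fz hτ ca W mY iY,
      integral_const_mul, o2]
    simp only [o2]
    simp
  have h0 := (integral_eq_zero_iff_of_nonneg (fun s => sq_nonneg _) iY).1 z
  filter_upwards [h0] with s hs0
  have h1 : Y s ^ 2 = 0 := hs0
  have h2 : Y s = 0 := pow_eq_zero_iff (two_ne_zero) |>.1 h1
  rw [hY, hX] at h2
  have h3 : (∫ t, G s (a t) ∂ui) + κ * G s 0 = 0 := h2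
  linarith

/-- **domination in the convex order** -/
theorem qs [IsProbabilityMeasure P] (hτ : ∀ x, MeasurePreserving (τ x) P P)
    (ca : Continuous a) {G : S → E d → ℝ} (W : Wave P τ G) {κ : ℝ}
    (hc : ∀ ξ : E d, ‖ξ‖ = 1 → ∫ t, Real.cos (inner ℝ ξ (a t)) ∂ui = -κ)
    (hs : ∀ ξ : E d, ‖ξ‖ = 1 → ∫ t, Real.sin (inner ℝ ξ (a t)) ∂ui = 0)
    {Φ : ℝ → ℝ} (cΦ : ConvexOn ℝ Set.univ Φ) (Φ0 : ∀ x, 0 ≤ Φ x) :
    ∫⁻ s, ENNReal.ofReal (Φ (κ * G s 0)) ∂P ≤ ∫⁻ s, ENNReal.ofReal (Φ (-G s 0)) ∂P := by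
  have cc := conv_cont cΦ
  have gc : ∀ s, Continuous fun t => G s (a t) := fun s => (W.sf.smooth s).continuous.comp ca
  have pt : ∀ᵐ s ∂P, ENNReal.ofReal (Φ (κ * G s 0)) ≤
      ∫⁻ t, ENNReal.ofReal (Φ (-G s (a t))) ∂ui := by
    filter_upwards [mv hτ ca W hc hs] with s hs1
    have c1 : Continuous fun t => Φ (-G s (a t)) := cc.comp (gc s).neg
    rw [← ofReal_integral_eq_lintegral_ofReal (ui_cont c1) (ae_of_all _ fun t => Φ0 _)]
    refine ENNReal.ofReal_le_ofReal ?_
    have h := cΦ.map_integral_le (μ := ui) (f := fun t => -G s (a t)) cc.continuousOn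
      isClosed_univ (ae_of_all _ fun _ => Set.mem_univ _) (ui_cont (gc s).neg) (ui_cont c1)
    rw [integral_neg, hs1, neg_neg] at h
    exact h
  refine (lintegral_mono_ae pt).trans ?_
  have mm : Measurable (Function.uncurry fun (s : S) (t : ℝ) =>
      ENNReal.ofReal (Φ (-G s (a t)))) :=
    (cc.measurable.comp (path_meas ca W.sf).neg).ennreal_ofReal
  rw [lintegral_lintegral_swap mm.aemeasurable]
  have e : ∀ t, ∫⁻ s, ENNReal.ofReal (Φ (-G s (a t))) ∂P =
      ∫⁻ s, ENNReal.ofReal (Φ (-G s 0)) ∂P := fun t =>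
    st_lint hτ W.sf (a t) (k := fun x => ENNReal.ofReal (Φ (-x)))
      (cc.measurable.comp measurable_neg).ennreal_ofReal
  simp only [e]
  rw [lintegral_const, measure_univ, mul_one]

end

/-! ### the circle -/

/-- the circle of radius `3.83` -/
def ca (t : ℝ) : E 2 := WithLp.toLp 2 ![383 / 100 * Real.cos (2 * Real.pi * t),
  383 / 100 * Real.sin (2 * Real.pi * t)]

lemma ca_cont : Continuous ca := by
  unfold ca
  refine (PiLp.continuous_toLp 2 _).comp (continuous_pi fun i => ?_)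
  fin_cases i
  · show Continuous fun t => 383 / 100 * Real.cos (2 * Real.pi * t)
    fun_prop
  · show Continuous fun t => 383 / 100 * Real.sin (2 * Real.pi * t)
    fun_prop

lemma ca_inner {ξ : E 2} {β : ℝ} (h0 : ξ 0 = Real.cos β) (h1 : ξ 1 = Real.sin β) (t : ℝ) :
    inner ℝ ξ (ca t) = 383 / 100 * Real.sin (2 * Real.pi * t + (Real.pi / 2 - β)) := by
  have e : 2 * Real.pi * t + (Real.pi / 2 - β) = (2 * Real.pi * t - β) + Real.pi / 2 := by ring
  rw [e, Real.sin_add_pi_div_two, Real.cos_sub]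
  rw [PiLp.inner_apply, Fin.sum_univ_two]
  unfold ca
  simp only [Matrix.cons_val_zero, Matrix.cons_val_one, h0, h1]
  simp
  ring

/-- the constant -/
def kap : ℝ := -(1 / Real.pi * ∫ x in (0 : ℝ)..Real.pi, Real.cos (383 / 100 * Real.sin x))

lemma kap_ge : 2 / 5 ≤ kap := by
  unfold kap
  have h := bessel
  have pp := Real.pi_pos
  have : 1 / Real.pi * ∫ x in (0 : ℝ)..Real.pi, Real.cos (383 / 100 * Real.sin x) ≤
      1 / Real.pi * (-(2 / 5) * Real.pi) := mul_le_mul_of_nonneg_left h (by positivity)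
  have e : 1 / Real.pi * (-(2 / 5) * Real.pi) = -(2 / 5) := by field_simp
  rw [e] at this
  linarith

lemma ex_beta {ξ : E 2} (h : ‖ξ‖ = 1) : ∃ β : ℝ, ξ 0 = Real.cos β ∧ ξ 1 = Real.sin β := by
  have h1 : ξ 0 ^ 2 + ξ 1 ^ 2 = 1 := by
    have h2 : ‖ξ‖ ^ 2 = 1 := by rw [h]; norm_num
    rw [EuclideanSpace.norm_sq_eq, Fin.sum_univ_two] at h2
    simpa using h2
  obtain ⟨β, c, s⟩ := circ h1
  exact ⟨β, c.symm, s.symm⟩

lemma per_int {f : ℝ → ℝ} (cf : Continuous f) (hf : Function.Periodic f (2 * Real.pi)) (b : ℝ) :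
    ∫ t, f (2 * Real.pi * t + b) ∂ui =
      1 / (2 * Real.pi) * ((∫ x in (0 : ℝ)..Real.pi, f x) +
        ∫ x in (0 : ℝ)..Real.pi, f (x + Real.pi)) := by
  have p2 : 2 * Real.pi ≠ 0 := by have := Real.pi_pos; positivity
  rw [← ui_int fun t => f (2 * Real.pi * t + b),
    intervalIntegral.integral_comp_mul_add (fun x => f x) p2 b]
  rw [mul_zero, zero_add, mul_one, add_comm (2 * Real.pi) b, hf.intervalIntegral_add_eq b 0,
    zero_add, smul_eq_mul, ← one_div]
  congr 1
  rw [← intervalIntegral.integral_add_adjacent_intervals (a := 0) (b := Real.pi)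
    (c := 2 * Real.pi) (cf.intervalIntegrable _ _) (cf.intervalIntegrable _ _)]
  congr 1
  rw [intervalIntegral.integral_comp_add_right (fun x => f x)]
  rw [zero_add, two_mul]

lemma ca_cos (ξ : E 2) (h : ‖ξ‖ = 1) : ∫ t, Real.cos (inner ℝ ξ (ca t)) ∂ui = -kap := by
  obtain ⟨β, h0, h1⟩ := ex_beta h
  simp only [ca_inner h0 h1]
  have hf : Function.Periodic (fun x => Real.cos (383 / 100 * Real.sin x)) (2 * Real.pi) :=
    fun x => by simp only [Real.sin_add_two_pi]
  rw [per_int (f := fun x => Real.cos (383 / 100 * Real.sin x)) (by fun_prop) hf]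
  have e : ∀ x, Real.cos (383 / 100 * Real.sin (x + Real.pi)) =
      Real.cos (383 / 100 * Real.sin x) := fun x => by
    rw [Real.sin_add_pi, mul_neg, Real.cos_neg]
  simp only [e]
  unfold kap
  have := Real.pi_pos.ne'
  field_simp
  ring

lemma ca_sin (ξ : E 2) (h : ‖ξ‖ = 1) : ∫ t, Real.sin (inner ℝ ξ (ca t)) ∂ui = 0 := by
  obtain ⟨β, h0, h1⟩ := ex_beta h
  simp only [ca_inner h0 h1]
  have hf : Function.Periodic (fun x => Real.sin (383 / 100 * Real.sin x)) (2 * Real.pi) :=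
    fun x => by simp only [Real.sin_add_two_pi]
  rw [per_int (f := fun x => Real.sin (383 / 100 * Real.sin x)) (by fun_prop) hf]
  have e : ∀ x, Real.sin (383 / 100 * Real.sin (x + Real.pi)) =
      -Real.sin (383 / 100 * Real.sin x) := fun x => by
    rw [Real.sin_add_pi, mul_neg, Real.sin_neg]
  simp only [e]
  rw [intervalIntegral.integral_neg]
  ring

/-- **Quasi-symmetry in law.** -/
theorem qsym {τ : E 2 → S → S} [IsProbabilityMeasure P] (hτ : ∀ x, MeasurePreserving (τ x) P P)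
    {G : S → E 2 → ℝ} (W : Wave P τ G) {Φ : ℝ → ℝ} (cΦ : ConvexOn ℝ Set.univ Φ)
    (Φ0 : ∀ x, 0 ≤ Φ x) :
    ∫⁻ s, ENNReal.ofReal (Φ (2 / 5 * G s 0)) ∂P ≤ ∫⁻ s, ENNReal.ofReal (Φ (-G s 0)) ∂P := by
  have h := qs hτ ca_cont W ca_cos ca_sin cΦ Φ0
  have cc := conv_cont cΦ
  have kg := kap_ge
  have k0 : 0 < kap := by linarith
  obtain ⟨A, hA⟩ : ∃ A, A = ∫⁻ s, ENNReal.ofReal (Φ (-G s 0)) ∂P := ⟨_, rfl⟩
  rw [← hA] at h ⊢
  obtain ⟨l, hl⟩ : ∃ l, l = 2 / 5 / kap := ⟨_, rfl⟩
  have l0 : 0 ≤ l := by rw [hl]; positivity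
  have l1 : l ≤ 1 := by rw [hl, div_le_one k0]; exact kg
  have lk : l * kap = 2 / 5 := by rw [hl]; field_simp
  -- Jensen at zero
  have z : ENNReal.ofReal (Φ 0) ≤ A := by
    by_cases hA2 : A = ⊤
    · rw [hA2]; exact le_top
    have mm : Measurable fun s => Φ (-G s 0) := cc.measurable.comp (W.sf.meas 0).neg
    have iΦ : Integrable (fun s => Φ (-G s 0)) P := by
      refine (lintegral_ofReal_ne_top_iff_integrable mm.aestronglyMeasurable
        (ae_of_all _ fun s => Φ0 _)).1 ?_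
      rw [← hA]; exact hA2
    have iG : Integrable (fun s => G s 0) P := l2_l1 W.m0 W.l2
    have j := cΦ.map_integral_le (μ := P) (f := fun s => -G s 0) cc.continuousOn
      isClosed_univ (ae_of_all _ fun _ => Set.mem_univ _) iG.neg iΦ
    rw [integral_neg, W.mean hτ, neg_zero] at j
    rw [hA, ← ofReal_integral_eq_lintegral_ofReal iΦ (ae_of_all _ fun s => Φ0 _)]
    exact ENNReal.ofReal_le_ofReal j
  have pt : ∀ s, ENNReal.ofReal (Φ (2 / 5 * G s 0)) ≤
      ENNReal.ofReal l * ENNReal.ofReal (Φ (kap * G s 0)) +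
        ENNReal.ofReal (1 - l) * ENNReal.ofReal (Φ 0) := by
    intro s
    rw [← ENNReal.ofReal_mul l0, ← ENNReal.ofReal_mul (by linarith),
      ← ENNReal.ofReal_add (mul_nonneg l0 (Φ0 _)) (mul_nonneg (by linarith) (Φ0 _))]
    refine ENNReal.ofReal_le_ofReal ?_
    have := cΦ.2 (Set.mem_univ (kap * G s 0)) (Set.mem_univ (0 : ℝ)) l0
      (by linarith : (0 : ℝ) ≤ 1 - l) (by ring)
    simp only [smul_eq_mul, mul_zero, add_zero] at this
    rw [← mul_assoc, lk] at this
    exact this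
  have m1 : Measurable fun s => ENNReal.ofReal (Φ (kap * G s 0)) :=
    (cc.measurable.comp ((W.sf.meas 0).const_mul _)).ennreal_ofReal
  refine (lintegral_mono pt).trans ?_
  rw [lintegral_add_right _ measurable_const, lintegral_const, measure_univ, mul_one,
    lintegral_const_mul _ m1]
  calc ENNReal.ofReal l * ∫⁻ s, ENNReal.ofReal (Φ (kap * G s 0)) ∂P +
      ENNReal.ofReal (1 - l) * ENNReal.ofReal (Φ 0) ≤
      ENNReal.ofReal l * A + ENNReal.ofReal (1 - l) * A := by gcongr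
    _ = A := by
        rw [← add_mul, ← ENNReal.ofReal_add l0 (by linarith)]
        simp

end

end Pool.Agent.X127.SW
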