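import Pool.Agent.H506R3.Mag.Boch2

/-! # Bochner's theorem for real positive definite functions on a Euclidean space -/

set_option autoImplicit false

namespace Pool.Agent.X127.SW

open MeasureTheory Filter Topology ProbabilityTheory
open scoped RealInnerProductSpace
open Pool.Agent.H506R3.Mag

variable {V : Type*} [NormedAddCommGroup V] [InnerProductSpace ℝ V] [FiniteDimensional ℝ V]
  [MeasurableSpace V] [BorelSpace V]

omit [FiniteDimensional ℝ V] [MeasurableSpace V] [BorelSpace V] [InnerProductSpace ℝ V] in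
lemma psd_bound [DecidableEq V] {C : V → ℝ} (hf : PSDFun C) (he : ∀ x, C (-x) = C x)
    (h0 : C 0 = 1) (x : V) : |C x| ≤ 1 := by
  by_cases hx : x = 0
  · rw [hx, h0, abs_one]
  · have key : ∀ a : ℝ, 0 ≤ 1 + a * a + 2 * a * C x := by
      intro a
      have h := hf {x, 0} (fun y => if y = x then a else 1)
      rw [Finset.sum_pair hx] at h
      rw [Finset.sum_pair hx, Finset.sum_pair hx] at h
      simp only [if_true, sub_self, h0, sub_zero, zero_sub, he, if_neg (Ne.symm hx)] at h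
      linarith
    have h1 := key 1
    have h2 := key (-1)
    rw [abs_le]
    constructor <;> linarith

lemma gauss_cos (x : V) : ∫ ξ, Real.cos ⟪ξ, x⟫ ∂(stdGaussian V) = Real.exp (-‖x‖ ^ 2 / 2) := by
  have h := charFun_stdGaussian (E := V) x
  rw [charFun_apply] at h
  have h1 := congrArg Complex.re h
  have e : (Complex.exp (-(‖x‖ : ℂ) ^ 2 / 2)).re = Real.exp (-‖x‖ ^ 2 / 2) := by
    rw [← Complex.ofReal_re (Real.exp (-‖x‖ ^ 2 / 2))]
    congr 1
    push_cast
    rfl
  rw [e] at h1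
  rw [← h1]
  have hi : Integrable (fun ξ : V => Complex.exp (⟪ξ, x⟫ * Complex.I)) (stdGaussian V) := by
    refine Integrable.of_bound (C := 1) (by fun_prop) (Eventually.of_forall fun ξ => ?_)
    rw [Complex.norm_exp_ofReal_mul_I]
  have h2 := integral_re hi
  simp only [RCLike.re_to_complex] at h2
  rw [← h2]
  refine integral_congr_ae (Eventually.of_forall fun ξ => ?_)
  simp only [Complex.exp_ofReal_mul_I_re]

lemma psd_mul {C : V → ℝ} (hf : PSDFun C) (ε : ℝ) :
    PSDFun fun x => C x * Real.exp (-‖ε • x‖ ^ 2 / 2) := by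
  intro s w
  have e : ∀ x y : V, w x * w y * (C (x - y) * Real.exp (-‖ε • (x - y)‖ ^ 2 / 2)) =
      ∫ ξ, w x * w y * (C (x - y) * Real.cos ⟪ξ, ε • (x - y)⟫) ∂(stdGaussian V) := by
    intro x y
    rw [← gauss_cos, ← integral_const_mul, ← integral_const_mul]
  simp_rw [e]
  have hi : ∀ x y : V, Integrable (fun ξ : V => w x * w y * (C (x - y) *
      Real.cos ⟪ξ, ε • (x - y)⟫)) (stdGaussian V) := by
    intro x y
    refine Integrable.const_mul (Integrable.const_mul ?_ _) _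
    refine Integrable.of_bound (C := 1) (by fun_prop) (Eventually.of_forall fun ξ => ?_)
    exact Real.abs_cos_le_one _
  have e2 : (∑ x ∈ s, ∑ y ∈ s, ∫ ξ, w x * w y * (C (x - y) * Real.cos ⟪ξ, ε • (x - y)⟫)
      ∂(stdGaussian V)) = ∫ ξ, ∑ x ∈ s, ∑ y ∈ s, w x * w y * (C (x - y) *
        Real.cos ⟪ξ, ε • (x - y)⟫) ∂(stdGaussian V) := by
    rw [integral_finsetSum _ fun x _ => integrable_finsetSum _ fun y _ => hi x y]
    refine Finset.sum_congr rfl fun x _ => ?_
    rw [integral_finsetSum _ fun y _ => hi x y]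
  rw [e2]
  refine integral_nonneg fun ξ => ?_
  have h1 := hf s fun x => w x * Real.cos ⟪ξ, ε • x⟫
  have h2 := hf s fun x => w x * Real.sin ⟪ξ, ε • x⟫
  have e3 : (∑ x ∈ s, ∑ y ∈ s, w x * w y * (C (x - y) * Real.cos ⟪ξ, ε • (x - y)⟫)) =
      (∑ x ∈ s, ∑ y ∈ s, w x * Real.cos ⟪ξ, ε • x⟫ * (w y * Real.cos ⟪ξ, ε • y⟫) * C (x - y)) +
      ∑ x ∈ s, ∑ y ∈ s, w x * Real.sin ⟪ξ, ε • x⟫ * (w y * Real.sin ⟪ξ, ε • y⟫) * C (x - y) := by
    rw [← Finset.sum_add_distrib]
    refine Finset.sum_congr rfl fun x _ => ?_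
    rw [← Finset.sum_add_distrib]
    refine Finset.sum_congr rfl fun y _ => ?_
    rw [smul_sub, inner_sub_right, Real.cos_sub]
    ring
  show (0 : ℝ) ≤ ∑ x ∈ s, ∑ y ∈ s, w x * w y * (C (x - y) * Real.cos ⟪ξ, ε • (x - y)⟫)
  rw [e3]
  exact add_nonneg h1 h2

/-- **Bochner's theorem**, real case. -/
theorem bochner_full {C : V → ℝ} (hf : PSDFun C) (hc : Continuous C) (he : ∀ x, C (-x) = C x)
    (h0 : C 0 = 1) :
    ∃ P : Measure V, IsProbabilityMeasure P ∧ ∀ x, charFun P x = (C x : ℂ) := by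
  classical
  have hb : ∀ x, |C x| ≤ 1 := psd_bound hf he h0
  let ε : ℕ → ℝ := fun n => ((n : ℝ) + 1)⁻¹
  have hε : ∀ n, 0 < ε n := fun n => by positivity
  have key : ∀ n : ℕ, ∃ P : Measure V, IsProbabilityMeasure P ∧
      ∀ x, charFun P x = ((C x * Real.exp (-‖ε n • x‖ ^ 2 / 2) : ℝ) : ℂ) := by
    intro n
    have hexp : Integrable fun x : V => Real.exp (-‖ε n • x‖ ^ 2 / 2) := by
      have hb' : 0 < ((ε n ^ 2 / 2 : ℝ) : ℂ).re := by
        rw [Complex.ofReal_re]; have := hε n; positivity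
      have J : Integrable (fun w : V => Complex.exp (-((ε n ^ 2 / 2 : ℝ) : ℂ) * ‖w‖ ^ 2)) := by
        simpa using GaussianFourier.integrable_cexp_neg_mul_sq_norm_add (V := V) hb' 0 0
      refine J.norm.congr (Eventually.of_forall fun x => ?_)
      simp only
      rw [Complex.norm_exp]
      congr 1
      rw [norm_smul, Real.norm_eq_abs, abs_of_pos (hε n)]
      have : (-((ε n ^ 2 / 2 : ℝ) : ℂ) * (‖x‖ : ℂ) ^ 2) =
          ((-(ε n * ‖x‖) ^ 2 / 2 : ℝ) : ℂ) := by
        push_cast; ring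
      rw [this, Complex.ofReal_re]
    have hcont : Continuous fun x : V => Real.exp (-‖ε n • x‖ ^ 2 / 2) := by fun_prop
    refine bochner (psd_mul hf (ε n)) (hc.mul hcont) (fun x => ?_) ?_ (fun x => ?_) ?_
    · rw [abs_mul, Real.abs_exp]
      have h1 : Real.exp (-‖ε n • x‖ ^ 2 / 2) ≤ 1 := Real.exp_le_one_iff.2 (by
        have := sq_nonneg ‖ε n • x‖
        linarith)
      calc |C x| * Real.exp (-‖ε n • x‖ ^ 2 / 2) ≤ 1 * 1 :=
            mul_le_mul (hb x) h1 (Real.exp_pos _).le zero_le_one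
        _ = 1 := one_mul 1
    · refine hexp.mono' (hc.mul hcont).aestronglyMeasurable (Eventually.of_forall fun x => ?_)
      rw [Real.norm_eq_abs, abs_mul, Real.abs_exp]
      calc |C x| * Real.exp (-‖ε n • x‖ ^ 2 / 2) ≤ 1 * Real.exp (-‖ε n • x‖ ^ 2 / 2) :=
            mul_le_mul_of_nonneg_right (hb x) (Real.exp_pos _).le
        _ = _ := one_mul _
    · rw [he, smul_neg, norm_neg]
    · simp [h0]
  choose P hP hchar using key
  have hlim : ∀ x, Tendsto (fun n => charFun (P n) x) atTop (𝓝 ((C x : ℝ) : ℂ)) := by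
    intro x
    simp_rw [hchar]
    refine (Complex.continuous_ofReal.tendsto _).comp ?_
    have h1 : Tendsto (fun n => C x * Real.exp (-‖ε n • x‖ ^ 2 / 2)) atTop
        (𝓝 (C x * Real.exp (-‖(0 : ℝ) • x‖ ^ 2 / 2))) := by
      have hε0 : Tendsto ε atTop (𝓝 0) := tendsto_inv_atTop_zero.comp
        (tendsto_atTop_add_const_right _ 1 tendsto_natCast_atTop_atTop)
      have hcc : Continuous fun e : ℝ => C x * Real.exp (-‖e • x‖ ^ 2 / 2) := by fun_prop
      exact (hcc.tendsto 0).comp hε0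
    simpa using h1
  have htight : IsTightMeasureSet (Set.range P) :=
    isTightMeasureSet_of_tendsto_charFun (f := fun x => ((C x : ℝ) : ℂ))
      (Complex.continuous_ofReal.comp hc).continuousAt hlim
  let Q : ℕ → ProbabilityMeasure V := fun n => ⟨P n, hP n⟩
  have htQ : IsTightMeasureSet {((μ : ProbabilityMeasure V) : Measure V) | μ ∈ Set.range Q} := by
    convert htight using 1
    ext m
    constructor
    · rintro ⟨μ, ⟨n, rfl⟩, rfl⟩
      exact ⟨n, rfl⟩
    · rintro ⟨n, rfl⟩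
      exact ⟨Q n, ⟨n, rfl⟩, rfl⟩
  have hcomp := isCompact_closure_of_isTightMeasureSet htQ
  obtain ⟨R, -, φ, hφ, hR⟩ := hcomp.tendsto_subseq (x := Q)
    fun n => subset_closure (Set.mem_range_self n)
  refine ⟨R, R.2, fun x => ?_⟩
  have h1 := ProbabilityMeasure.tendsto_iff_tendsto_charFun.1 hR x
  have h2 := (hlim x).comp hφ.tendsto_atTop
  exact tendsto_nhds_unique h1 h2

end Pool.Agent.X127.SW
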