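import Pool.Agent.X127.SW.Grad
import Pool.Agent.X127.SW.Red

/-! # Stationary waves: a criterion for Gaussianity -/

set_option autoImplicit false
open MeasureTheory Filter Topology ProbabilityTheory
open scoped ContDiff ENNReal NNReal

namespace Pool.Agent.X127.SW

open Pool.Agent.Y139.SW

noncomputable section

variable {d : ℕ} {S : Type*} [MeasurableSpace S] {P : Measure S} {τ : E d → S → S}

/-- integration by parts for bounded functions of the field -/
lemma stein_b [IsProbabilityMeasure P] (hτ : ∀ x, MeasurePreserving (τ x) P P)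
    {G : S → E d → ℝ} (W : Wave P τ G) {p : ℝ → ℝ} (sp : ContDiff ℝ ∞ p) {B B' : ℝ}
    (bp : ∀ x, |p x| ≤ B) (bd : ∀ x, |deriv p x| ≤ B') :
    ∫ s, deriv p (G s 0) * ∑ i, D i (G s) 0 ^ 2 ∂P = ∫ s, p (G s 0) * G s 0 ∂P := by
  have W1 := fun i => W.der hτ i
  have W2 := fun i => (W1 i).der hτ i
  have cd : Continuous (deriv p) := sp.continuous_deriv (by simp)
  have mg : Measurable fun s => deriv p (G s 0) := cd.measurable.comp (W.sf.meas 0)
  have mP : Measurable fun s => p (G s 0) := sp.continuous.measurable.comp (W.sf.meas 0)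
  have ig : ∀ {f : S → ℝ}, Integrable f P → Integrable (fun s => deriv p (G s 0) * f s) P :=
    fun hf => hf.bdd_mul mg.aestronglyMeasurable (ae_of_all _ fun s => bd _)
  have iP : ∀ {f : S → ℝ}, Integrable f P → Integrable (fun s => p (G s 0) * f s) P :=
    fun hf => hf.bdd_mul mP.aestronglyMeasurable (ae_of_all _ fun s => bp _)
  have i1 : ∀ i, Integrable (fun s => D i (G s) 0) P := fun i => l2_l1 (W1 i).m0 (W1 i).l2
  have i2 : ∀ i, Integrable (fun s => D i (D i (G s)) 0) P := fun i =>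
    l2_l1 (W2 i).m0 (W2 i).l2
  have z : ∀ i, ∫ s, (deriv p (G s 0) * D i (G s) 0 ^ 2 + p (G s 0) * D i (D i (G s)) 0) ∂P =
      0 := by
    intro i
    have hf : SF τ (fun s y => p (G s y) * D i (G s) y) := (W.sf.comp sp).mul (W1 i).sf
    have ed : ∀ s, D i (fun y => p (G s y) * D i (G s) y) 0 =
        deriv p (G s 0) * D i (G s) 0 ^ 2 + p (G s 0) * D i (D i (G s)) 0 := by
      intro s
      have u := W.sf.smooth s
      have e1 : D i (fun y => p (G s y) * D i (G s) y) 0 =
          D i (fun y => p (G s y)) 0 * D i (G s) 0 + p (G s 0) * D i (D i (G s)) 0 :=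
        D_mul (sp.comp u) (D_sm u i) i 0
      rw [e1, D_comp sp u i 0]
      ring
    have h := div0 hτ hf i (iP (i1 i)) (by
      simp only [ed]
      exact (ig (W1 i).l2).add (iP (i2 i)))
    simp only [ed] at h
    exact h
  have z' : ∀ i, ∫ s, deriv p (G s 0) * D i (G s) 0 ^ 2 ∂P =
      -∫ s, p (G s 0) * D i (D i (G s)) 0 ∂P := by
    intro i
    have := z i
    rw [integral_add (ig (W1 i).l2) (iP (i2 i))] at this
    linarith
  simp only [Finset.mul_sum]
  rw [integral_finsetSum _ fun i _ => ig (W1 i).l2]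
  simp only [z']
  rw [Finset.sum_neg_distrib, ← integral_finsetSum _ fun i _ => iP (i2 i), ← integral_neg]
  congr 1; funext s
  have := W.eq s 0
  unfold Lap at this
  rw [← Finset.mul_sum, this]; ring

/-- the squared length of the gradient -/
def Ga (G : S → E d → ℝ) (s : S) : ℝ := ∑ i, D i (G s) 0 ^ 2

section one

variable [IsProbabilityMeasure P] (hτ : ∀ x, MeasurePreserving (τ x) P P)
  {G : S → E d → ℝ} (W : Wave P τ G)

include hτ W

lemma Ga_int : Integrable (Ga G) P := integrable_finsetSum _ fun i _ => (W.der hτ i).l2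

lemma Ga_meas : Measurable (Ga G) :=
  Finset.measurable_fun_sum _ fun i _ => ((W.der hτ i).m0).pow_const 2

lemma Ga_mean : ∫ s, Ga G s ∂P = ∫ s, G s 0 ^ 2 ∂P := by
  unfold Ga
  rw [integral_finsetSum _ fun i _ => (W.der hτ i).l2]
  exact W.energy hτ

lemma st_sin (ξ : ℝ) : ξ * ∫ s, Real.cos (ξ * G s 0) * Ga G s ∂P =
    ∫ s, Real.sin (ξ * G s 0) * G s 0 ∂P := by
  have dp : deriv (fun x => Real.sin (ξ * x)) = fun x => ξ * Real.cos (ξ * x) := by
    funext x
    have := ((hasDerivAt_id x).const_mul ξ).sin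
    rw [show (fun x => Real.sin (ξ * x)) = fun x => Real.sin (ξ * id x) from rfl, this.deriv]
    simp only [id_eq]
    ring
  have h := stein_b hτ W (p := fun x => Real.sin (ξ * x)) (B := 1) (B' := |ξ|)
    (Real.contDiff_sin.comp (contDiff_const.mul contDiff_id)) (fun x => Real.abs_sin_le_one _)
    (fun x => by
      rw [dp, abs_mul]
      exact mul_le_of_le_one_right (abs_nonneg _) (Real.abs_cos_le_one _))
  rw [dp] at h
  rw [← integral_const_mul]
  refine Eq.trans ?_ h
  refine integral_congr_ae (ae_of_all _ fun s => ?_)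
  show ξ * (Real.cos (ξ * G s 0) * Ga G s) = ξ * Real.cos (ξ * G s 0) * ∑ i, D i (G s) 0 ^ 2
  unfold Ga
  ring

lemma st_cos (ξ : ℝ) : -(ξ * ∫ s, Real.sin (ξ * G s 0) * Ga G s ∂P) =
    ∫ s, Real.cos (ξ * G s 0) * G s 0 ∂P := by
  have dp : deriv (fun x => Real.cos (ξ * x)) = fun x => -(ξ * Real.sin (ξ * x)) := by
    funext x
    have := ((hasDerivAt_id x).const_mul ξ).cos
    rw [show (fun x => Real.cos (ξ * x)) = fun x => Real.cos (ξ * id x) from rfl, this.deriv]
    simp only [id_eq]
    ring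
  have h := stein_b hτ W (p := fun x => Real.cos (ξ * x)) (B := 1) (B' := |ξ|)
    (Real.contDiff_cos.comp (contDiff_const.mul contDiff_id)) (fun x => Real.abs_cos_le_one _)
    (fun x => by
      rw [dp, abs_neg, abs_mul]
      exact mul_le_of_le_one_right (abs_nonneg _) (Real.abs_sin_le_one _))
  rw [dp] at h
  rw [← integral_const_mul, ← integral_neg]
  refine Eq.trans ?_ h
  refine integral_congr_ae (ae_of_all _ fun s => ?_)
  show -(ξ * (Real.sin (ξ * G s 0) * Ga G s)) = -(ξ * Real.sin (ξ * G s 0)) * ∑ i, D i (G s) 0 ^ 2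
  unfold Ga
  ring

lemma d_cos (ξ : ℝ) : HasDerivAt (fun ξ => ∫ s, Real.cos (ξ * G s 0) ∂P)
    (-∫ s, Real.sin (ξ * G s 0) * G s 0 ∂P) ξ := by
  have m0 := W.m0
  have iG : Integrable (fun s => G s 0) P := l2_l1 m0 W.l2
  have h := hasDerivAt_integral_of_dominated_loc_of_deriv_le (μ := P)
    (F := fun ξ s => Real.cos (ξ * G s 0)) (F' := fun ξ s => -(Real.sin (ξ * G s 0) * G s 0))
    (x₀ := ξ) (s := Set.univ) (bound := fun s => |G s 0|) Filter.univ_mem
    (Eventually.of_forall fun x => (Real.continuous_cos.measurable.comp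
      (m0.const_mul x)).aestronglyMeasurable)
    (Integrable.of_bound (Real.continuous_cos.measurable.comp
      (m0.const_mul ξ)).aestronglyMeasurable 1 (ae_of_all _ fun s => Real.abs_cos_le_one _))
    ((Real.continuous_sin.measurable.comp (m0.const_mul ξ)).mul m0).neg.aestronglyMeasurable
    (ae_of_all _ fun s x _ => by
      rw [norm_neg, norm_mul, Real.norm_eq_abs, Real.norm_eq_abs]
      exact mul_le_of_le_one_left (abs_nonneg _) (Real.abs_sin_le_one _))
    iG.abs
    (ae_of_all _ fun s x _ => by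
      have := ((hasDerivAt_id x).mul_const (G s 0)).cos
      refine this.congr_deriv ?_
      simp only [id_eq]
      ring)
  rw [← integral_neg]
  exact h.2

lemma d_sin (ξ : ℝ) : HasDerivAt (fun ξ => ∫ s, Real.sin (ξ * G s 0) ∂P)
    (∫ s, Real.cos (ξ * G s 0) * G s 0 ∂P) ξ := by
  have m0 := W.m0
  have iG : Integrable (fun s => G s 0) P := l2_l1 m0 W.l2
  have h := hasDerivAt_integral_of_dominated_loc_of_deriv_le (μ := P)
    (F := fun ξ s => Real.sin (ξ * G s 0)) (F' := fun ξ s => Real.cos (ξ * G s 0) * G s 0)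
    (x₀ := ξ) (s := Set.univ) (bound := fun s => |G s 0|) Filter.univ_mem
    (Eventually.of_forall fun x => (Real.continuous_sin.measurable.comp
      (m0.const_mul x)).aestronglyMeasurable)
    (Integrable.of_bound (Real.continuous_sin.measurable.comp
      (m0.const_mul ξ)).aestronglyMeasurable 1 (ae_of_all _ fun s => Real.abs_sin_le_one _))
    ((Real.continuous_cos.measurable.comp (m0.const_mul ξ)).mul m0).aestronglyMeasurable
    (ae_of_all _ fun s x _ => by
      rw [norm_mul, Real.norm_eq_abs, Real.norm_eq_abs]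
      exact mul_le_of_le_one_left (abs_nonneg _) (Real.abs_cos_le_one _))
    iG.abs
    (ae_of_all _ fun s x _ => by
      have := ((hasDerivAt_id x).mul_const (G s 0)).sin
      refine this.congr_deriv ?_
      simp only [id_eq]
      ring)
  exact h.2

end one

/-- the linear ODE -/
lemma ode {u : ℝ → ℝ} {v : ℝ} (h : ∀ ξ, HasDerivAt u (-(v * ξ * u ξ)) ξ) (ξ : ℝ) :
    u ξ = u 0 * Real.exp (-(v * ξ ^ 2 / 2)) := by
  have h1 : ∀ x, HasDerivAt (fun x => u x * Real.exp (v * x ^ 2 / 2)) 0 x := by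
    intro x
    have h2 : HasDerivAt (fun x : ℝ => v * x ^ 2 / 2) (v * x) x := by
      refine (((hasDerivAt_pow 2 x).const_mul v).div_const 2).congr_deriv ?_
      push_cast
      ring
    refine ((h x).mul h2.exp).congr_deriv ?_
    ring
  have h3 := is_const_of_deriv_eq_zero (f := fun x => u x * Real.exp (v * x ^ 2 / 2))
    (fun x => (h1 x).differentiableAt) (fun x => (h1 x).deriv) ξ 0
  have h4 : Real.exp (v * (0 : ℝ) ^ 2 / 2) = 1 := by simp
  rw [h4, mul_one] at h3
  rw [← h3, mul_assoc, ← Real.exp_add]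
  simp

lemma cf_eq {μ : Measure ℝ} [IsFiniteMeasure μ] (ξ : ℝ) : charFun μ ξ =
    ((∫ x, Real.cos (ξ * x) ∂μ : ℝ) : ℂ) + ((∫ x, Real.sin (ξ * x) ∂μ : ℝ) : ℂ) * Complex.I := by
  rw [charFun_apply_real]
  have e : ∀ x : ℝ, Complex.exp (ξ * x * Complex.I) =
      ((Real.cos (ξ * x) : ℝ) : ℂ) + ((Real.sin (ξ * x) : ℝ) : ℂ) * Complex.I := by
    intro x
    rw [Complex.exp_mul_I]
    push_cast
    ring
  simp only [e]
  have i1 : Integrable (fun x : ℝ => ((Real.cos (ξ * x) : ℝ) : ℂ)) μ :=
    (Integrable.of_bound (by fun_prop : Continuous fun x : ℝ => Real.cos (ξ * x)).aestronglyMeasurable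
      1 (ae_of_all _ fun s => Real.abs_cos_le_one _)).ofReal
  have i2 : Integrable (fun x : ℝ => ((Real.sin (ξ * x) : ℝ) : ℂ)) μ :=
    (Integrable.of_bound (by fun_prop : Continuous fun x : ℝ => Real.sin (ξ * x)).aestronglyMeasurable
      1 (ae_of_all _ fun s => Real.abs_sin_le_one _)).ofReal
  rw [integral_add i1 (i2.mul_const _), integral_mul_const, integral_complex_ofReal,
    integral_complex_ofReal]

/-- **the criterion** -/
theorem crit [IsProbabilityMeasure P] (hτ : ∀ x, MeasurePreserving (τ x) P P)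
    {G : S → E d → ℝ} (W : Wave P τ G) {v : ℝ≥0} (hv : (v : ℝ) = ∫ s, G s 0 ^ 2 ∂P) :
    P.map (fun s => G s 0) = gaussianReal 0 v ↔
      P[Ga G | MeasurableSpace.comap (fun s => G s 0) inferInstance] =ᵐ[P] fun _ => (v : ℝ) := by
  have m0 : Measurable fun s => G s 0 := W.m0
  have pm : IsProbabilityMeasure (P.map fun s => G s 0) :=
    Measure.isProbabilityMeasure_map m0.aemeasurable
  have hm : MeasurableSpace.comap (fun s => G s 0) inferInstance ≤ (inferInstance :
    MeasurableSpace S) := m0.comap_le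
  have iΓ := Ga_int hτ W
  have mc : ∀ ξ : ℝ, Continuous fun x : ℝ => Real.cos (ξ * x) := fun ξ => by fun_prop
  have ms : ∀ ξ : ℝ, Continuous fun x : ℝ => Real.sin (ξ * x) := fun ξ => by fun_prop
  have ec : ∀ ξ, ∫ x, Real.cos (ξ * x) ∂(P.map fun s => G s 0) = ∫ s, Real.cos (ξ * G s 0) ∂P :=
    fun ξ => integral_map m0.aemeasurable (mc ξ).aestronglyMeasurable
  have es : ∀ ξ, ∫ x, Real.sin (ξ * x) ∂(P.map fun s => G s 0) = ∫ s, Real.sin (ξ * G s 0) ∂P :=
    fun ξ => integral_map m0.aemeasurable (ms ξ).aestronglyMeasurable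
  have gcf : ∀ ξ : ℝ, charFun (gaussianReal 0 v) ξ =
      ((Real.exp (-(v * ξ ^ 2 / 2)) : ℝ) : ℂ) := by
    intro ξ
    rw [charFun_gaussianReal]
    push_cast
    congr 1
    simp
  constructor
  · intro hg
    -- the characteristic function
    have cf : ∀ ξ, ∫ s, Real.cos (ξ * G s 0) ∂P = Real.exp (-(v * ξ ^ 2 / 2)) ∧
        ∫ s, Real.sin (ξ * G s 0) ∂P = 0 := by
      intro ξ
      have h1 := cf_eq (μ := P.map fun s => G s 0) ξ
      rw [hg, gcf, ← hg, ec, es] at h1
      have h2 := congrArg Complex.re h1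
      have h3 := congrArg Complex.im h1
      simp only [Complex.add_re, Complex.add_im, Complex.mul_re, Complex.mul_im, Complex.ofReal_re,
        Complex.ofReal_im, Complex.I_re, Complex.I_im, mul_zero, mul_one, sub_zero, zero_add,
        add_zero] at h2 h3
      exact ⟨h2.symm, h3.symm⟩
    have g1 : ∀ ξ, ∫ s, Real.cos (ξ * G s 0) * Ga G s ∂P = v * ∫ s, Real.cos (ξ * G s 0) ∂P := by
      intro ξ
      by_cases h0 : ξ = 0
      · rw [h0]
        simp only [zero_mul, Real.cos_zero, one_mul]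
        rw [Ga_mean hτ W, hv]
        simp
      · have h1 := d_cos hτ W ξ
        have h2 : HasDerivAt (fun ξ : ℝ => Real.exp (-(v * ξ ^ 2 / 2)))
            (-(v * ξ) * Real.exp (-(v * ξ ^ 2 / 2))) ξ := by
          have h3 : HasDerivAt (fun x : ℝ => -((v : ℝ) * x ^ 2 / 2)) (-(v * ξ)) ξ := by
            refine (((hasDerivAt_pow 2 ξ).const_mul (v : ℝ)).div_const 2).fun_neg.congr_deriv ?_
            push_cast
            ring
          refine h3.exp.congr_deriv ?_
          ring
        have e : (fun ξ => ∫ s, Real.cos (ξ * G s 0) ∂P) = fun ξ : ℝ =>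
          Real.exp (-(v * ξ ^ 2 / 2)) := funext fun ξ => (cf ξ).1
        rw [e] at h1
        have h4 := h1.unique h2
        rw [← st_sin hτ W, ← (cf ξ).1] at h4
        have h5 : ξ * (∫ s, Real.cos (ξ * G s 0) * Ga G s ∂P -
            v * ∫ s, Real.cos (ξ * G s 0) ∂P) = 0 := by linarith
        have := (mul_eq_zero.1 h5).resolve_left h0
        linarith
    have g2 : ∀ ξ, ∫ s, Real.sin (ξ * G s 0) * Ga G s ∂P = v * ∫ s, Real.sin (ξ * G s 0) ∂P := by
      intro ξ
      rw [(cf ξ).2, mul_zero]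
      by_cases h0 : ξ = 0
      · rw [h0]
        simp
      · have h1 := d_sin hτ W ξ
        have e : (fun ξ => ∫ s, Real.sin (ξ * G s 0) ∂P) = fun _ : ℝ => (0 : ℝ) :=
          funext fun ξ => (cf ξ).2
        rw [e] at h1
        have h4 := h1.unique (hasDerivAt_const ξ (0 : ℝ))
        rw [← st_cos hτ W] at h4
        have h5 : ξ * (∫ s, Real.sin (ξ * G s 0) * Ga G s ∂P) = 0 := by linarith
        exact (mul_eq_zero.1 h5).resolve_left h0
    -- the two measures
    have Γ0 : ∀ s, 0 ≤ Ga G s := fun s => Finset.sum_nonneg fun i _ => sq_nonneg _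
    obtain ⟨μ1, hμ1⟩ : ∃ μ1 : Measure ℝ, μ1 = (P.withDensity fun s =>
      ENNReal.ofReal (Ga G s)).map fun s => G s 0 := ⟨_, rfl⟩
    obtain ⟨μ2, hμ2⟩ : ∃ μ2 : Measure ℝ, μ2 = v • P.map fun s => G s 0 := ⟨_, rfl⟩
    have mΓ : Measurable fun s => ENNReal.ofReal (Ga G s) := (Ga_meas hτ W).ennreal_ofReal
    have fd : IsFiniteMeasure (P.withDensity fun s => ENNReal.ofReal (Ga G s)) :=
      isFiniteMeasure_withDensity_ofReal iΓ.2
    have f1 : IsFiniteMeasure μ1 := by rw [hμ1]; infer_instance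
    have f2 : IsFiniteMeasure μ2 := by rw [hμ2]; infer_instance
    have wd : ∀ q : ℝ → ℝ, Continuous q → ∫ x, q x ∂μ1 = ∫ s, q (G s 0) * Ga G s ∂P := by
      intro q cq
      rw [hμ1, integral_map m0.aemeasurable cq.aestronglyMeasurable,
        integral_withDensity_eq_integral_toReal_smul mΓ
          (ae_of_all _ fun s => ENNReal.ofReal_lt_top)]
      refine integral_congr_ae (ae_of_all _ fun s => ?_)
      show (ENNReal.ofReal (Ga G s)).toReal • q (G s 0) = _
      rw [ENNReal.toReal_ofReal (Γ0 s), smul_eq_mul, mul_comm]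
    have wv : ∀ q : ℝ → ℝ, Continuous q → ∫ x, q x ∂μ2 = v * ∫ s, q (G s 0) ∂P := by
      intro q cq
      rw [hμ2, integral_smul_nnreal_measure, integral_map m0.aemeasurable
        cq.aestronglyMeasurable]
      rfl
    have eqm : μ1 = μ2 := by
      refine Measure.ext_of_charFun (funext fun ξ => ?_)
      rw [cf_eq, cf_eq, wd _ (mc ξ), wd _ (ms ξ), wv _ (mc ξ), wv _ (ms ξ), g1, g2]
    refine (ae_eq_condExp_of_forall_setIntegral_eq hm iΓ (fun A _ _ =>
      (integrable_const _).integrableOn) ?_ stronglyMeasurable_const.aestronglyMeasurable).symm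
    rintro A ⟨V, mV, rfl⟩ -
    have h1 : (μ1 V).toReal = (μ2 V).toReal := by rw [eqm]
    rw [hμ1, hμ2, Measure.map_apply m0 mV, withDensity_apply _ (m0 mV), Measure.smul_apply,
      Measure.map_apply m0 mV] at h1
    have h2 : ∫ s in (fun s => G s 0) ⁻¹' V, Ga G s ∂P =
        (∫⁻ s in (fun s => G s 0) ⁻¹' V, ENNReal.ofReal (Ga G s) ∂P).toReal := by
      rw [integral_eq_lintegral_of_nonneg_ae (ae_of_all _ Γ0)
        iΓ.integrableOn.aestronglyMeasurable]
    rw [h2, h1, setIntegral_const, smul_eq_mul, measureReal_def]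
    rw [ENNReal.smul_def, smul_eq_mul, ENNReal.toReal_mul]
    simp [mul_comm]
  · intro hc
    -- conditional expectation
    have g : ∀ q : ℝ → ℝ, Continuous q → (∀ x, |q x| ≤ 1) →
        ∫ s, q (G s 0) * Ga G s ∂P = v * ∫ s, q (G s 0) ∂P := by
      intro q cq bq
      have sm : StronglyMeasurable[MeasurableSpace.comap (fun s => G s 0) inferInstance]
          (fun s => q (G s 0)) :=
        (cq.measurable.comp (comap_measurable _)).stronglyMeasurable
      have iq : Integrable (fun s => q (G s 0) * Ga G s) P :=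
        iΓ.bdd_mul (cq.measurable.comp m0).aestronglyMeasurable (ae_of_all _ fun s => bq _)
      have h1 := condExp_mul_of_stronglyMeasurable_left (μ := P) sm iq iΓ
      rw [← integral_condExp hm]
      refine (integral_congr_ae h1).trans ?_
      have h2 : ∀ᵐ s ∂P, ((fun s => q (G s 0)) * P[Ga G | MeasurableSpace.comap (fun s => G s 0)
        inferInstance]) s = v * q (G s 0) := by
        filter_upwards [hc] with s hs
        rw [Pi.mul_apply, hs, mul_comm]
      rw [integral_congr_ae h2, integral_const_mul]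
    have u1 := ode (u := fun ξ => ∫ s, Real.cos (ξ * G s 0) ∂P) (v := v) (fun ξ => by
      refine (d_cos hτ W ξ).congr_deriv ?_
      rw [← st_sin hτ W, g _ (mc ξ) (fun x => Real.abs_cos_le_one _)]
      ring)
    have u2 := ode (u := fun ξ => ∫ s, Real.sin (ξ * G s 0) ∂P) (v := v) (fun ξ => by
      refine (d_sin hτ W ξ).congr_deriv ?_
      rw [← st_cos hτ W, g _ (ms ξ) (fun x => Real.abs_sin_le_one _)]
      ring)
    simp only [zero_mul, Real.cos_zero, Real.sin_zero] at u1 u2
    refine Measure.ext_of_charFun (funext fun ξ => ?_)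
    rw [cf_eq, gcf, ec, es, u1 ξ, u2 ξ]
    simp

end

end Pool.Agent.X127.SW
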