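import Pool.Agent.X127.SW.GC

/-! # Finite combinations of translates of a stationary wave -/

set_option autoImplicit false
open MeasureTheory Filter Topology ProbabilityTheory
open scoped ContDiff ENNReal NNReal

namespace Pool.Agent.X127.SW

open Pool.Agent.Y139.SW

noncomputable section

variable {d : ℕ} {S : Type*} [MeasurableSpace S] {P : Measure S} {τ : E d → S → S}

lemma D_comb {n : ℕ} (c : Fin n → ℝ) (x : Fin n → E d) {f : E d → ℝ} (hf : ContDiff ℝ ∞ f)
    (j : Fin d) (y : E d) : D j (fun y => ∑ i, c i * f (y + x i)) y =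
      ∑ i, c i * D j f (y + x i) := by
  unfold D
  have h1 : ∀ i ∈ Finset.univ, HasFDerivAt (fun y => c i * f (y + x i))
      (c i • fderiv ℝ f (y + x i)) y := by
    intro i _
    have h2 : HasFDerivAt (fun y => f (y + x i)) (fderiv ℝ f (y + x i)) y := by
      have h3 := (sdiff hf (y + x i)).hasFDerivAt.comp y ((hasFDerivAt_id y).add_const (x i))
      rw [ContinuousLinearMap.comp_id] at h3
      exact h3
    exact h2.const_mul (c i)
  rw [(HasFDerivAt.fun_sum h1).fderiv]
  simp

lemma comb_sm {n : ℕ} (c : Fin n → ℝ) (x : Fin n → E d) {f : E d → ℝ} (hf : ContDiff ℝ ∞ f) :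
    ContDiff ℝ ∞ (fun y => ∑ i, c i * f (y + x i)) :=
  ContDiff.sum fun i _ => contDiff_const.mul (hf.comp (contDiff_id.add contDiff_const))

lemma comb [IsProbabilityMeasure P] (hτ : ∀ x, MeasurePreserving (τ x) P P)
    {G : S → E d → ℝ} (W : Wave P τ G) {n : ℕ} (c : Fin n → ℝ) (x : Fin n → E d) :
    Wave P τ (fun s y => ∑ i, c i * G s (y + x i)) := by
  refine ⟨⟨fun y => ?_, fun s => comb_sm c x (W.sf.smooth s), fun z s y => ?_⟩,
    fun s y => ?_, ?_⟩
  · exact Finset.measurable_fun_sum _ fun i _ => (W.sf.meas _).const_mul _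
  · refine Finset.sum_congr rfl fun i _ => ?_
    rw [W.sf.cov]
    congr 2
    abel
  · have h1 : ∀ j, D j (fun y => ∑ i, c i * G s (y + x i)) =
        fun y => ∑ i, c i * D j (G s) (y + x i) := fun j =>
      funext fun y => D_comb c x (W.sf.smooth s) j y
    have h2 : ∀ j, D j (D j (fun y => ∑ i, c i * G s (y + x i))) y =
        ∑ i, c i * D j (D j (G s)) (y + x i) := by
      intro j
      rw [h1 j]
      exact D_comb c x (D_sm (W.sf.smooth s) j) j y
    show ∑ j, D j (D j (fun y => ∑ i, c i * G s (y + x i))) y = -∑ i, c i * G s (y + x i)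
    simp only [h2]
    rw [Finset.sum_comm, ← Finset.sum_neg_distrib]
    refine Finset.sum_congr rfl fun i _ => ?_
    rw [← Finset.mul_sum]
    have := W.eq s (y + x i)
    unfold Lap at this
    rw [this]
    ring
  · have l2 : ∀ y, Integrable (fun s => G s y ^ 2) P := by
      intro y
      have := st_integrable hτ (W.sf.comp (k := fun x => x ^ 2) (contDiff_id.pow 2)) y W.l2
      exact this
    have i1 : Integrable (fun s => (n : ℝ) * ∑ i, c i ^ 2 * G s (0 + x i) ^ 2) P :=
      (integrable_finsetSum _ fun i _ => (l2 _).const_mul _).const_mul _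
    refine Integrable.mono' i1 ?_ (ae_of_all _ fun s => ?_)
    · exact ((Finset.measurable_fun_sum Finset.univ fun i _ =>
        (W.sf.meas (0 + x i)).const_mul (c i)).pow_const 2).aestronglyMeasurable
    · rw [Real.norm_eq_abs, abs_of_nonneg (sq_nonneg _)]
      have := sq_sum_le_card_mul_sum_sq (s := (Finset.univ : Finset (Fin n)))
        (f := fun i => c i * G s (0 + x i))
      rw [Finset.card_univ, Fintype.card_fin] at this
      simp only [mul_pow] at this
      exact this

end

end Pool.Agent.X127.SW
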