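import Pool.Agent.X127.SW.Sz

/-! # Bounded stationary waves: the pointwise gradient bound and the Stein identity -/

set_option autoImplicit false
open MeasureTheory Filter Topology ProbabilityTheory
open scoped ContDiff ENNReal

namespace Pool.Agent.X127.SW

open Pool.Agent.Y139.SW
open Pool.Agent.TH421.AC (Pr Pr_d Pr_sm)

noncomputable section

variable {d : ℕ} {S : Type*} [MeasurableSpace S] {P : Measure S} {τ : E d → S → S}

/-- the penalty function -/
def pen (M x : ℝ) : ℝ := max (|x| - M) 0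

lemma pen_conv (M : ℝ) : ConvexOn ℝ Set.univ (pen M) := by
  unfold pen
  have h1 : ConvexOn ℝ Set.univ (fun x : ℝ => |x| - M) := by
    have h2 : ConvexOn ℝ Set.univ (fun x : ℝ => |x|) := convexOn_univ_norm (E := ℝ)
    have h3 := h2.add_const (-M)
    refine h3.congr fun x _ => ?_
    show |x| + -M = |x| - M
    ring
  exact h1.sup (convexOn_const 0 convex_univ)

lemma pen_even (M x : ℝ) : pen M (-x) = pen M x := by unfold pen; rw [abs_neg]

lemma pen_zero {M x : ℝ} : ENNReal.ofReal (pen M x) = 0 ↔ |x| ≤ M := by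
  unfold pen
  rw [ENNReal.ofReal_eq_zero]
  constructor
  · intro h
    have := (le_max_left (|x| - M) 0).trans h
    linarith
  · intro h
    exact max_le (by linarith) le_rfl

lemma circ {c r : ℝ} (h : c ^ 2 + r ^ 2 = 1) : ∃ α : ℝ, Real.cos α = c ∧ Real.sin α = r := by
  obtain ⟨z, hz⟩ : ∃ z : ℂ, z = ⟨c, r⟩ := ⟨_, rfl⟩
  have n1 : ‖z‖ = 1 := by
    have : ‖z‖ ^ 2 = 1 := by
      rw [← Complex.normSq_eq_norm_sq, Complex.normSq_apply, hz]
      show c * c + r * r = 1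
      linarith
    exact (pow_eq_one_iff_of_nonneg (norm_nonneg _) two_ne_zero).1 this
  have z0 : z ≠ 0 := by
    intro h0
    rw [h0, norm_zero] at n1
    exact zero_ne_one n1
  refine ⟨Complex.arg z, ?_, ?_⟩
  · rw [Complex.cos_arg z0, n1, hz]; simp
  · rw [Complex.sin_arg, n1, hz]; simp

lemma one_dir [IsProbabilityMeasure P] (hτ : ∀ x, MeasurePreserving (τ x) P P)
    {G : S → E d → ℝ} (W : Wave P τ G) {M : ℝ} (hM : ∀ᵐ s ∂P, |G s 0| ≤ M) (c : ℝ) (u : E d) :
    ∀ᵐ s ∂P, |c * G s 0 + Dv u (G s) 0| ≤ M * √(c ^ 2 + ‖u‖ ^ 2) := by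
  by_cases hu : u = 0
  · filter_upwards [hM] with s hs
    rw [hu]
    have : Dv 0 (G s) 0 = 0 := by unfold Dv; simp
    rw [this, add_zero, norm_zero, abs_mul]
    have e : √(c ^ 2 + 0 ^ 2) = |c| := by
      rw [zero_pow two_ne_zero, add_zero, Real.sqrt_sq_eq_abs]
    rw [e, mul_comm]
    exact mul_le_mul_of_nonneg_right hs (abs_nonneg c)
  · have nu : 0 < ‖u‖ := norm_pos_iff.2 hu
    obtain ⟨r, hr⟩ : ∃ r, r = √(c ^ 2 + ‖u‖ ^ 2) := ⟨_, rfl⟩
    have rr : r ^ 2 = c ^ 2 + ‖u‖ ^ 2 := by rw [hr, Real.sq_sqrt (by positivity)]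
    have r0 : 0 < r := by rw [hr]; positivity
    obtain ⟨α, ca, sa⟩ := circ (c := c / r) (r := ‖u‖ / r) (by
      rw [div_pow, div_pow, ← add_div, ← rr]
      field_simp)
    obtain ⟨v, hv⟩ : ∃ v : E d, v = ‖u‖⁻¹ • u := ⟨_, rfl⟩
    have nv : ‖v‖ = 1 := by
      rw [hv, norm_smul, norm_inv, norm_norm]
      exact inv_mul_cancel₀ nu.ne'
    have h := szego hτ W nv α (pen_conv M) (pen_even M)
    have z : ∫⁻ s, ENNReal.ofReal (pen M (G s 0)) ∂P = 0 := by
      have mz : Measurable fun s => ENNReal.ofReal (pen M (G s 0)) :=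
        ((conv_cont (pen_conv M)).measurable.comp (W.sf.meas 0)).ennreal_ofReal
      rw [lintegral_eq_zero_iff mz]
      filter_upwards [hM] with s hs using pen_zero.2 hs
    rw [z, nonpos_iff_eq_zero] at h
    have mm : Measurable fun s => ENNReal.ofReal
        (pen M (Real.cos α * G s 0 + Real.sin α * Dv v (G s) 0)) :=
      ((conv_cont (pen_conv M)).measurable.comp (((W.sf.meas 0).const_mul _).add
        (((wdv hτ W v).sf.meas 0).const_mul _))).ennreal_ofReal
    rw [lintegral_eq_zero_iff mm] at h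
    filter_upwards [h] with s hs
    have h1 := pen_zero.1 hs
    rw [← hr]
    have e : c * G s 0 + Dv u (G s) 0 = r * (Real.cos α * G s 0 + Real.sin α * Dv v (G s) 0) := by
      have e2 : Dv v (G s) 0 = ‖u‖⁻¹ * Dv u (G s) 0 := by
        show fderiv ℝ (G s) 0 v = _
        rw [hv, map_smul]; rfl
      rw [ca, sa, e2]
      field_simp
    rw [e, abs_mul, abs_of_pos r0, mul_comm]
    exact mul_le_mul_of_nonneg_right h1 r0.le

/-- **pointwise Szegő inequality** -/
theorem grad [IsProbabilityMeasure P] (hτ : ∀ x, MeasurePreserving (τ x) P P)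
    {G : S → E d → ℝ} (W : Wave P τ G) {M : ℝ} (hM : ∀ᵐ s ∂P, |G s 0| ≤ M) :
    ∀ᵐ s ∂P, G s 0 ^ 2 + ∑ i, D i (G s) 0 ^ 2 ≤ M ^ 2 := by
  obtain ⟨q, hq⟩ : ∃ q : ℕ → ℝ × E d, q = TopologicalSpace.denseSeq (ℝ × E d) := ⟨_, rfl⟩
  have h1 : ∀ᵐ s ∂P, ∀ n, |(q n).1 * G s 0 + Dv (q n).2 (G s) 0| ≤
      M * √((q n).1 ^ 2 + ‖(q n).2‖ ^ 2) :=
    ae_all_iff.2 fun n => one_dir hτ W hM _ _
  filter_upwards [h1, hM] with s hs hs0
  have M0 : 0 ≤ M := (abs_nonneg _).trans hs0
  have all : ∀ p : ℝ × E d, |p.1 * G s 0 + Dv p.2 (G s) 0| ≤ M * √(p.1 ^ 2 + ‖p.2‖ ^ 2) := by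
    have cl : IsClosed {p : ℝ × E d | |p.1 * G s 0 + Dv p.2 (G s) 0| ≤
        M * √(p.1 ^ 2 + ‖p.2‖ ^ 2)} := by
      refine isClosed_le ?_ ?_
      · have : Continuous fun p : ℝ × E d => Dv p.2 (G s) 0 :=
          (fderiv ℝ (G s) 0).continuous.comp continuous_snd
        exact ((continuous_fst.mul continuous_const).add this).abs
      · exact continuous_const.mul ((continuous_fst.pow 2).add
          (continuous_snd.norm.pow 2)).sqrt
    have de : Dense (Set.range q) := by rw [hq]; exact TopologicalSpace.denseRange_denseSeq _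
    intro p
    have : closure (Set.range q) ⊆ {p : ℝ × E d | |p.1 * G s 0 + Dv p.2 (G s) 0| ≤
        M * √(p.1 ^ 2 + ‖p.2‖ ^ 2)} := by
      refine closure_minimal ?_ cl
      rintro _ ⟨n, rfl⟩
      exact hs n
    exact this (de p)
  obtain ⟨u, hu⟩ : ∃ u : E d, u = WithLp.toLp 2 fun i => D i (G s) 0 := ⟨_, rfl⟩
  have ui : ∀ i, u i = D i (G s) 0 := fun i => by rw [hu]
  obtain ⟨Γ, hΓ⟩ : ∃ Γ, Γ = ∑ i, D i (G s) 0 ^ 2 := ⟨_, rfl⟩
  have Γ0 : 0 ≤ Γ := by rw [hΓ]; exact Finset.sum_nonneg fun i _ => sq_nonneg _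
  have nu : ‖u‖ ^ 2 = Γ := by
    rw [EuclideanSpace.norm_sq_eq, hΓ]
    refine Finset.sum_congr rfl fun i _ => ?_
    rw [ui, Real.norm_eq_abs, sq_abs]
  have du : Dv u (G s) 0 = Γ := by
    rw [dv_eq, hΓ]
    refine Finset.sum_congr rfl fun i _ => ?_
    rw [ui]; ring
  have h2 := all (G s 0, u)
  simp only [nu, du] at h2
  rw [← hΓ]
  obtain ⟨T, hT⟩ : ∃ T, T = G s 0 ^ 2 + Γ := ⟨_, rfl⟩
  have T0 : 0 ≤ T := by rw [hT]; positivity
  have e1 : G s 0 * G s 0 + Γ = T := by rw [hT]; ring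
  rw [e1, ← hT, abs_of_nonneg T0] at h2
  rw [← hT]
  have s0 := Real.sqrt_nonneg T
  have s1 := Real.mul_self_sqrt T0
  rcases s0.eq_or_lt with h | h
  · rw [← h, mul_zero] at s1
    rw [← s1]; positivity
  · have h3 : √T ≤ M := by
      by_contra hc
      push Not at hc
      nlinarith
    calc T = √T * √T := s1.symm
      _ ≤ M * M := mul_le_mul h3 h3 s0 M0
      _ = M ^ 2 := by ring

/-- the Stein identity for smooth functions -/
lemma stein_smooth [IsProbabilityMeasure P] (hτ : ∀ x, MeasurePreserving (τ x) P P)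
    {G : S → E d → ℝ} (W : Wave P τ G) {M : ℝ} (hM : ∀ᵐ s ∂P, |G s 0| ≤ M) {g : ℝ → ℝ}
    (sg : ContDiff ℝ ∞ g) :
    ∫ s, Pr g (G s 0) * G s 0 ∂P = ∫ s, g (G s 0) * ∑ i, D i (G s) 0 ^ 2 ∂P := by
  have W1 := fun i => W.der hτ i
  have W2 := fun i => (W1 i).der hτ i
  obtain ⟨B, hB⟩ := isCompact_Icc.exists_bound_of_continuousOn (s := Set.Icc (-M) M)
    sg.continuous.continuousOn
  obtain ⟨B', hB'⟩ := isCompact_Icc.exists_bound_of_continuousOn (s := Set.Icc (-M) M)
    (Pr_sm sg).continuous.continuousOn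
  have b1 : ∀ᵐ s ∂P, ‖g (G s 0)‖ ≤ B := hM.mono fun s hs => hB _ (abs_le.1 hs)
  have b2 : ∀ᵐ s ∂P, ‖Pr g (G s 0)‖ ≤ B' := hM.mono fun s hs => hB' _ (abs_le.1 hs)
  have mg : Measurable fun s => g (G s 0) := sg.continuous.measurable.comp (W.sf.meas 0)
  have mP : Measurable fun s => Pr g (G s 0) :=
    (Pr_sm sg).continuous.measurable.comp (W.sf.meas 0)
  have ig : ∀ {f : S → ℝ}, Integrable f P → Integrable (fun s => g (G s 0) * f s) P :=
    fun hf => hf.bdd_mul mg.aestronglyMeasurable b1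
  have iP : ∀ {f : S → ℝ}, Integrable f P → Integrable (fun s => Pr g (G s 0) * f s) P :=
    fun hf => hf.bdd_mul mP.aestronglyMeasurable b2
  have i1 : ∀ i, Integrable (fun s => D i (G s) 0) P := fun i => l2_l1 (W1 i).m0 (W1 i).l2
  have i2 : ∀ i, Integrable (fun s => D i (D i (G s)) 0) P := fun i =>
    l2_l1 (W2 i).m0 (W2 i).l2
  have z : ∀ i, ∫ s, (g (G s 0) * D i (G s) 0 ^ 2 + Pr g (G s 0) * D i (D i (G s)) 0) ∂P = 0 := by
    intro i
    have hf : SF τ (fun s y => Pr g (G s y) * D i (G s) y) :=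
      (W.sf.comp (Pr_sm sg)).mul (W1 i).sf
    have ed : ∀ s, D i (fun y => Pr g (G s y) * D i (G s) y) 0 =
        g (G s 0) * D i (G s) 0 ^ 2 + Pr g (G s 0) * D i (D i (G s)) 0 := by
      intro s
      have u := W.sf.smooth s
      have e1 : D i (fun y => Pr g (G s y) * D i (G s) y) 0 =
          D i (fun y => Pr g (G s y)) 0 * D i (G s) 0 + Pr g (G s 0) * D i (D i (G s)) 0 :=
        D_mul ((Pr_sm sg).comp u) (D_sm u i) i 0
      rw [e1, D_comp (Pr_sm sg) u i 0, (Pr_d sg _).deriv]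
      ring
    have h := div0 hτ hf i (iP (i1 i)) (by
      simp only [ed]
      exact (ig (W1 i).l2).add (iP (i2 i)))
    simp only [ed] at h
    exact h
  have z' : ∀ i, ∫ s, g (G s 0) * D i (G s) 0 ^ 2 ∂P = -∫ s, Pr g (G s 0) * D i (D i (G s)) 0 ∂P := by
    intro i
    have := z i
    rw [integral_add (ig (W1 i).l2) (iP (i2 i))] at this
    linarith
  simp only [Finset.mul_sum]
  rw [integral_finsetSum _ fun i _ => ig (W1 i).l2]
  simp only [z']
  rw [Finset.sum_neg_distrib, ← integral_finsetSum _ fun i _ => iP (i2 i), ← integral_neg]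
  congr 1; funext s
  have := W.eq s 0
  unfold Lap at this
  rw [← Finset.mul_sum, this]; ring

/-- the Stein identity for continuous functions -/
theorem stein [IsProbabilityMeasure P] (hτ : ∀ x, MeasurePreserving (τ x) P P)
    {G : S → E d → ℝ} (W : Wave P τ G) {M : ℝ} (hM : ∀ᵐ s ∂P, |G s 0| ≤ M) {g : ℝ → ℝ}
    (cg : Continuous g) :
    ∫ s, Pr g (G s 0) * G s 0 ∂P = ∫ s, g (G s 0) * ∑ i, D i (G s) 0 ^ 2 ∂P := by
  have W1 := fun i => W.der hτ i
  obtain ⟨K, hK⟩ : ∃ K, K = M * M + ∫ s, ∑ i, D i (G s) 0 ^ 2 ∂P := ⟨_, rfl⟩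
  obtain ⟨s0, hs0⟩ := hM.exists
  have M0 : 0 ≤ M := (abs_nonneg _).trans hs0
  have iΓ : Integrable (fun s => ∑ i, D i (G s) 0 ^ 2) P :=
    integrable_finsetSum _ fun i _ => (W1 i).l2
  have Γ0 : ∀ s, 0 ≤ ∑ i, D i (G s) 0 ^ 2 := fun s => Finset.sum_nonneg fun i _ => sq_nonneg _
  have iG : Integrable (fun s => G s 0) P := l2_l1 W.m0 W.l2
  have cP : ∀ {h : ℝ → ℝ}, Continuous h → Continuous (Pr h) := fun hh => by
    unfold Pr
    exact intervalIntegral.continuous_primitive (fun a b => hh.intervalIntegrable a b) 0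
  have ib : ∀ {h f : S → ℝ} {k : ℝ → ℝ}, Continuous k → Integrable f P →
      Integrable (fun s => k (G s 0) * f s) P := by
    intro h f k ck hf
    obtain ⟨B, hB⟩ := isCompact_Icc.exists_bound_of_continuousOn (s := Set.Icc (-M) M)
      ck.continuousOn
    exact hf.bdd_mul (ck.measurable.comp (W.sf.meas 0)).aestronglyMeasurable
      (hM.mono fun s hs => hB _ (abs_le.1 hs))
  have key : ∀ ε : ℝ, 0 < ε → |(∫ s, Pr g (G s 0) * G s 0 ∂P) -
      ∫ s, g (G s 0) * ∑ i, D i (G s) 0 ^ 2 ∂P| ≤ ε * K := by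
    intro ε ε0
    obtain ⟨p, hp⟩ := exists_polynomial_near_of_continuousOn (-M) M g cg.continuousOn ε ε0
    have sp : ContDiff ℝ ∞ (fun x : ℝ => p.eval x) := by
      simpa [Polynomial.aeval_def, Polynomial.eval₂_id] using p.contDiff_aeval (𝕜 := ℝ) ∞
    have h := stein_smooth hτ W hM sp
    have e1 : |(∫ s, Pr g (G s 0) * G s 0 ∂P) -
        ∫ s, Pr (fun x => p.eval x) (G s 0) * G s 0 ∂P| ≤ ε * (M * M) := by
      rw [← integral_sub (ib (h := fun _ => 0) (cP cg) iG) (ib (h := fun _ => 0)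
        (cP sp.continuous) iG)]
      refine (abs_integral_le_integral_abs).trans ?_
      have : ∫ s, |Pr g (G s 0) * G s 0 - Pr (fun x => p.eval x) (G s 0) * G s 0| ∂P ≤
          ∫ s, ε * (M * M) ∂P := by
        refine integral_mono_ae ((ib (h := fun _ => 0) (cP cg) iG).sub (ib (h := fun _ => 0)
          (cP sp.continuous) iG)).abs (integrable_const _) ?_
        filter_upwards [hM] with s hs
        show |Pr g (G s 0) * G s 0 - Pr (fun x => p.eval x) (G s 0) * G s 0| ≤ ε * (M * M)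
        rw [← sub_mul, abs_mul]
        have h2 : |Pr g (G s 0) - Pr (fun x => p.eval x) (G s 0)| ≤ ε * |G s 0| := by
          unfold Pr
          rw [← intervalIntegral.integral_sub (cg.intervalIntegrable _ _)
            (sp.continuous.intervalIntegrable _ _)]
          have h3 := intervalIntegral.norm_integral_le_of_norm_le_const (a := 0) (b := G s 0)
            (C := ε) (f := fun x => g x - p.eval x) (fun x hx => by
              have hx2 : x ∈ Set.Icc (-M) M := by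
                have h5 := abs_le.1 hs
                rcases Set.mem_uIoc.1 hx with h4 | h4
                · exact ⟨by linarith [h4.1], by linarith [h4.2]⟩
                · exact ⟨by linarith [h4.1], by linarith [h4.2]⟩
              have := hp x hx2
              rw [Real.norm_eq_abs, abs_sub_comm]
              exact this.le)
          rw [sub_zero] at h3
          exact h3
        calc |Pr g (G s 0) - Pr (fun x => p.eval x) (G s 0)| * |G s 0| ≤
            (ε * |G s 0|) * |G s 0| := mul_le_mul_of_nonneg_right h2 (abs_nonneg _)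
          _ = ε * (|G s 0| * |G s 0|) := by ring
          _ ≤ ε * (M * M) := by gcongr
      refine this.trans (le_of_eq ?_)
      rw [integral_const]; simp
    have e2 : |(∫ s, (p.eval (G s 0)) * ∑ i, D i (G s) 0 ^ 2 ∂P) -
        ∫ s, g (G s 0) * ∑ i, D i (G s) 0 ^ 2 ∂P| ≤ ε * ∫ s, ∑ i, D i (G s) 0 ^ 2 ∂P := by
      rw [← integral_sub (ib (h := fun _ => 0) sp.continuous iΓ) (ib (h := fun _ => 0) cg iΓ),
        ← integral_const_mul]
      refine (abs_integral_le_integral_abs).trans ?_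
      refine integral_mono_ae ((ib (h := fun _ => 0) sp.continuous iΓ).sub
        (ib (h := fun _ => 0) cg iΓ)).abs (iΓ.const_mul ε) ?_
      filter_upwards [hM] with s hs
      show |p.eval (G s 0) * ∑ i, D i (G s) 0 ^ 2 - g (G s 0) * ∑ i, D i (G s) 0 ^ 2| ≤
        ε * ∑ i, D i (G s) 0 ^ 2
      rw [← sub_mul, abs_mul, abs_of_nonneg (Γ0 s)]
      exact mul_le_mul_of_nonneg_right (hp _ (abs_le.1 hs)).le (Γ0 s)
    rw [h] at e1
    calc |(∫ s, Pr g (G s 0) * G s 0 ∂P) - ∫ s, g (G s 0) * ∑ i, D i (G s) 0 ^ 2 ∂P| ≤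
        |(∫ s, Pr g (G s 0) * G s 0 ∂P) - ∫ s, (p.eval (G s 0)) * ∑ i, D i (G s) 0 ^ 2 ∂P| +
        |(∫ s, (p.eval (G s 0)) * ∑ i, D i (G s) 0 ^ 2 ∂P) -
        ∫ s, g (G s 0) * ∑ i, D i (G s) 0 ^ 2 ∂P| := abs_sub_le _ _ _
      _ ≤ ε * (M * M) + ε * ∫ s, ∑ i, D i (G s) 0 ^ 2 ∂P := add_le_add e1 e2
      _ = ε * K := by rw [hK]; ring
  have K0 : 0 ≤ K := by
    rw [hK]
    have := integral_nonneg (μ := P) (f := fun s => ∑ i, D i (G s) 0 ^ 2) Γ0
    positivity
  have lim : Tendsto (fun ε : ℝ => ε * K) (𝓝[>] 0) (𝓝 (0 * K)) := by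
    have : Continuous fun ε : ℝ => ε * K := by fun_prop
    exact this.continuousAt.tendsto.mono_left nhdsWithin_le_nhds
  have h0 : |(∫ s, Pr g (G s 0) * G s 0 ∂P) - ∫ s, g (G s 0) * ∑ i, D i (G s) 0 ^ 2 ∂P| ≤
      0 * K := by
    refine ge_of_tendsto lim ?_
    filter_upwards [self_mem_nhdsWithin] with ε ε0 using key ε ε0
  rw [zero_mul] at h0
  exact sub_eq_zero.1 (abs_eq_zero.1 (le_antisymm h0 (abs_nonneg _)))

end

end Pool.Agent.X127.SW
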