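import Pool.Agent.Y139.SW.H

/-! # Stationary waves: directional derivatives and L² estimates of increments -/

set_option autoImplicit false
open MeasureTheory Filter Topology
open scoped ContDiff ENNReal

namespace Pool.Agent.X127.SW

open Pool.Agent.Y139.SW

noncomputable section

variable {d : ℕ} {S : Type*} [MeasurableSpace S] {P : Measure S} {τ : E d → S → S}

/-- directional derivative -/
def Dv (v : E d) (f : E d → ℝ) (y : E d) : ℝ := fderiv ℝ f y v

lemma dv_eq (f : E d → ℝ) (y v : E d) : Dv v f y = ∑ i, v i * D i f y := by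
  unfold Dv
  have h : v = ∑ i, v i • (EuclideanSpace.single i (1 : ℝ)) := by
    have := (EuclideanSpace.basisFun (Fin d) ℝ).sum_repr v
    simp only [EuclideanSpace.basisFun_repr, EuclideanSpace.basisFun_apply] at this
    exact this.symm
  conv_lhs => rw [h]
  rw [map_sum]
  refine Finset.sum_congr rfl fun i _ => ?_
  rw [map_smul, smul_eq_mul]
  rfl

lemma dv_single (f : E d → ℝ) (y : E d) (i : Fin d) :
    Dv (EuclideanSpace.single i 1) f y = D i f y := rfl

lemma dv_fun (f : E d → ℝ) (v : E d) : Dv v f = fun y => ∑ i, v i * D i f y :=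
  funext fun y => dv_eq f y v

lemma D_cmul {f : E d → ℝ} (hf : ContDiff ℝ ∞ f) (c : ℝ) (i : Fin d) (y : E d) :
    D i (fun w => c * f w) y = c * D i f y := by
  unfold D
  rw [fderiv_const_mul (sdiff hf y)]
  rfl

lemma Lap_dv {f : E d → ℝ} (hf : ContDiff ℝ ∞ f) (v y : E d) :
    Lap (Dv v f) y = ∑ i, v i * Lap (D i f) y := by
  unfold Lap
  have h1 : ∀ j, D j (Dv v f) = fun y => ∑ i, v i * D j (D i f) y := by
    intro j
    funext y
    rw [dv_fun, D_sum Finset.univ (fun i => contDiff_const.mul (D_sm hf i)) j y]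
    exact Finset.sum_congr rfl fun i _ => D_cmul (D_sm hf i) _ _ _
  have h2 : ∀ j, D j (D j (Dv v f)) y = ∑ i, v i * D j (D j (D i f)) y := by
    intro j
    rw [h1 j, D_sum Finset.univ (fun i => contDiff_const.mul (D_sm (D_sm hf i) j)) j y]
    exact Finset.sum_congr rfl fun i _ => D_cmul (D_sm (D_sm hf i) j) _ _ _
  simp only [h2]
  rw [Finset.sum_comm]
  exact Finset.sum_congr rfl fun i _ => (Finset.mul_sum _ _ _).symm

lemma cs {v : E d} (a : Fin d → ℝ) : (∑ i, v i * a i) ^ 2 ≤ ‖v‖ ^ 2 * ∑ i, a i ^ 2 := by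
  have : ‖v‖ ^ 2 = ∑ i, v i ^ 2 := by
    rw [EuclideanSpace.norm_sq_eq]
    simp
  rw [this]
  exact Finset.sum_mul_sq_le_sq_mul_sq _ _ _

/-- directional derivatives of stationary waves are stationary waves -/
theorem wdv [IsProbabilityMeasure P] (hτ : ∀ x, MeasurePreserving (τ x) P P)
    {G : S → E d → ℝ} (W : Wave P τ G) (v : E d) : Wave P τ (fun s => Dv v (G s)) := by
  have sf : SF τ (fun s => Dv v (G s)) := by
    have h1 : SF τ (fun s y => ∑ j, (fun x : ℝ => v j * x) (D j (G s) y)) :=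
      SF.sum Finset.univ fun j => (W.sf.der j).comp (contDiff_const.mul contDiff_id)
    have e : (fun s => Dv v (G s)) = fun s y => ∑ j, (fun x : ℝ => v j * x) (D j (G s) y) := by
      funext s y
      exact dv_eq _ _ _
    rw [e]
    exact h1
  refine ⟨sf, fun s y => ?_, ?_⟩
  · rw [Lap_dv (W.sf.smooth s)]
    rw [dv_eq, ← Finset.sum_neg_distrib]
    refine Finset.sum_congr rfl fun i _ => ?_
    rw [(W.der hτ i).eq s y]
    ring
  · have i1 : Integrable (fun s => ∑ i, D i (G s) 0 ^ 2) P :=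
      integrable_finsetSum _ fun i _ => (W.der hτ i).l2
    refine Integrable.mono' (i1.const_mul (‖v‖ ^ 2)) ((sf.meas 0).pow_const 2).aestronglyMeasurable
      (ae_of_all _ fun s => ?_)
    rw [Real.norm_eq_abs, abs_of_nonneg (sq_nonneg _), dv_eq]
    exact cs _

/-- the energy of a directional derivative -/
theorem edv [IsProbabilityMeasure P] (hτ : ∀ x, MeasurePreserving (τ x) P P)
    {G : S → E d → ℝ} (W : Wave P τ G) (v : E d) :
    ∫ s, Dv v (G s) 0 ^ 2 ∂P ≤ ‖v‖ ^ 2 * ∫ s, G s 0 ^ 2 ∂P := by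
  have i1 : Integrable (fun s => ∑ i, D i (G s) 0 ^ 2) P :=
    integrable_finsetSum _ fun i _ => (W.der hτ i).l2
  rw [← W.energy hτ, ← integral_finsetSum _ fun i _ => (W.der hτ i).l2, ← integral_const_mul]
  refine integral_mono (wdv hτ W v).l2 (i1.const_mul _) fun s => ?_
  show Dv v (G s) 0 ^ 2 ≤ _
  rw [dv_eq]
  exact cs _

/-- second moments at any point -/
lemma sqi (hτ : ∀ x, MeasurePreserving (τ x) P P) {G : S → E d → ℝ} (W : Wave P τ G) (y : E d) :
    Integrable (fun s => G s y ^ 2) P := by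
  have h := W.sf.comp (contDiff_id.pow 2 : ContDiff ℝ ∞ fun x : ℝ => x ^ 2)
  exact st_integrable hτ h y W.l2

lemma sqe (hτ : ∀ x, MeasurePreserving (τ x) P P) {G : S → E d → ℝ} (W : Wave P τ G) (y : E d) :
    ∫ s, G s y ^ 2 ∂P = ∫ s, G s 0 ^ 2 ∂P :=
  st_int hτ W.sf y (k := fun x => x ^ 2) (measurable_id.pow_const 2)

/-- Cauchy–Schwarz in time -/
lemma jt [IsProbabilityMeasure P] {K : ℝ → S → ℝ} (mK : ∀ t, Measurable (K t))
    (cK : ∀ s, Continuous fun t => K t s) {c : ℝ}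
    (iK : ∀ t ∈ Set.Icc (0 : ℝ) 1, Integrable (fun s => K t s ^ 2) P)
    (hK : ∀ t ∈ Set.Icc (0 : ℝ) 1, ∫ s, K t s ^ 2 ∂P ≤ c) :
    Integrable (fun s => (∫ t in (0 : ℝ)..1, K t s) ^ 2) P ∧
      ∫ s, (∫ t in (0 : ℝ)..1, K t s) ^ 2 ∂P ≤ c := by
  have mj : Measurable (Function.uncurry K) :=
    measurable_uncurry_of_continuous_of_measurable (u := K) cK mK
  obtain ⟨ρ, hρ⟩ : ∃ ρ : Measure ℝ, ρ = volume.restrict (Set.Ioc (0 : ℝ) 1) := ⟨_, rfl⟩
  have pρ : IsProbabilityMeasure ρ := ⟨by rw [hρ]; simp⟩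
  have mj2 : Measurable fun p : ℝ × S => K p.1 p.2 ^ 2 := mj.pow_const 2
  have aeI : ∀ᵐ t ∂ρ, t ∈ Set.Icc (0 : ℝ) 1 := by
    rw [hρ]
    filter_upwards [ae_restrict_mem measurableSet_Ioc] with t ht using ⟨ht.1.le, ht.2⟩
  have c0 : 0 ≤ c := (integral_nonneg fun s => sq_nonneg _).trans (hK 0 ⟨le_rfl, zero_le_one⟩)
  have ip : Integrable (fun p : ℝ × S => K p.1 p.2 ^ 2) (ρ.prod P) := by
    rw [integrable_prod_iff mj2.aestronglyMeasurable]
    refine ⟨aeI.mono fun t ht => iK t ht, ?_⟩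
    refine Integrable.mono' (integrable_const c) ?_ (aeI.mono fun t ht => ?_)
    · exact mj2.norm.stronglyMeasurable.integral_prod_right'.aestronglyMeasurable
    · rw [Real.norm_eq_abs, abs_of_nonneg (integral_nonneg fun s => norm_nonneg _)]
      refine le_trans (le_of_eq ?_) (hK t ht)
      refine integral_congr_ae (ae_of_all _ fun s => ?_)
      show ‖K t s ^ 2‖ = K t s ^ 2
      rw [Real.norm_eq_abs, abs_of_nonneg (sq_nonneg _)]
  have i2 : Integrable (fun s => ∫ t, K t s ^ 2 ∂ρ) P := ip.integral_prod_right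
  have sw : ∫ s, ∫ t, K t s ^ 2 ∂ρ ∂P = ∫ t, ∫ s, K t s ^ 2 ∂P ∂ρ := by
    rw [integral_integral_swap]
    exact ip.swap
  have up : ∫ t, ∫ s, K t s ^ 2 ∂P ∂ρ ≤ c := by
    have h1 : ∫ t, ∫ s, K t s ^ 2 ∂P ∂ρ ≤ ∫ t, c ∂ρ :=
      integral_mono_ae ip.integral_prod_left (integrable_const c) (aeI.mono fun t ht => hK t ht)
    simpa using h1
  have pt : ∀ s, (∫ t in (0 : ℝ)..1, K t s) ^ 2 ≤ ∫ t, K t s ^ 2 ∂ρ := by
    intro s
    rw [intervalIntegral.integral_of_le zero_le_one, ← hρ]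
    have j1 : Integrable (fun t => K t s) ρ := by
      rw [hρ]
      exact ((cK s).integrableOn_Icc (a := 0) (b := 1)).mono_set Set.Ioc_subset_Icc_self
    have j2 : Integrable (fun t => K t s ^ 2) ρ := by
      rw [hρ]
      exact (((cK s).pow 2).integrableOn_Icc (a := 0) (b := 1)).mono_set Set.Ioc_subset_Icc_self
    obtain ⟨a, ha⟩ : ∃ a, a = ∫ t, K t s ∂ρ := ⟨_, rfl⟩
    have h1 : 0 ≤ ∫ t, (K t s - a) ^ 2 ∂ρ := integral_nonneg fun t => sq_nonneg _
    have h2 : ∫ t, (K t s - a) ^ 2 ∂ρ = (∫ t, K t s ^ 2 ∂ρ) - 2 * a * (∫ t, K t s ∂ρ) + a ^ 2 := by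
      have e : ∀ t, (K t s - a) ^ 2 = K t s ^ 2 - 2 * a * K t s + a ^ 2 := fun t => by ring
      simp only [e]
      have j3 : Integrable (fun t => K t s ^ 2 - 2 * a * K t s) ρ := j2.sub (j1.const_mul _)
      rw [integral_add j3 (integrable_const _),
        integral_sub j2 (j1.const_mul _), integral_const_mul, integral_const]
      simp
    rw [h2, ← ha] at h1
    rw [← ha]
    nlinarith
  have m1 : Measurable fun s => (∫ t in (0 : ℝ)..1, K t s) ^ 2 := by
    have : Measurable fun s => ∫ t, K t s ∂ρ :=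
      (mj.stronglyMeasurable.integral_prod_left' (μ := ρ)).measurable
    have e : (fun s => (∫ t in (0 : ℝ)..1, K t s) ^ 2) = fun s => (∫ t, K t s ∂ρ) ^ 2 := by
      funext s
      rw [intervalIntegral.integral_of_le zero_le_one, ← hρ]
    rw [e]
    exact this.pow_const 2
  have i1 : Integrable (fun s => (∫ t in (0 : ℝ)..1, K t s) ^ 2) P := by
    refine Integrable.mono' i2 m1.aestronglyMeasurable (ae_of_all _ fun s => ?_)
    rw [Real.norm_eq_abs, abs_of_nonneg (sq_nonneg _)]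
    exact pt s
  exact ⟨i1, (integral_mono i1 i2 pt).trans (sw.le.trans up)⟩

lemma line_c {f : E d → ℝ} (hf : ContDiff ℝ ∞ f) (x v : E d) :
    Continuous fun t : ℝ => f (x + t • v) :=
  hf.continuous.comp (continuous_const.add (continuous_id.smul continuous_const))

lemma line_ftc {f : E d → ℝ} (hf : ContDiff ℝ ∞ f) (x v : E d) :
    ∫ t in (0 : ℝ)..1, Dv v f (x + t • v) = f (x + v) - f x := by
  have := intervalIntegral.integral_eq_sub_of_hasDerivAt (a := 0) (b := 1)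
    (f := fun t : ℝ => f (x + t • v)) (f' := fun t => Dv v f (x + t • v)) (fun t _ => ?_) ?_
  · rw [this, one_smul, zero_smul, add_zero]
  · have h1 : HasDerivAt (fun t : ℝ => x + t • v) ((1 : ℝ) • v) t :=
      ((hasDerivAt_id t).smul_const v).const_add x
    have h2 := (sdiff hf (x + t • v)).hasFDerivAt.comp_hasDerivAt t h1
    rw [one_smul] at h2
    exact h2
  · have : ContDiff ℝ ∞ (Dv v f) := (hf.fderiv_right (m := ∞) le_rfl).clm_apply contDiff_const
    exact (line_c this x v).intervalIntegrable 0 1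

/-- first order increments -/
theorem lemA [IsProbabilityMeasure P] (hτ : ∀ x, MeasurePreserving (τ x) P P)
    {G : S → E d → ℝ} (W : Wave P τ G) (x v : E d) :
    Integrable (fun s => (G s (x + v) - G s x) ^ 2) P ∧
      ∫ s, (G s (x + v) - G s x) ^ 2 ∂P ≤ ‖v‖ ^ 2 * ∫ s, G s 0 ^ 2 ∂P := by
  have Wv := wdv hτ W v
  have h := jt (P := P) (K := fun t s => Dv v (G s) (x + t • v)) (c := ‖v‖ ^ 2 * ∫ s, G s 0 ^ 2 ∂P)
    (fun t => Wv.sf.meas _) (fun s => line_c (Wv.sf.smooth s) x v) (fun t _ => sqi hτ Wv _)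
    (fun t _ => by rw [sqe hτ Wv]; exact edv hτ W v)
  have e : ∀ s, ∫ t in (0 : ℝ)..1, Dv v (G s) (x + t • v) = G s (x + v) - G s x := fun s =>
    line_ftc (W.sf.smooth s) x v
  simp only [e] at h
  exact h

/-- second order increments -/
theorem lemB [IsProbabilityMeasure P] (hτ : ∀ x, MeasurePreserving (τ x) P P)
    {G : S → E d → ℝ} (W : Wave P τ G) (x v : E d) :
    Integrable (fun s => (G s (x + v) - G s x - Dv v (G s) x) ^ 2) P ∧
      ∫ s, (G s (x + v) - G s x - Dv v (G s) x) ^ 2 ∂P ≤ ‖v‖ ^ 4 * ∫ s, G s 0 ^ 2 ∂P := by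
  have Wv := wdv hτ W v
  obtain ⟨m, hm⟩ : ∃ m, m = ∫ s, G s 0 ^ 2 ∂P := ⟨_, rfl⟩
  have m0 : 0 ≤ m := by rw [hm]; exact integral_nonneg fun s => sq_nonneg _
  rw [← hm]
  have b : ∀ t ∈ Set.Icc (0 : ℝ) 1,
      ∫ s, (Dv v (G s) (x + t • v) - Dv v (G s) x) ^ 2 ∂P ≤ ‖v‖ ^ 4 * m := by
    intro t ht
    refine (lemA hτ Wv x (t • v)).2.trans ?_
    have h1 := edv hτ W v
    rw [← hm] at h1
    have h2 : ‖t • v‖ ^ 2 ≤ ‖v‖ ^ 2 := by
      rw [norm_smul, mul_pow, Real.norm_eq_abs, abs_of_nonneg ht.1]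
      have : t ^ 2 ≤ 1 := pow_le_one₀ ht.1 ht.2
      nlinarith [sq_nonneg ‖v‖]
    calc ‖t • v‖ ^ 2 * ∫ s, Dv v (G s) 0 ^ 2 ∂P ≤ ‖v‖ ^ 2 * (‖v‖ ^ 2 * m) := by
          refine mul_le_mul h2 h1 (integral_nonneg fun s => sq_nonneg _) (sq_nonneg _)
      _ = ‖v‖ ^ 4 * m := by ring
  have h := jt (P := P) (K := fun t s => Dv v (G s) (x + t • v) - Dv v (G s) x)
    (c := ‖v‖ ^ 4 * m)
    (fun t => (Wv.sf.meas _).sub (Wv.sf.meas _))
    (fun s => (line_c (Wv.sf.smooth s) x v).sub continuous_const)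
    (fun t _ => (lemA hτ Wv x (t • v)).1) b
  have e : ∀ s, ∫ t in (0 : ℝ)..1, (Dv v (G s) (x + t • v) - Dv v (G s) x) =
      G s (x + v) - G s x - Dv v (G s) x := fun s => by
    rw [intervalIntegral.integral_sub ((line_c (Wv.sf.smooth s) x v).intervalIntegrable 0 1)
      (continuous_const.intervalIntegrable 0 1), line_ftc (W.sf.smooth s) x v]
    simp
  simp only [e] at h
  exact h

end

end Pool.Agent.X127.SW
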