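import Pool.Agent.X127.SW.Rev
import Pool.Agent.X127.SW.QS

/-! # The maximal inequality in law for stationary waves -/

set_option autoImplicit false
open MeasureTheory Filter Topology
open scoped ContDiff ENNReal

namespace Pool.Agent.X127.SW

open Pool.Agent.Y139.SW

noncomputable section

variable {d : ℕ} {S : Type*} [MeasurableSpace S] {P : Measure S} {τ : E d → S → S}

lemma dv_sm {g : E d → ℝ} (hg : ContDiff ℝ ∞ g) (v : E d) : ContDiff ℝ ∞ (Dv v g) :=
  (hg.fderiv_right (m := ∞) le_rfl).clm_apply contDiff_const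

lemma sh_sm {g : E d → ℝ} (hg : ContDiff ℝ ∞ g) (z : E d) : ContDiff ℝ ∞ fun y => g (y + z) :=
  hg.comp (contDiff_id.add contDiff_const)

lemma dv_sh (g : E d → ℝ) (v z : E d) : Dv v (fun y => g (y + z)) = fun y => Dv v g (y + z) := by
  funext y
  unfold Dv
  rw [fderiv_comp_add_right]

lemma d_sh (g : E d → ℝ) (i : Fin d) (z : E d) : D i (fun y => g (y + z)) =
    fun y => D i g (y + z) := by
  funext y
  unfold D
  rw [fderiv_comp_add_right]

lemma wshift (hτ : ∀ x, MeasurePreserving (τ x) P P) {G : S → E d → ℝ} (W : Wave P τ G)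
    (z : E d) : Wave P τ (fun s y => G s (y + z)) := by
  refine ⟨⟨fun y => W.sf.meas _, fun s => sh_sm (W.sf.smooth s) z, fun x s y => ?_⟩,
    fun s y => ?_, ?_⟩
  · show G (τ x s) (y + z) = G s (y + x + z)
    rw [W.sf.cov]
    congr 1
    abel
  · have h := W.eq s (y + z)
    unfold Lap at h ⊢
    rw [← h]
    refine Finset.sum_congr rfl fun i _ => ?_
    rw [d_sh, d_sh]
  · have := sqi hτ W (0 + z)
    exact this

/-- the dominating functional -/
def Nf (r : ℝ) : List (E d) → (E d → ℝ) → ℝ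
  | [], g => |g 0|
  | v :: l, g => Nf r l g + 2 * r * ∫ θ, Nf r l (fun y => Dv v g (y + (r * (2 * θ - 1)) • v)) ∂ui

lemma Nf_cont (r : ℝ) (l : List (E d)) : ∀ {g : E d → ℝ}, ContDiff ℝ ∞ g →
    Continuous fun x : E d => Nf r l fun y => g (y + x) := by
  induction l with
  | nil =>
    intro g hg
    have : Continuous fun x : E d => |g (0 + x)| :=
      (hg.continuous.comp (continuous_const.add continuous_id)).abs
    exact this
  | cons v l ih =>
    intro g hg
    have h1 := ih hg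
    have h2 := ih (dv_sm hg v)
    have h3 : Continuous fun x : E d => ∫ θ in (0 : ℝ)..1,
        Nf r l (fun y => Dv v g (y + ((r * (2 * θ - 1)) • v + x))) := by
      refine intervalIntegral.continuous_parametric_intervalIntegral_of_continuous' ?_ 0 1
      exact h2.comp (f := fun p : E d × ℝ => (r * (2 * p.2 - 1)) • v + p.1) (by fun_prop)
    have e : (fun x : E d => Nf r (v :: l) fun y => g (y + x)) = fun x =>
        (Nf r l fun y => g (y + x)) + 2 * r * ∫ θ in (0 : ℝ)..1,
          Nf r l (fun y => Dv v g (y + ((r * (2 * θ - 1)) • v + x))) := by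
      funext x
      rw [ui_int]
      show (Nf r l fun y => g (y + x)) + 2 * r * ∫ θ,
        Nf r l (fun y => Dv v (fun y => g (y + x)) (y + (r * (2 * θ - 1)) • v)) ∂ui = _
      simp only [dv_sh, add_assoc]
    rw [e]
    exact h1.add (continuous_const.mul h3)

lemma Nf_t (r : ℝ) (l : List (E d)) {g : E d → ℝ} (hg : ContDiff ℝ ∞ g) (v : E d) :
    Continuous fun θ : ℝ => Nf r l fun y => Dv v g (y + (r * (2 * θ - 1)) • v) :=
  (Nf_cont r l (dv_sm hg v)).comp (f := fun θ : ℝ => (r * (2 * θ - 1)) • v) (by fun_prop)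

lemma Nf_meas [IsProbabilityMeasure P] (hτ : ∀ x, MeasurePreserving (τ x) P P) (r : ℝ)
    (l : List (E d)) : ∀ {G : S → E d → ℝ}, Wave P τ G → Measurable fun s => Nf r l (G s) := by
  induction l with
  | nil =>
    intro G W
    exact continuous_abs.measurable.comp (W.sf.meas 0)
  | cons v l ih =>
    intro G W
    have h1 := ih W
    have mK : ∀ θ : ℝ, Measurable fun s =>
        Nf r l fun y => Dv v (G s) (y + (r * (2 * θ - 1)) • v) := fun θ =>
      ih (wshift hτ (wdv hτ W v) _)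
    have mj : Measurable (Function.uncurry fun (θ : ℝ) (s : S) =>
        Nf r l fun y => Dv v (G s) (y + (r * (2 * θ - 1)) • v)) :=
      measurable_uncurry_of_continuous_of_measurable
        (u := fun (θ : ℝ) (s : S) => Nf r l fun y => Dv v (G s) (y + (r * (2 * θ - 1)) • v))
        (fun s => Nf_t r l (W.sf.smooth s) v) mK
    have h2 : Measurable fun s => ∫ θ, Nf r l (fun y =>
        Dv v (G s) (y + (r * (2 * θ - 1)) • v)) ∂ui :=
      (mj.stronglyMeasurable.integral_prod_left' (μ := ui)).measurable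
    exact h1.add (h2.const_mul _)

/-- the points reached -/
def Rc (r : ℝ) : List (E d) → Set (E d)
  | [] => {0}
  | v :: l => {y | ∃ y' ∈ Rc r l, ∃ t : ℝ, |t| ≤ r ∧ y = y' + t • v}

lemma Nf_pt {r : ℝ} (hr : 0 < r) (l : List (E d)) : ∀ {g : E d → ℝ}, ContDiff ℝ ∞ g →
    ∀ y ∈ Rc r l, |g y| ≤ Nf r l g := by
  induction l with
  | nil =>
    intro g hg y hy
    have : y = 0 := hy
    rw [this]
    exact le_rfl
  | cons v l ih =>
    intro g hg y hy
    obtain ⟨y', hy', t, ht, e⟩ := hy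
    obtain ⟨γ, hγ⟩ : ∃ γ : ℝ → E d, γ = fun θ => y' + (r * (2 * θ - 1)) • v := ⟨_, rfl⟩
    obtain ⟨θ0, hθ⟩ : ∃ θ0 : ℝ, θ0 = (t / r + 1) / 2 := ⟨_, rfl⟩
    have a1 := (abs_le.1 ht).1
    have a2 := (abs_le.1 ht).2
    have b1 : -1 ≤ t / r := by rw [le_div_iff₀ hr]; linarith
    have b2 : t / r ≤ 1 := by rw [div_le_iff₀ hr]; linarith
    have c1 : γ θ0 = y := by
      rw [hγ, e, hθ]
      show y' + (r * (2 * ((t / r + 1) / 2) - 1)) • v = y' + t • v
      congr 2
      field_simp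
      ring
    have c2 : γ (1 / 2) = y' := by
      rw [hγ]
      show y' + (r * (2 * (1 / 2) - 1)) • v = y'
      norm_num
    have dg : ContDiff ℝ ∞ (Dv v g) := dv_sm hg v
    have cγ : Continuous γ := by rw [hγ]; fun_prop
    have ch : Continuous fun θ => 2 * r * Dv v g (γ θ) :=
      continuous_const.mul (dg.continuous.comp cγ)
    have hd : ∀ θ : ℝ, HasDerivAt (fun θ => g (γ θ)) (2 * r * Dv v g (γ θ)) θ := by
      intro θ
      have h1 : HasDerivAt γ ((2 * r) • v) θ := by
        rw [hγ]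
        have h2 : HasDerivAt (fun θ : ℝ => r * (2 * θ - 1)) (2 * r) θ := by
          refine ((((hasDerivAt_id θ).const_mul 2).sub_const 1).const_mul r).congr_deriv ?_
          ring
        exact (h2.smul_const v).const_add y'
      have h2 := (sdiff hg (γ θ)).hasFDerivAt.comp_hasDerivAt θ h1
      refine h2.congr_deriv ?_
      rw [map_smul, smul_eq_mul]
      rfl
    have ftc : ∫ θ in (1 / 2 : ℝ)..θ0, 2 * r * Dv v g (γ θ) = g y - g y' := by
      rw [intervalIntegral.integral_eq_sub_of_hasDerivAt (fun θ _ => hd θ)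
        (ch.intervalIntegrable _ _), c1, c2]
    have sub : Set.uIoc (1 / 2 : ℝ) θ0 ⊆ Set.uIoc (0 : ℝ) 1 := by
      intro x hx
      rw [Set.mem_uIoc] at hx
      rw [Set.uIoc_of_le zero_le_one]
      have t0 : 0 ≤ θ0 := by rw [hθ]; linarith
      have t1 : θ0 ≤ 1 := by rw [hθ]; linarith
      rcases hx with h | h
      · exact ⟨by linarith [h.1], by linarith [h.2]⟩
      · exact ⟨by linarith [h.1], by linarith [h.2]⟩
    have h1 : |g y - g y'| ≤ ∫ θ in (0 : ℝ)..1, |2 * r * Dv v g (γ θ)| := by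
      rw [← ftc]
      have h2 := intervalIntegral.norm_integral_le_abs_integral_norm
        (f := fun θ => 2 * r * Dv v g (γ θ)) (a := 1 / 2) (b := θ0) (μ := volume)
      have h3 := intervalIntegral.abs_integral_mono_interval (μ := volume)
        (f := fun θ => |2 * r * Dv v g (γ θ)|) sub (ae_of_all _ fun _ => abs_nonneg _)
        (ch.abs.intervalIntegrable _ _)
      have h4 : 0 ≤ ∫ θ in (0 : ℝ)..1, |2 * r * Dv v g (γ θ)| :=
        intervalIntegral.integral_nonneg zero_le_one fun _ _ => abs_nonneg _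
      rw [abs_of_nonneg h4] at h3
      exact h2.trans h3
    have h2 : ∫ θ in (0 : ℝ)..1, |2 * r * Dv v g (γ θ)| ≤
        2 * r * ∫ θ, Nf r l (fun y => Dv v g (y + (r * (2 * θ - 1)) • v)) ∂ui := by
      rw [← ui_int, ← intervalIntegral.integral_const_mul]
      refine intervalIntegral.integral_mono_on zero_le_one (ch.abs.intervalIntegrable _ _)
        ((continuous_const.mul (Nf_t r l hg v)).intervalIntegrable _ _) fun θ _ => ?_
      rw [abs_mul, abs_of_pos (by positivity)]
      refine mul_le_mul_of_nonneg_left ?_ (by positivity)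
      have := ih (g := fun y => Dv v g (y + (r * (2 * θ - 1)) • v)) (sh_sm dg _) y' hy'
      rw [hγ]
      exact this
    have h3 := ih hg y' hy'
    show |g y| ≤ Nf r l g + 2 * r * ∫ θ, Nf r l (fun y => Dv v g (y + (r * (2 * θ - 1)) • v)) ∂ui
    have h4 : |g y| ≤ |g y'| + |g y - g y'| := by
      have := abs_add_le (g y') (g y - g y')
      rwa [add_sub_cancel] at this
    linarith

/-- stationarity -/
lemma st_l (hτ : ∀ x, MeasurePreserving (τ x) P P) {G : S → E d → ℝ} (W : Wave P τ G) (z : E d)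
    {k : ℝ → ℝ} (ck : Continuous k) :
    ∫⁻ s, ENNReal.ofReal (k (G s z)) ∂P = ∫⁻ s, ENNReal.ofReal (k (G s 0)) ∂P := by
  have m : Measurable fun s => ENNReal.ofReal (k (G s 0)) :=
    (ck.measurable.comp (W.sf.meas 0)).ennreal_ofReal
  rw [← (hτ z).lintegral_comp m]
  refine lintegral_congr fun s => ?_
  rw [W.sf.cov, zero_add]

/-- **the law of the dominating functional** -/
theorem Nf_law [IsProbabilityMeasure P] (hτ : ∀ x, MeasurePreserving (τ x) P P) {r : ℝ}
    (hr : 0 < r) {Φ : ℝ → ℝ} (cΦ : ConvexOn ℝ Set.univ Φ) (eΦ : ∀ x, Φ (-x) = Φ x)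
    (Φ0 : ∀ x, 0 ≤ Φ x) (l : List (E d)) : (∀ v ∈ l, ‖v‖ = 1) → ∀ {G : S → E d → ℝ},
    Wave P τ G → ∫⁻ s, ENNReal.ofReal (Φ (Nf r l (G s) / (1 + 2 * r) ^ l.length)) ∂P ≤
      ∫⁻ s, ENNReal.ofReal (Φ (G s 0)) ∂P := by
  have cc := conv_cont cΦ
  induction l with
  | nil =>
    intro _ G W
    refine le_of_eq (lintegral_congr fun s => ?_)
    show ENNReal.ofReal (Φ (|G s 0| / (1 + 2 * r) ^ 0)) = _
    rw [pow_zero, div_one]
    rcases abs_choice (G s 0) with h | h
    · rw [h]
    · rw [h, eΦ]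
  | cons v l ih =>
    intro hl G W
    have hv : ‖v‖ = 1 := hl v List.mem_cons_self
    have hl' : ∀ w ∈ l, ‖w‖ = 1 := fun w hw => hl w (List.mem_cons_of_mem _ hw)
    obtain ⟨C, hC⟩ : ∃ C, C = (1 + 2 * r) ^ l.length := ⟨_, rfl⟩
    have C0 : 0 < C := by rw [hC]; positivity
    obtain ⟨A, hA⟩ : ∃ A : S → ℝ, A = fun s => Nf r l (G s) / C := ⟨_, rfl⟩
    obtain ⟨K, hK⟩ : ∃ K : ℝ → S → ℝ, K = fun θ s =>
      Nf r l (fun y => Dv v (G s) (y + (r * (2 * θ - 1)) • v)) / C := ⟨_, rfl⟩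
    have mA : Measurable A := by rw [hA]; exact (Nf_meas hτ r l W).div_const _
    have mK : ∀ θ : ℝ, Measurable (K θ) := fun θ => by
      rw [hK]
      exact (Nf_meas hτ r l (wshift hτ (wdv hτ W v) _)).div_const _
    have cK : ∀ s, Continuous fun θ => K θ s := fun s => by
      rw [hK]
      exact (Nf_t r l (W.sf.smooth s) v).div_const _
    have mj : Measurable (Function.uncurry K) :=
      measurable_uncurry_of_continuous_of_measurable (u := K) cK mK
    have q0 : 0 ≤ 1 / (1 + 2 * r) := by positivity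
    have q1 : 0 ≤ 2 * r / (1 + 2 * r) := by positivity
    have q2 : 1 / (1 + 2 * r) + 2 * r / (1 + 2 * r) = 1 := by
      rw [← add_div]; exact div_self (by positivity)
    -- the bound for the first part
    have b1 : ∫⁻ s, ENNReal.ofReal (Φ (A s)) ∂P ≤ ∫⁻ s, ENNReal.ofReal (Φ (G s 0)) ∂P := by
      rw [hA, hC]
      exact ih hl' W
    -- the bound for the second part
    have b2 : ∀ θ, ∫⁻ s, ENNReal.ofReal (Φ (K θ s)) ∂P ≤
        ∫⁻ s, ENNReal.ofReal (Φ (G s 0)) ∂P := by
      intro θ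
      have h1 := ih hl' (wshift hτ (wdv hτ W v) ((r * (2 * θ - 1)) • v))
      rw [hK, hC]
      refine h1.trans ?_
      have h2 := st_l hτ (wdv hτ W v) (0 + (r * (2 * θ - 1)) • v) cc
      rw [h2]
      exact szD hτ W hv cΦ eΦ
    have pt : ∀ s, ENNReal.ofReal (Φ (Nf r (v :: l) (G s) / (1 + 2 * r) ^ (v :: l).length)) ≤
        ENNReal.ofReal (1 / (1 + 2 * r)) * ENNReal.ofReal (Φ (A s)) +
          ENNReal.ofReal (2 * r / (1 + 2 * r)) * ∫⁻ θ, ENNReal.ofReal (Φ (K θ s)) ∂ui := by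
      intro s
      have e1 : Nf r (v :: l) (G s) / (1 + 2 * r) ^ (v :: l).length =
          1 / (1 + 2 * r) * A s + 2 * r / (1 + 2 * r) * ∫ θ, K θ s ∂ui := by
        have e2 : ∫ θ, K θ s ∂ui =
            (∫ θ, Nf r l (fun y => Dv v (G s) (y + (r * (2 * θ - 1)) • v)) ∂ui) / C := by
          rw [hK]
          exact integral_div _ _
        rw [e2, hA, List.length_cons, pow_succ, ← hC]
        show (Nf r l (G s) + 2 * r * ∫ θ, Nf r l (fun y =>
          Dv v (G s) (y + (r * (2 * θ - 1)) • v)) ∂ui) / (C * (1 + 2 * r)) = _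
        have : (1 + 2 * r) ≠ 0 := by positivity
        have := C0.ne'
        field_simp
      have h1 := cΦ.2 (Set.mem_univ (A s)) (Set.mem_univ (∫ θ, K θ s ∂ui)) q0 q1 q2
      simp only [smul_eq_mul] at h1
      have h2 := cΦ.map_integral_le (μ := ui) (f := fun θ => K θ s) cc.continuousOn
        isClosed_univ (ae_of_all _ fun _ => Set.mem_univ _) (ui_cont (cK s))
        (ui_cont (cc.comp (cK s)))
      have h3 : Φ (Nf r (v :: l) (G s) / (1 + 2 * r) ^ (v :: l).length) ≤
          1 / (1 + 2 * r) * Φ (A s) + 2 * r / (1 + 2 * r) * ∫ θ, Φ (K θ s) ∂ui := by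
        rw [e1]
        exact h1.trans (add_le_add_right (mul_le_mul_of_nonneg_left h2 q1) _)
      refine (ENNReal.ofReal_le_ofReal h3).trans ?_
      have iK : Integrable (fun θ => Φ (K θ s)) ui := ui_cont (cc.comp (cK s))
      rw [ENNReal.ofReal_add (mul_nonneg q0 (Φ0 _))
        (mul_nonneg q1 (integral_nonneg fun _ => Φ0 _)), ENNReal.ofReal_mul q0,
        ENNReal.ofReal_mul q1, ofReal_integral_eq_lintegral_ofReal iK
          (ae_of_all _ fun _ => Φ0 _)]
    have mΦ : Measurable fun p : ℝ × S => ENNReal.ofReal (Φ (Function.uncurry K p)) :=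
      (cc.measurable.comp mj).ennreal_ofReal
    have mAΦ : Measurable fun s => ENNReal.ofReal (Φ (A s)) :=
      (cc.measurable.comp mA).ennreal_ofReal
    have m2 : Measurable fun s => ∫⁻ θ, ENNReal.ofReal (Φ (K θ s)) ∂ui :=
      Measurable.lintegral_prod_left' (μ := ui) mΦ
    calc ∫⁻ s, ENNReal.ofReal (Φ (Nf r (v :: l) (G s) / (1 + 2 * r) ^ (v :: l).length)) ∂P ≤
        ∫⁻ s, (ENNReal.ofReal (1 / (1 + 2 * r)) * ENNReal.ofReal (Φ (A s)) +
          ENNReal.ofReal (2 * r / (1 + 2 * r)) * ∫⁻ θ, ENNReal.ofReal (Φ (K θ s)) ∂ui) ∂P :=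
          lintegral_mono pt
      _ = ENNReal.ofReal (1 / (1 + 2 * r)) * (∫⁻ s, ENNReal.ofReal (Φ (A s)) ∂P) +
          ENNReal.ofReal (2 * r / (1 + 2 * r)) *
            ∫⁻ s, (∫⁻ θ, ENNReal.ofReal (Φ (K θ s)) ∂ui) ∂P := by
          rw [lintegral_add_right _ (m2.const_mul _), lintegral_const_mul _ m2,
            lintegral_const_mul _ mAΦ]
      _ = ENNReal.ofReal (1 / (1 + 2 * r)) * (∫⁻ s, ENNReal.ofReal (Φ (A s)) ∂P) +
          ENNReal.ofReal (2 * r / (1 + 2 * r)) *
            ∫⁻ θ, (∫⁻ s, ENNReal.ofReal (Φ (K θ s)) ∂P) ∂ui := by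
          congr 2
          exact (lintegral_lintegral_swap mΦ.aemeasurable).symm
      _ ≤ ENNReal.ofReal (1 / (1 + 2 * r)) * (∫⁻ s, ENNReal.ofReal (Φ (G s 0)) ∂P) +
          ENNReal.ofReal (2 * r / (1 + 2 * r)) *
            ∫⁻ _, (∫⁻ s, ENNReal.ofReal (Φ (G s 0)) ∂P) ∂ui :=
          add_le_add (mul_le_mul' le_rfl b1) (mul_le_mul' le_rfl (lintegral_mono b2))
      _ = ∫⁻ s, ENNReal.ofReal (Φ (G s 0)) ∂P := by
          rw [lintegral_const, measure_univ, mul_one, ← add_mul, ← ENNReal.ofReal_add q0 q1, q2,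
            ENNReal.ofReal_one, one_mul]

/-- the cube is reached -/
lemma cube_reach {r : ℝ} {y : E d} (hy : ∀ i, |y i| ≤ r) :
    y ∈ Rc r ((List.finRange d).map fun i => EuclideanSpace.single i (1 : ℝ)) := by
  have key : ∀ l : List (Fin d), (l.map fun i => y i • EuclideanSpace.single i (1 : ℝ)).sum ∈
      Rc r (l.map fun i => EuclideanSpace.single i (1 : ℝ)) := by
    intro l
    induction l with
    | nil => exact rfl
    | cons i l ih =>
      refine ⟨_, ih, y i, hy i, ?_⟩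
      rw [List.map_cons, List.sum_cons, add_comm]
  have h := key (List.finRange d)
  have e : ((List.finRange d).map fun i => y i • EuclideanSpace.single i (1 : ℝ)).sum = y := by
    rw [← Fin.sum_univ_def]
    have := (EuclideanSpace.basisFun (Fin d) ℝ).sum_repr y
    simp only [EuclideanSpace.basisFun_repr, EuclideanSpace.basisFun_apply] at this
    exact this
  rw [e] at h
  exact h

/-- **the maximal inequality** -/
theorem maxc [IsProbabilityMeasure P] (hτ : ∀ x, MeasurePreserving (τ x) P P) {r : ℝ}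
    (hr : 0 < r) {Φ : ℝ → ℝ} (cΦ : ConvexOn ℝ Set.univ Φ) (eΦ : ∀ x, Φ (-x) = Φ x)
    (Φ0 : ∀ x, 0 ≤ Φ x) {G : S → E d → ℝ} (W : Wave P τ G) :
    ∃ N : S → ℝ, Measurable N ∧ (∀ s y, (∀ i, |y i| ≤ r) → |G s y| ≤ N s) ∧
      ∫⁻ s, ENNReal.ofReal (Φ (N s / (1 + 2 * r) ^ d)) ∂P ≤
        ∫⁻ s, ENNReal.ofReal (Φ (G s 0)) ∂P := by
  refine ⟨fun s => Nf r ((List.finRange d).map fun i => EuclideanSpace.single i (1 : ℝ)) (G s),
    Nf_meas hτ r _ W, fun s y hy => Nf_pt hr _ (W.sf.smooth s) y (cube_reach hy), ?_⟩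
  have h := Nf_law hτ hr cΦ eΦ Φ0
    ((List.finRange d).map fun i => EuclideanSpace.single i (1 : ℝ)) (by
      intro v hv
      obtain ⟨i, _, rfl⟩ := List.mem_map.1 hv
      simp) W
  rw [List.length_map, List.length_finRange] at h
  exact h

end

end Pool.Agent.X127.SW
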