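import Pool.Agent.X127.SW.L2
import Pool.Agent.X127.SW.Boch

/-! # Stationary waves: the spectral measure lives on the unit sphere -/

set_option autoImplicit false
open MeasureTheory Filter Topology ProbabilityTheory
open scoped ContDiff ENNReal

namespace Pool.Agent.X127.SW

open Pool.Agent.Y139.SW
open Pool.Agent.H506R3.Mag (PSDFun)

noncomputable section

/-- Fatou -/
lemma fat {Ω : Type*} [MeasurableSpace Ω] {μ : Measure Ω} {f : ℕ → Ω → ℝ} {g : Ω → ℝ} {c : ℝ}
    (f0 : ∀ n ξ, 0 ≤ f n ξ) (mf : ∀ n, Measurable (f n)) (fi : ∀ n, Integrable (f n) μ)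
    (fc : ∀ n, ∫ ξ, f n ξ ∂μ ≤ c) (lim : ∀ ξ, Tendsto (fun n => f n ξ) atTop (𝓝 (g ξ))) :
    Integrable g μ ∧ ∫ ξ, g ξ ∂μ ≤ c := by
  have mg : Measurable g := measurable_of_tendsto_metrizable mf (tendsto_pi_nhds.2 lim)
  have g0 : ∀ ξ, 0 ≤ g ξ := fun ξ => ge_of_tendsto' (lim ξ) fun n => f0 n ξ
  have c0 : 0 ≤ c := (integral_nonneg (f0 0)).trans (fc 0)
  have h1 : ∫⁻ ξ, ENNReal.ofReal (g ξ) ∂μ ≤ ENNReal.ofReal c := by
    have e : ∀ ξ, ENNReal.ofReal (g ξ) = liminf (fun n => ENNReal.ofReal (f n ξ)) atTop :=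
      fun ξ => ((ENNReal.tendsto_ofReal (lim ξ)).liminf_eq).symm
    simp only [e]
    refine (lintegral_liminf_le fun n => (mf n).ennreal_ofReal).trans ?_
    refine liminf_le_of_le (by isBoundedDefault) fun b hb => ?_
    obtain ⟨n, hn⟩ := hb.exists
    refine hn.trans ?_
    rw [← ofReal_integral_eq_lintegral_ofReal (fi n) (ae_of_all _ (f0 n))]
    exact ENNReal.ofReal_le_ofReal (fc n)
  have fin : ∫⁻ ξ, ENNReal.ofReal (g ξ) ∂μ ≠ ⊤ := ne_top_of_le_ne_top (by simp) h1
  have ig : Integrable g μ := (lintegral_ofReal_ne_top_iff_integrable mg.aestronglyMeasurable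
    (ae_of_all _ g0)).1 fin
  refine ⟨ig, ?_⟩
  rw [← ofReal_integral_eq_lintegral_ofReal ig (ae_of_all _ g0)] at h1
  exact (ENNReal.ofReal_le_ofReal_iff c0).1 h1

variable {d : ℕ} {S : Type*} [MeasurableSpace S] {P : Measure S} {τ : E d → S → S}

/-- the covariance -/
def cov (P : Measure S) (G : S → E d → ℝ) (x : E d) : ℝ := ∫ s, G s 0 * G s x ∂P

lemma mulI (hτ : ∀ x, MeasurePreserving (τ x) P P) {G H : S → E d → ℝ} (W : Wave P τ G)
    (W' : Wave P τ H) (x y : E d) : Integrable (fun s => G s x * H s y) P :=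
  mul_l2 (W.sf.meas x) (W'.sf.meas y) (sqi hτ W x) (sqi hτ W' y)

lemma cov_xy (hτ : ∀ x, MeasurePreserving (τ x) P P) {G : S → E d → ℝ} (W : Wave P τ G)
    (x y : E d) : ∫ s, G s x * G s y ∂P = cov P G (y - x) := by
  have m : Measurable fun s => G s 0 * G s (y - x) := (W.sf.meas _).mul (W.sf.meas _)
  have h1 := integral_map (μ := P) (hτ x).measurable.aemeasurable
    (f := fun s => G s 0 * G s (y - x)) m.aestronglyMeasurable
  rw [(hτ x).map_eq] at h1
  rw [cov, h1]
  congr 1; funext s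
  rw [W.sf.cov, W.sf.cov, zero_add, sub_add_cancel]

lemma cov_neg (hτ : ∀ x, MeasurePreserving (τ x) P P) {G : S → E d → ℝ} (W : Wave P τ G)
    (x : E d) : cov P G (-x) = cov P G x := by
  have h1 := cov_xy hτ W x 0
  have h2 := cov_xy hτ W 0 x
  rw [zero_sub] at h1
  rw [sub_zero] at h2
  rw [← h1, ← h2]
  congr 1; funext s; ring

lemma cov_zero {G : S → E d → ℝ} : cov P G 0 = ∫ s, G s 0 ^ 2 ∂P := by
  unfold cov
  congr 1; funext s; ring

lemma sum_sq [IsProbabilityMeasure P] (hτ : ∀ x, MeasurePreserving (τ x) P P) {G : S → E d → ℝ}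
    (W : Wave P τ G) {ι : Type*} (t : Finset ι) (c : ι → ℝ) (a : ι → E d) :
    Integrable (fun s => (∑ i ∈ t, c i * G s (a i)) ^ 2) P ∧
    ∫ s, (∑ i ∈ t, c i * G s (a i)) ^ 2 ∂P =
      ∑ i ∈ t, ∑ j ∈ t, c i * c j * cov P G (a j - a i) := by
  have e : ∀ s, (∑ i ∈ t, c i * G s (a i)) ^ 2 =
      ∑ i ∈ t, ∑ j ∈ t, c i * c j * (G s (a i) * G s (a j)) := by
    intro s
    rw [sq, Finset.sum_mul_sum]
    exact Finset.sum_congr rfl fun i _ => Finset.sum_congr rfl fun j _ => by ring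
  simp only [e]
  have i1 : ∀ i j, Integrable (fun s => c i * c j * (G s (a i) * G s (a j))) P := fun i j =>
    (mulI hτ W W _ _).const_mul _
  refine ⟨integrable_finsetSum _ fun i _ => integrable_finsetSum _ fun j _ => i1 i j, ?_⟩
  rw [integral_finsetSum _ fun i _ => integrable_finsetSum _ fun j _ => i1 i j]
  refine Finset.sum_congr rfl fun i _ => ?_
  rw [integral_finsetSum _ fun j _ => i1 i j]
  refine Finset.sum_congr rfl fun j _ => ?_
  rw [integral_const_mul, cov_xy hτ W]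

/-- weighted Cauchy-Schwarz -/
lemma ab {a b : S → ℝ} (ma : Measurable a) (mb : Measurable b)
    (ia : Integrable (fun s => a s ^ 2) P) (ib : Integrable (fun s => b s ^ 2) P) {A B t : ℝ}
    (t0 : 0 < t) (hA : ∫ s, a s ^ 2 ∂P ≤ A) (hB : ∫ s, b s ^ 2 ∂P ≤ B) :
    |∫ s, a s * b s ∂P| ≤ (A / t + t * B) / 2 := by
  have i1 : Integrable (fun s => (a s ^ 2 / t + t * b s ^ 2) / 2) P :=
    ((ia.div_const t).add (ib.const_mul t)).div_const 2
  have h1 : |∫ s, a s * b s ∂P| ≤ ∫ s, (a s ^ 2 / t + t * b s ^ 2) / 2 ∂P := by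
    refine abs_integral_le_integral_abs.trans (integral_mono (mul_l2 ma mb ia ib).abs i1 fun s => ?_)
    show |a s * b s| ≤ (a s ^ 2 / t + t * b s ^ 2) / 2
    rw [le_div_iff₀ two_pos]
    have : a s ^ 2 / t + t * b s ^ 2 = (a s ^ 2 + t ^ 2 * b s ^ 2) / t := by
      field_simp
    rw [this, le_div_iff₀ t0]
    rw [abs_mul, ← sq_abs (a s), ← sq_abs (b s)]
    nlinarith [sq_nonneg (|a s| - t * |b s|)]
  refine h1.trans ?_
  rw [integral_div, integral_add (ia.div_const t) (ib.const_mul t), integral_div,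
    integral_const_mul]
  have : (∫ s, a s ^ 2 ∂P) / t ≤ A / t := by gcongr
  have : t * (∫ s, b s ^ 2 ∂P) ≤ t * B := by gcongr
  linarith

lemma cov_cont [IsProbabilityMeasure P] (hτ : ∀ x, MeasurePreserving (τ x) P P)
    {G : S → E d → ℝ} (W : Wave P τ G) : Continuous (cov P G) := by
  obtain ⟨m, hm⟩ : ∃ m, m = ∫ s, G s 0 ^ 2 ∂P := ⟨_, rfl⟩
  have m0 : 0 ≤ m := by rw [hm]; exact integral_nonneg fun s => sq_nonneg _
  have key : ∀ x v, |cov P G (x + v) - cov P G x| ≤ m * ‖v‖ := by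
    intro x v
    rcases eq_or_ne v 0 with h | h
    · rw [h, add_zero, sub_self, abs_zero, norm_zero, mul_zero]
    · have hv : 0 < ‖v‖ := norm_pos_iff.2 h
      have e : cov P G (x + v) - cov P G x = ∫ s, (G s (x + v) - G s x) * G s 0 ∂P := by
        unfold cov
        rw [← integral_sub (mulI hτ W W _ _) (mulI hτ W W _ _)]
        congr 1; funext s; ring
      rw [e]
      have l := lemA hτ W x v
      rw [← hm] at l
      have := ab ((W.sf.meas _).sub (W.sf.meas _)) (W.sf.meas 0) l.1 W.l2 hv l.2 hm.ge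
      refine this.trans (le_of_eq ?_)
      field_simp
      ring
  have lip : LipschitzWith (Real.toNNReal m) (cov P G) := by
    refine LipschitzWith.of_dist_le_mul fun x y => ?_
    rw [Real.dist_eq, dist_eq_norm, Real.coe_toNNReal _ m0]
    have := key y (x - y)
    rw [add_sub_cancel] at this
    exact this
  exact lip.continuous

/-- the spectral measure -/
def Spec (P : Measure S) (G : S → E d → ℝ) (σ : Measure (E d)) : Prop :=
  ∀ x, ∫ ξ, Real.cos (inner ℝ ξ x) ∂σ = cov P G x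

lemma cosI (σ : Measure (E d)) [IsFiniteMeasure σ] (x : E d) :
    Integrable (fun ξ => Real.cos (inner ℝ ξ x)) σ := by
  refine Integrable.mono' (integrable_const (1 : ℝ)) ?_ (ae_of_all _ fun ξ => ?_)
  · exact (Real.continuous_cos.comp (continuous_id.inner continuous_const)).aestronglyMeasurable
  · rw [Real.norm_eq_abs]; exact Real.abs_cos_le_one _

lemma cf_re (ρ : Measure (E d)) [IsFiniteMeasure ρ] (x : E d) :
    (charFun ρ x).re = ∫ ξ, Real.cos (inner ℝ ξ x) ∂ρ := by
  rw [charFun_apply]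
  have hi : Integrable (fun ξ : E d => Complex.exp (inner ℝ ξ x * Complex.I)) ρ := by
    refine Integrable.of_bound (C := 1) (by fun_prop) (Eventually.of_forall fun ξ => ?_)
    rw [Complex.norm_exp_ofReal_mul_I]
  have h2 := integral_re hi
  simp only [RCLike.re_to_complex] at h2
  rw [← h2]
  refine integral_congr_ae (Eventually.of_forall fun ξ => ?_)
  simp only [Complex.exp_ofReal_mul_I_re]

theorem exists_spec [IsProbabilityMeasure P] (hτ : ∀ x, MeasurePreserving (τ x) P P)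
    {G : S → E d → ℝ} (W : Wave P τ G) : ∃ σ : Measure (E d), IsFiniteMeasure σ ∧ Spec P G σ := by
  obtain ⟨m, hm⟩ : ∃ m, m = ∫ s, G s 0 ^ 2 ∂P := ⟨_, rfl⟩
  have m0 : 0 ≤ m := by rw [hm]; exact integral_nonneg fun s => sq_nonneg _
  rcases m0.eq_or_lt with h | h
  · refine ⟨0, inferInstance, fun x => ?_⟩
    rw [integral_zero_measure]
    have h2 : (fun s => G s 0 ^ 2) =ᵐ[P] 0 :=
      (integral_eq_zero_iff_of_nonneg (fun s => sq_nonneg _) W.l2).1 (hm.symm.trans h.symm)
    unfold cov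
    rw [integral_eq_zero_of_ae]
    filter_upwards [h2] with s hs
    have : G s 0 = 0 := by
      have h3 : G s 0 ^ 2 = 0 := hs
      exact pow_eq_zero_iff (two_ne_zero) |>.1 h3
    rw [this]; simp
  · obtain ⟨ρ, hρ, hc⟩ := bochner_full (V := E d) (C := fun x => cov P G x / m) (by
        intro t w
        have := sum_sq hτ W t (fun x => w x) (fun x => x)
        have h0 : 0 ≤ ∫ s, (∑ i ∈ t, w i * G s i) ^ 2 ∂P := integral_nonneg fun s => sq_nonneg _
        rw [this.2] at h0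
        have e : ∑ x ∈ t, ∑ y ∈ t, w x * w y * (cov P G (x - y) / m) =
            (∑ x ∈ t, ∑ y ∈ t, w x * w y * cov P G (y - x)) / m := by
          rw [Finset.sum_div]
          refine Finset.sum_congr rfl fun x _ => ?_
          rw [Finset.sum_div]
          refine Finset.sum_congr rfl fun y _ => ?_
          rw [← neg_sub y x, cov_neg hτ W]
          ring
        rw [e]
        exact div_nonneg h0 h.le)
      ((cov_cont hτ W).div_const m) (fun x => by rw [cov_neg hτ W])
      (by rw [cov_zero, ← hm]; exact div_self h.ne')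
    refine ⟨ENNReal.ofReal m • ρ, ?_, fun x => ?_⟩
    · exact Measure.smul_finite _ (by simp)
    · rw [integral_smul_measure, ← cf_re, hc, ENNReal.toReal_ofReal m0]
      simp only [Complex.ofReal_re, smul_eq_mul]
      field_simp

/-- the spectral measure of a partial derivative -/
theorem spec_der [IsProbabilityMeasure P] (hτ : ∀ x, MeasurePreserving (τ x) P P)
    {G : S → E d → ℝ} (W : Wave P τ G) {σ : Measure (E d)} [IsFiniteMeasure σ]
    (hσ : Spec P G σ) (i : Fin d) :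
    Integrable (fun ξ : E d => ξ i ^ 2) σ ∧
    ∀ x, ∫ ξ, ξ i ^ 2 * Real.cos (inner ℝ ξ x) ∂σ = cov P (fun s => D i (G s)) x := by
  obtain ⟨e, he⟩ : ∃ e : E d, e = EuclideanSpace.single i 1 := ⟨_, rfl⟩
  have ne : ‖e‖ = 1 := by rw [he]; simp
  have ie : ∀ ξ : E d, inner ℝ ξ e = ξ i := fun ξ => by
    rw [he, EuclideanSpace.inner_single_right]; simp
  obtain ⟨m, hm⟩ : ∃ m, m = ∫ s, G s 0 ^ 2 ∂P := ⟨_, rfl⟩
  have m0 : 0 ≤ m := by rw [hm]; exact integral_nonneg fun s => sq_nonneg _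
  have WD := W.der hτ i
  have id1 : ∀ (h : ℝ) (x : E d), h ≠ 0 →
      ∫ ξ : E d, (2 - 2 * Real.cos (h * ξ i)) / h ^ 2 * Real.cos (inner ℝ ξ x) ∂σ =
      ∫ s, ((G s (0 + h • e) - G s 0) / h) * ((G s (x + h • e) - G s x) / h) ∂P := by
    intro h x h0
    have e1 : ∀ ξ : E d, (2 - 2 * Real.cos (h * ξ i)) / h ^ 2 * Real.cos (inner ℝ ξ x) =
        (2 * Real.cos (inner ℝ ξ x) - Real.cos (inner ℝ ξ (x + h • e)) -
          Real.cos (inner ℝ ξ (x - h • e))) / h ^ 2 := by
      intro ξ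
      rw [inner_add_right, inner_sub_right, inner_smul_right, ie, Real.cos_add, Real.cos_sub]
      ring
    simp only [e1]
    have j1 : Integrable (fun ξ : E d => 2 * Real.cos (inner ℝ ξ x)) σ := (cosI σ x).const_mul 2
    have j2 := cosI σ (x + h • e)
    have j3 := cosI σ (x - h • e)
    have j4 : Integrable (fun ξ : E d => 2 * Real.cos (inner ℝ ξ x) -
      Real.cos (inner ℝ ξ (x + h • e))) σ := j1.sub j2
    rw [integral_div, integral_sub j4 j3, integral_sub j1 j2, integral_const_mul, hσ, hσ, hσ]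
    have e2 : ∀ s, ((G s (0 + h • e) - G s 0) / h) * ((G s (x + h • e) - G s x) / h) =
        ((G s (h • e) * G s (x + h • e) - G s (h • e) * G s x) -
          (G s 0 * G s (x + h • e) - G s 0 * G s x)) / h ^ 2 := by
      intro s
      rw [zero_add]
      field_simp
      try ring
    simp only [e2]
    have k := fun a b => mulI hτ W W a b
    have k1 : Integrable (fun s => G s (h • e) * G s (x + h • e) - G s (h • e) * G s x) P :=
      (k _ _).sub (k _ _)
    have k2 : Integrable (fun s => G s 0 * G s (x + h • e) - G s 0 * G s x) P :=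
      (k _ _).sub (k _ _)
    rw [integral_div, integral_sub k1 k2, integral_sub (k _ _) (k _ _),
      integral_sub (k _ _) (k _ _), cov_xy hτ W, cov_xy hτ W, cov_xy hτ W, cov_xy hτ W]
    simp only [add_sub_cancel_right, sub_zero]
    ring
  have lim1 : ∀ (h : ℝ) (x : E d), 0 < h →
      |(∫ s, ((G s (0 + h • e) - G s 0) / h) * ((G s (x + h • e) - G s x) / h) ∂P) -
        cov P (fun s => D i (G s)) x| ≤ 2 * h * m := by
    intro h x h0
    have Q2 : ∀ y, Integrable (fun s => ((G s (y + h • e) - G s y) / h) ^ 2) P ∧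
        ∫ s, ((G s (y + h • e) - G s y) / h) ^ 2 ∂P ≤ m := by
      intro y
      have l := lemA hτ W y (h • e)
      simp only [div_pow]
      refine ⟨l.1.div_const _, ?_⟩
      rw [integral_div, div_le_iff₀ (by positivity)]
      refine l.2.trans (le_of_eq ?_)
      rw [norm_smul, ne, mul_one, Real.norm_eq_abs, sq_abs, ← hm]
      ring
    have QD : ∀ y, Integrable (fun s => ((G s (y + h • e) - G s y) / h - D i (G s) y) ^ 2) P ∧
        ∫ s, ((G s (y + h • e) - G s y) / h - D i (G s) y) ^ 2 ∂P ≤ h ^ 2 * m := by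
      intro y
      have l := lemB hτ W y (h • e)
      have e3 : ∀ s, ((G s (y + h • e) - G s y) / h - D i (G s) y) ^ 2 =
          (G s (y + h • e) - G s y - Dv (h • e) (G s) y) ^ 2 / h ^ 2 := by
        intro s
        have : Dv (h • e) (G s) y = h * D i (G s) y := by
          show fderiv ℝ (G s) y (h • e) = _
          rw [map_smul, he]; rfl
        rw [this]
        field_simp
      simp only [e3]
      refine ⟨l.1.div_const _, ?_⟩
      rw [integral_div, div_le_iff₀ (by positivity)]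
      refine l.2.trans (le_of_eq ?_)
      rw [norm_smul, ne, mul_one, Real.norm_eq_abs, ← hm]
      have : |h| ^ 4 = h ^ 4 := by rw [abs_of_pos h0]
      rw [this]; ring
    have DD : ∫ s, D i (G s) 0 ^ 2 ∂P ≤ m := by
      have := edv hτ W e
      rw [ne, ← hm, he] at this
      simpa [dv_single] using this
    have mQ : ∀ y, Measurable fun s => (G s (y + h • e) - G s y) / h := fun y =>
      ((W.sf.meas _).sub (W.sf.meas _)).div_const _
    have mD : ∀ y, Measurable fun s => D i (G s) y := fun y => WD.sf.meas y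
    have mQD : ∀ y, Measurable fun s => (G s (y + h • e) - G s y) / h - D i (G s) y := fun y =>
      (mQ y).sub (mD y)
    have b1 := ab (t := h) (mQD 0) (mQ x) (QD 0).1 (Q2 x).1 h0 (QD 0).2 (Q2 x).2
    have b2 := ab (t := h) (mQD x) (mD 0) (QD x).1 WD.l2 h0 (QD x).2 DD
    have i1 := mul_l2 (mQD 0) (mQ x) (QD 0).1 (Q2 x).1
    have i2 := mul_l2 (mQD x) (mD 0) (QD x).1 WD.l2
    have i3 := mul_l2 (mQ 0) (mQ x) (Q2 0).1 (Q2 x).1
    have e4 : (∫ s, ((G s (0 + h • e) - G s 0) / h) * ((G s (x + h • e) - G s x) / h) ∂P) -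
        cov P (fun s => D i (G s)) x =
        (∫ s, ((G s (0 + h • e) - G s 0) / h - D i (G s) 0) *
          ((G s (x + h • e) - G s x) / h) ∂P) +
        ∫ s, ((G s (x + h • e) - G s x) / h - D i (G s) x) * D i (G s) 0 ∂P := by
      unfold cov
      rw [← integral_sub i3 (mulI hτ WD WD 0 x), ← integral_add i1 i2]
      congr 1; funext s
      ring
    rw [e4]
    refine (abs_add_le _ _).trans ((add_le_add b1 b2).trans (le_of_eq ?_))
    field_simp
    ring
  -- the sequence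
  obtain ⟨h, hh⟩ : ∃ h : ℕ → ℝ, h = fun n : ℕ => ((n : ℝ) + 1)⁻¹ := ⟨_, rfl⟩
  have hp : ∀ n, 0 < h n := fun n => by rw [hh]; positivity
  have hl : Tendsto h atTop (𝓝 0) := by
    rw [hh]
    exact tendsto_inv_atTop_zero.comp
      (tendsto_atTop_add_const_right _ 1 tendsto_natCast_atTop_atTop)
  have h1 : ∀ n, h n ≤ 1 := fun n => by
    rw [hh]
    exact inv_le_one_of_one_le₀ (by have : (0 : ℝ) ≤ n := n.cast_nonneg; linarith)
  obtain ⟨q, hq⟩ : ∃ q : ℕ → E d → ℝ, q = fun n ξ => (2 - 2 * Real.cos (h n * ξ i)) / h n ^ 2 :=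
    ⟨_, rfl⟩
  have mc : Measurable fun ξ : E d => ξ i := by fun_prop
  have mq : ∀ n, Measurable (q n) := fun n => by
    rw [hq]
    exact (measurable_const.sub (measurable_const.mul (Real.measurable_cos.comp
      (measurable_const.mul mc)))).div_const _
  have q0 : ∀ n ξ, 0 ≤ q n ξ := fun n ξ => by
    rw [hq]
    refine div_nonneg ?_ (sq_nonneg _)
    have := Real.cos_le_one (h n * ξ i)
    linarith
  have qle : ∀ n ξ, q n ξ ≤ ξ i ^ 2 := fun n ξ => by
    rw [hq]
    show (2 - 2 * Real.cos (h n * ξ i)) / h n ^ 2 ≤ ξ i ^ 2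
    rw [div_le_iff₀ (by have := hp n; positivity)]
    have := Real.one_sub_sq_div_two_le_cos (x := h n * ξ i)
    nlinarith
  have ql : ∀ ξ, Tendsto (fun n => q n ξ) atTop (𝓝 (ξ i ^ 2)) := by
    intro ξ
    have hd : HasDerivAt (fun t : ℝ => 2 * Real.sin (t * (ξ i / 2))) (ξ i) 0 := by
      have h2 : HasDerivAt (fun t : ℝ => t * (ξ i / 2)) (1 * (ξ i / 2)) 0 :=
        (hasDerivAt_id (0 : ℝ)).mul_const _
      have h3 := ((Real.hasDerivAt_sin (0 * (ξ i / 2))).comp 0 h2).const_mul 2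
      refine h3.congr_deriv ?_
      rw [zero_mul, Real.cos_zero]; ring
    have h4 := hd.tendsto_slope_zero
    have h5 : Tendsto h atTop (𝓝[≠] 0) := by
      rw [tendsto_nhdsWithin_iff]
      exact ⟨hl, Eventually.of_forall fun n => (hp n).ne'⟩
    have h6 := (h4.comp h5).pow 2
    refine h6.congr fun n => ?_
    simp only [Function.comp, zero_add, zero_mul, Real.sin_zero, mul_zero, sub_zero, smul_eq_mul]
    rw [hq]
    show ((h n)⁻¹ * (2 * Real.sin (h n * (ξ i / 2)))) ^ 2 =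
      (2 - 2 * Real.cos (h n * ξ i)) / h n ^ 2
    have e5 : Real.cos (h n * ξ i) = 1 - 2 * Real.sin (h n * (ξ i / 2)) ^ 2 := by
      have : h n * ξ i = 2 * (h n * (ξ i / 2)) := by ring
      rw [this, Real.cos_two_mul, Real.cos_sq']; ring
    rw [e5]
    have := (hp n).ne'
    field_simp
    ring
  have qi : ∀ n, Integrable (q n) σ := by
    intro n
    have : Integrable (fun ξ : E d => (2 - 2 * Real.cos (h n * ξ i)) / h n ^ 2) σ := by
      refine Integrable.div_const ((integrable_const _).sub (Integrable.const_mul ?_ _)) _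
      have := cosI σ (h n • e)
      refine this.congr (ae_of_all _ fun ξ => ?_)
      show Real.cos (inner ℝ ξ (h n • e)) = Real.cos (h n * ξ i)
      rw [inner_smul_right, ie]
    rw [hq]; exact this
  have qc : ∀ n x, |(∫ ξ, q n ξ * Real.cos (inner ℝ ξ x) ∂σ) -
      cov P (fun s => D i (G s)) x| ≤ 2 * h n * m := by
    intro n x
    have := lim1 (h n) x (hp n)
    rw [← id1 (h n) x (hp n).ne'] at this
    rw [hq]; exact this
  have F := fat (μ := σ) (c := |cov P (fun s => D i (G s)) 0| + 2 * m) q0 mq qi (fun n => by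
    have := qc n 0
    simp only [inner_zero_right, Real.cos_zero, mul_one] at this
    have h3 := (abs_le.1 this).2
    have h4 := le_abs_self (cov P (fun s => D i (G s)) 0)
    have h5 : 2 * h n * m ≤ 2 * m := by
      have := h1 n
      nlinarith
    linarith) ql
  refine ⟨F.1, fun x => ?_⟩
  have T1 : Tendsto (fun n => ∫ ξ, q n ξ * Real.cos (inner ℝ ξ x) ∂σ) atTop
      (𝓝 (∫ ξ, ξ i ^ 2 * Real.cos (inner ℝ ξ x) ∂σ)) := by
    refine tendsto_integral_of_dominated_convergence (fun ξ => ξ i ^ 2) (fun n => ?_) F.1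
      (fun n => ae_of_all _ fun ξ => ?_) (ae_of_all _ fun ξ => ?_)
    · exact ((mq n).mul (Real.measurable_cos.comp (by fun_prop))).aestronglyMeasurable
    · rw [Real.norm_eq_abs, abs_mul, abs_of_nonneg (q0 n ξ)]
      calc q n ξ * |Real.cos (inner ℝ ξ x)| ≤ ξ i ^ 2 * 1 :=
            mul_le_mul (qle n ξ) (Real.abs_cos_le_one _) (abs_nonneg _) (sq_nonneg _)
        _ = ξ i ^ 2 := mul_one _
    · exact (ql ξ).mul_const _
  have T2 : Tendsto (fun n => ∫ ξ, q n ξ * Real.cos (inner ℝ ξ x) ∂σ) atTop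
      (𝓝 (cov P (fun s => D i (G s)) x)) := by
    rw [tendsto_iff_norm_sub_tendsto_zero]
    refine squeeze_zero (fun n => norm_nonneg _) (fun n => qc n x) ?_
    have : Tendsto (fun n => 2 * h n * m) atTop (𝓝 (2 * 0 * m)) :=
      (hl.const_mul 2).mul_const m
    simpa using this
  exact tendsto_nhds_unique T1 T2

/-- **The spectral measure of a stationary wave lives on the unit sphere.** -/
theorem spec_sphere [IsProbabilityMeasure P] (hτ : ∀ x, MeasurePreserving (τ x) P P)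
    {G : S → E d → ℝ} (W : Wave P τ G) {σ : Measure (E d)} [IsFiniteMeasure σ]
    (hσ : Spec P G σ) : ∀ᵐ ξ ∂σ, ‖ξ‖ = 1 := by
  have W1 := fun i => W.der hτ i
  have W2 := fun i j => (W1 i).der hτ j
  have s1 := fun i => spec_der hτ W hσ i
  have mc : ∀ i, Measurable fun ξ : E d => ξ i := fun i => by fun_prop
  have key : ∀ i, (∀ j, Integrable (fun ξ : E d => ξ i ^ 2 * ξ j ^ 2) σ) ∧
      ∑ j, ∫ ξ : E d, ξ i ^ 2 * ξ j ^ 2 ∂σ = ∫ ξ : E d, ξ i ^ 2 ∂σ := by
    intro i
    obtain ⟨ρ, hρ⟩ : ∃ ρ : Measure (E d), ρ = σ.withDensity fun ξ => ENNReal.ofReal (ξ i ^ 2) :=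
      ⟨_, rfl⟩
    have fρ : IsFiniteMeasure ρ := by rw [hρ]; exact isFiniteMeasure_withDensity_ofReal (s1 i).1.2
    have iρ : ∀ g : E d → ℝ, ∫ ξ, g ξ ∂ρ = ∫ ξ, ξ i ^ 2 * g ξ ∂σ := by
      intro g
      rw [hρ, integral_withDensity_eq_integral_toReal_smul ((mc i).pow_const 2).ennreal_ofReal
        (ae_of_all _ fun _ => ENNReal.ofReal_lt_top)]
      congr 1; funext ξ
      rw [ENNReal.toReal_ofReal (sq_nonneg _), smul_eq_mul]
    have sp : Spec P (fun s => D i (G s)) ρ := fun x => by rw [iρ]; exact (s1 i).2 x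
    have s2 := fun j => spec_der hτ (W1 i) sp j
    refine ⟨fun j => ?_, ?_⟩
    · have := (s2 j).1
      rw [hρ, integrable_withDensity_iff_integrable_smul' ((mc i).pow_const 2).ennreal_ofReal
        (ae_of_all _ fun _ => ENNReal.ofReal_lt_top)] at this
      refine this.congr (ae_of_all _ fun ξ => ?_)
      show (ENNReal.ofReal (ξ i ^ 2)).toReal • (ξ j ^ 2) = ξ i ^ 2 * ξ j ^ 2
      rw [ENNReal.toReal_ofReal (sq_nonneg _), smul_eq_mul]
    · have e1 : ∀ j, ∫ ξ : E d, ξ i ^ 2 * ξ j ^ 2 ∂σ = ∫ s, D j (D i (G s)) 0 ^ 2 ∂P := by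
        intro j
        have := (s2 j).2 0
        simp only [inner_zero_right, Real.cos_zero, mul_one] at this
        rw [iρ, cov_zero] at this
        exact this
      simp only [e1]
      rw [(W1 i).energy hτ]
      have := (s1 i).2 0
      simp only [inner_zero_right, Real.cos_zero, mul_one] at this
      rw [this, cov_zero]
  have t0 : ∫ ξ : E d, (1 : ℝ) ∂σ = ∫ s, G s 0 ^ 2 ∂P := by
    have := hσ 0
    simp only [inner_zero_right, Real.cos_zero] at this
    rw [this, cov_zero]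
  have t1 : ∑ i, ∫ ξ : E d, ξ i ^ 2 ∂σ = ∫ s, G s 0 ^ 2 ∂P := by
    rw [← W.energy hτ]
    refine Finset.sum_congr rfl fun i _ => ?_
    have := (s1 i).2 0
    simp only [inner_zero_right, Real.cos_zero, mul_one] at this
    rw [this, cov_zero]
  have t2 : ∑ i, ∑ j, ∫ ξ : E d, ξ i ^ 2 * ξ j ^ 2 ∂σ = ∫ s, G s 0 ^ 2 ∂P := by
    rw [← t1]
    exact Finset.sum_congr rfl fun i _ => (key i).2
  have ns : ∀ ξ : E d, ‖ξ‖ ^ 2 = ∑ i, ξ i ^ 2 := fun ξ => by
    rw [EuclideanSpace.norm_sq_eq]; simp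
  have i2 : Integrable (fun ξ : E d => ∑ i, ∑ j, ξ i ^ 2 * ξ j ^ 2) σ :=
    integrable_finsetSum _ fun i _ => integrable_finsetSum _ fun j _ => (key i).1 j
  have i1 : Integrable (fun ξ : E d => ∑ i, ξ i ^ 2) σ :=
    integrable_finsetSum _ fun i _ => (s1 i).1
  have ex : ∀ ξ : E d, (‖ξ‖ ^ 2 - 1) ^ 2 =
      ((∑ i, ∑ j, ξ i ^ 2 * ξ j ^ 2) - 2 * ∑ i, ξ i ^ 2) + 1 := by
    intro ξ
    rw [ns, ← Finset.sum_mul_sum]
    ring
  have i3 : Integrable (fun ξ : E d => (∑ i, ∑ j, ξ i ^ 2 * ξ j ^ 2) - 2 * ∑ i, ξ i ^ 2) σ :=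
    i2.sub (i1.const_mul 2)
  have i4 : Integrable (fun ξ : E d => (‖ξ‖ ^ 2 - 1) ^ 2) σ := by
    simp only [ex]
    exact i3.add (integrable_const _)
  have z : ∫ ξ : E d, (‖ξ‖ ^ 2 - 1) ^ 2 ∂σ = 0 := by
    simp only [ex]
    rw [integral_add i3 (integrable_const _), integral_sub i2 (i1.const_mul 2),
      integral_const_mul, t0,
      integral_finsetSum _ fun i _ => integrable_finsetSum _ fun j _ => (key i).1 j,
      integral_finsetSum _ fun i _ => (s1 i).1, t1]
    simp only [integral_finsetSum _ fun j _ => (key _).1 j]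
    rw [t2]
    ring
  have := (integral_eq_zero_iff_of_nonneg (fun ξ => sq_nonneg _) i4).1 z
  filter_upwards [this] with ξ hξ
  have h1 : (‖ξ‖ ^ 2 - 1) ^ 2 = 0 := hξ
  have h2 : ‖ξ‖ ^ 2 - 1 = 0 := by exact pow_eq_zero_iff (two_ne_zero) |>.1 h1
  have h3 : ‖ξ‖ ^ 2 = 1 := by linarith
  exact (pow_eq_one_iff_of_nonneg (norm_nonneg _) two_ne_zero).1 h3

end

end Pool.Agent.X127.SW
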