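import Pool.Agent.X127.SW.Mxi
import Pool.Agent.X127.SW.Red

/-! # The Bernstein–Szegő inequality in law for vector valued waves -/

set_option autoImplicit false
open MeasureTheory Filter Topology
open scoped ContDiff ENNReal

namespace Pool.Agent.X127.SW

open Pool.Agent.Y139.SW

noncomputable section

variable {d m : ℕ} {S : Type*} [MeasurableSpace S] {P : Measure S} {τ : E d → S → S}

/-- almost sure convergence of the interpolation sums along a universal sequence -/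
theorem ae_lim [IsProbabilityMeasure P] (hτ : ∀ x, MeasurePreserving (τ x) P P) {α : ℝ}
    (hs : Real.sin α ≠ 0) : ∃ t : ℕ → Finset ℤ, ∀ G : S → E d → ℝ, Wave P τ G →
      ∀ v : E d, ‖v‖ = 1 → ∀ᵐ s ∂P,
      Tendsto (fun n => ∑ k ∈ t n, ck α k * G s ((k * Real.pi - α) • v)) atTop
        (𝓝 (Real.sin α * Dv v (G s) 0 - Real.cos α * G s 0)) := by
  have ex : ∀ n : ℕ, ∃ t : Finset ℤ, 1 - ∑ k ∈ t, wk α k ≤ (1 / 2) ^ n := by
    intro n
    have h1 : ∀ᶠ t : Finset ℤ in atTop, 1 - (1 / 2) ^ n < ∑ k ∈ t, wk α k :=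
      (wk_one hs).eventually_const_lt (by
        have : (0 : ℝ) < (1 / 2) ^ n := by positivity
        linarith)
    obtain ⟨t, ht⟩ := h1.exists
    exact ⟨t, by linarith⟩
  choose t ht using ex
  refine ⟨t, fun G W v hv => ?_⟩
  obtain ⟨m, hm⟩ : ∃ m, m = ∫ s, G s 0 ^ 2 ∂P := ⟨_, rfl⟩
  have m0 : 0 ≤ m := by rw [hm]; exact integral_nonneg fun s => sq_nonneg _
  obtain ⟨Y, hY⟩ : ∃ Y : S → ℝ, Y = fun s => Real.sin α * Dv v (G s) 0 - Real.cos α * G s 0 :=
    ⟨_, rfl⟩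
  obtain ⟨X, hX⟩ : ∃ X : ℕ → S → ℝ, X = fun n s =>
    ∑ k ∈ t n, ck α k * G s ((k * Real.pi - α) • v) := ⟨_, rfl⟩
  have mX : ∀ n, Measurable (X n) := fun n => by
    rw [hX]; exact sumI hτ W (t n) _ fun k : ℤ => (k * Real.pi - α) • v
  have mY : Measurable Y := by
    rw [hY]
    exact (measurable_const.mul ((wdv hτ W v).sf.meas 0)).sub
      (measurable_const.mul (W.sf.meas 0))
  have b : ∀ n, ∫⁻ s, ENNReal.ofReal ((Y s - X n s) ^ 2) ∂P ≤
      ENNReal.ofReal (2 * m) * ENNReal.ofReal (1 / 4) ^ n := by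
    intro n
    have a := approx hτ W hv hs (t n)
    rw [← hm] at a
    have a1 : Integrable (fun s => (Y s - X n s) ^ 2) P := by rw [hY, hX]; exact a.1
    have a2 : ∫ s, (Y s - X n s) ^ 2 ∂P ≤ 2 * (1 - ∑ k ∈ t n, wk α k) ^ 2 * m := by
      rw [hY, hX]; exact a.2
    rw [← ofReal_integral_eq_lintegral_ofReal a1 (ae_of_all _ fun s => sq_nonneg _),
      ← ENNReal.ofReal_pow (by norm_num), ← ENNReal.ofReal_mul (by positivity)]
    refine ENNReal.ofReal_le_ofReal (a2.trans ?_)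
    have w1 : ∑ k ∈ t n, wk α k ≤ 1 :=
      sum_le_hasSum (t n) (fun k _ => wk_nonneg α k) (wk_one hs)
    have h1 : (1 - ∑ k ∈ t n, wk α k) ^ 2 ≤ ((1 / 2) ^ n) ^ 2 :=
      pow_le_pow_left₀ (by linarith) (ht n) 2
    have h2 : (((1 : ℝ) / 2) ^ n) ^ 2 = (1 / 4) ^ n := by
      rw [← pow_mul, mul_comm n 2, pow_mul]; norm_num
    rw [h2] at h1
    nlinarith
  have m2 : ∀ n, Measurable fun s => ENNReal.ofReal ((Y s - X n s) ^ 2) := fun n =>
    ((mY.sub (mX n)).pow_const 2).ennreal_ofReal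
  have fin : ∫⁻ s, ∑' n, ENNReal.ofReal ((Y s - X n s) ^ 2) ∂P ≠ ⊤ := by
    rw [lintegral_tsum fun n => (m2 n).aemeasurable]
    refine ne_top_of_le_ne_top ?_ (ENNReal.tsum_le_tsum b)
    rw [ENNReal.tsum_mul_left]
    refine ENNReal.mul_ne_top ENNReal.ofReal_ne_top ?_
    rw [ENNReal.tsum_geometric]
    refine ENNReal.inv_ne_top.2 ?_
    have : ENNReal.ofReal (1 / 4) < 1 := by
      rw [← ENNReal.ofReal_one]
      exact (ENNReal.ofReal_lt_ofReal_iff one_pos).2 (by norm_num)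
    exact (tsub_pos_of_lt this).ne'
  have h2 := ae_lt_top (Measurable.tsum m2) fin
  filter_upwards [h2] with s hs2
  have h3 := ENNReal.tendsto_atTop_zero_of_tsum_ne_top hs2.ne
  have h4 : Tendsto (fun n => (Y s - X n s) ^ 2) atTop (𝓝 0) := by
    have := (ENNReal.tendsto_toReal ENNReal.zero_ne_top).comp h3
    refine this.congr fun n => ?_
    show (ENNReal.ofReal ((Y s - X n s) ^ 2)).toReal = _
    rw [ENNReal.toReal_ofReal (sq_nonneg _)]
  have h5 : Tendsto (fun n => |Y s - X n s|) atTop (𝓝 0) := by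
    have := (Real.continuous_sqrt.tendsto 0).comp h4
    rw [Real.sqrt_zero] at this
    refine this.congr fun n => ?_
    show √((Y s - X n s) ^ 2) = _
    rw [Real.sqrt_sq_eq_abs]
  have h6 : Tendsto (fun n => X n s) atTop (𝓝 (Y s)) := by
    rw [tendsto_iff_norm_sub_tendsto_zero]
    refine h5.congr fun n => ?_
    rw [Real.norm_eq_abs, abs_sub_comm]
  rw [hX, hY] at h6
  exact h6

/-- Jensen for the finite sums of vectors -/
lemma jensV {α : ℝ} (hs : Real.sin α ≠ 0) {Φ : (Fin m → ℝ) → ℝ} (cΦ : ConvexOn ℝ Set.univ Φ)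
    (eΦ : ∀ x, Φ (-x) = Φ x) (t : Finset ℤ) (y : ℤ → Fin m → ℝ) :
    Φ (∑ k ∈ t, ck α k • y k) ≤ ∑ k ∈ t, wk α k * Φ (y k) + (1 - ∑ k ∈ t, wk α k) * Φ 0 := by
  have w1 : ∑ k ∈ t, wk α k ≤ 1 := sum_le_hasSum t (fun k _ => wk_nonneg α k) (wk_one hs)
  obtain ⟨w, hw⟩ : ∃ w : Option ℤ → ℝ, w = fun o => o.elim (1 - ∑ k ∈ t, wk α k) (wk α) := ⟨_, rfl⟩
  obtain ⟨p, hp⟩ : ∃ p : Option ℤ → (Fin m → ℝ),
    p = fun o => o.elim 0 fun k => -(((-1 : ℝ) ^ k) • y k) := ⟨_, rfl⟩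
  have h := cΦ.map_sum_le (t := Finset.insertNone t) (w := w) (p := p) (fun o _ => by
    rw [hw]
    cases o with
    | none => show 0 ≤ 1 - ∑ k ∈ t, wk α k; linarith
    | some k => exact wk_nonneg α k) (by
      rw [Finset.sum_insertNone, hw]
      show (1 - ∑ k ∈ t, wk α k) + ∑ k ∈ t, wk α k = 1
      ring) (fun _ _ => Set.mem_univ _)
  rw [Finset.sum_insertNone, Finset.sum_insertNone, hw, hp] at h
  simp only [Option.elim, smul_eq_mul, smul_zero, zero_add] at h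
  have e1 : ∑ k ∈ t, wk α k • -(((-1 : ℝ) ^ k) • y k) = ∑ k ∈ t, ck α k • y k := by
    refine Finset.sum_congr rfl fun k _ => ?_
    unfold ck
    rw [smul_neg, smul_smul, ← neg_smul]
    congr 1
    ring
  have e2 : ∑ k ∈ t, wk α k * Φ (-(((-1 : ℝ) ^ k) • y k)) = ∑ k ∈ t, wk α k * Φ (y k) := by
    refine Finset.sum_congr rfl fun k _ => ?_
    rw [eΦ]
    rcases Int.even_or_odd k with h1 | h1
    · rw [h1.neg_one_zpow, one_smul]
    · rw [h1.neg_one_zpow, neg_one_smul, eΦ]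
  rw [e1, e2] at h
  linarith

lemma even_minV {Φ : (Fin m → ℝ) → ℝ} (cΦ : ConvexOn ℝ Set.univ Φ) (eΦ : ∀ x, Φ (-x) = Φ x)
    (x : Fin m → ℝ) : Φ 0 ≤ Φ x := by
  have := cΦ.2 (Set.mem_univ x) (Set.mem_univ (-x)) (by norm_num : (0 : ℝ) ≤ 1 / 2)
    (by norm_num : (0 : ℝ) ≤ 1 / 2) (by norm_num)
  rw [eΦ] at this
  simp only [smul_eq_mul] at this
  have e : (1 / 2 : ℝ) • x + (1 / 2 : ℝ) • -x = 0 := by
    rw [smul_neg, add_neg_cancel]
  rw [e] at this
  linarith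

lemma fin_ineqV [IsProbabilityMeasure P] (hτ : ∀ x, MeasurePreserving (τ x) P P)
    {G : Fin m → S → E d → ℝ} (W : ∀ i, Wave P τ (G i)) {v : E d} {α : ℝ}
    (hs : Real.sin α ≠ 0) {Φ : (Fin m → ℝ) → ℝ} (cΦ : ConvexOn ℝ Set.univ Φ)
    (eΦ : ∀ x, Φ (-x) = Φ x) (t : Finset ℤ) :
    ∫⁻ s, ENNReal.ofReal (Φ (∑ k ∈ t, ck α k • fun i => G i s ((k * Real.pi - α) • v))) ∂P ≤
      ∫⁻ s, ENNReal.ofReal (Φ fun i => G i s 0) ∂P := by
  have w1 : ∑ k ∈ t, wk α k ≤ 1 := sum_le_hasSum t (fun k _ => wk_nonneg α k) (wk_one hs)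
  have cc : Continuous Φ := continuousOn_univ.1 (cΦ.continuousOn isOpen_univ)
  obtain ⟨A, hA⟩ : ∃ A, A = ∫⁻ s, ENNReal.ofReal (Φ fun i => G i s 0) ∂P := ⟨_, rfl⟩
  have A0 : ENNReal.ofReal (Φ 0) ≤ A := by
    rw [hA]
    calc ENNReal.ofReal (Φ 0) = ∫⁻ _, ENNReal.ofReal (Φ 0) ∂P := by
          rw [lintegral_const, measure_univ, mul_one]
      _ ≤ _ := lintegral_mono fun s => ENNReal.ofReal_le_ofReal (even_minV cΦ eΦ _)
  have m1 : ∀ y, Measurable fun s => ENNReal.ofReal (Φ fun i => G i s y) := fun y =>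
    (cc.measurable.comp (measurable_pi_iff.2 fun i => (W i).sf.meas y)).ennreal_ofReal
  have st : ∀ y, ∫⁻ s, ENNReal.ofReal (Φ fun i => G i s y) ∂P = A := fun y => by
    rw [hA, ← (hτ y).lintegral_comp (m1 0)]
    refine lintegral_congr fun s => ?_
    congr 2
    funext i
    rw [(W i).sf.cov, zero_add]
  rw [← hA]
  have pt : ∀ s, ENNReal.ofReal (Φ (∑ k ∈ t, ck α k •
      fun i => G i s ((k * Real.pi - α) • v))) ≤
      ∑ k ∈ t, ENNReal.ofReal (wk α k) *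
        ENNReal.ofReal (Φ fun i => G i s ((k * Real.pi - α) • v)) +
        ENNReal.ofReal (1 - ∑ k ∈ t, wk α k) * ENNReal.ofReal (Φ 0) := by
    intro s
    refine (ENNReal.ofReal_le_ofReal
      (jensV hs cΦ eΦ t fun k i => G i s ((k * Real.pi - α) • v))).trans ?_
    refine ENNReal.ofReal_add_le.trans (add_le_add ?_ ?_)
    · refine le_trans (b := ∑ k ∈ t,
        ENNReal.ofReal (wk α k * Φ fun i => G i s ((k * Real.pi - α) • v))) ?_ (le_of_eq ?_)
      · exact Finset.le_sum_of_subadditive ENNReal.ofReal ENNReal.ofReal_zero.le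
          (fun x y => ENNReal.ofReal_add_le) t _
      · exact Finset.sum_congr rfl fun k _ => ENNReal.ofReal_mul (wk_nonneg α k)
    · rw [ENNReal.ofReal_mul (by linarith)]
  refine (lintegral_mono pt).trans ?_
  rw [lintegral_add_right _ measurable_const, lintegral_const, measure_univ, mul_one,
    lintegral_finsetSum _ fun k _ => (m1 _).const_mul _]
  simp only [lintegral_const_mul _ (m1 _), st]
  rw [← Finset.sum_mul, ← ENNReal.ofReal_sum_of_nonneg fun k _ => wk_nonneg α k]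
  calc ENNReal.ofReal (∑ k ∈ t, wk α k) * A +
      ENNReal.ofReal (1 - ∑ k ∈ t, wk α k) * ENNReal.ofReal (Φ 0) ≤
      ENNReal.ofReal (∑ k ∈ t, wk α k) * A + ENNReal.ofReal (1 - ∑ k ∈ t, wk α k) * A := by
        gcongr
    _ = A := by
        rw [← add_mul, ← ENNReal.ofReal_add (Finset.sum_nonneg fun k _ => wk_nonneg α k)
          (by linarith)]
        simp

/-- the vector form with `sin α ≠ 0` -/
theorem szegoV1 [IsProbabilityMeasure P] (hτ : ∀ x, MeasurePreserving (τ x) P P)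
    {G : Fin m → S → E d → ℝ} (W : ∀ i, Wave P τ (G i)) {v : E d} (hv : ‖v‖ = 1) {α : ℝ}
    (hs : Real.sin α ≠ 0) {Φ : (Fin m → ℝ) → ℝ} (cΦ : ConvexOn ℝ Set.univ Φ)
    (eΦ : ∀ x, Φ (-x) = Φ x) :
    ∫⁻ s, ENNReal.ofReal
      (Φ fun i => Real.sin α * Dv v (G i s) 0 - Real.cos α * G i s 0) ∂P ≤
      ∫⁻ s, ENNReal.ofReal (Φ fun i => G i s 0) ∂P := by
  have cc : Continuous Φ := continuousOn_univ.1 (cΦ.continuousOn isOpen_univ)
  obtain ⟨t, ht⟩ := ae_lim (P := P) (τ := τ) hτ hs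
  have ae1 : ∀ᵐ s ∂P, ∀ i, Tendsto
      (fun n => ∑ k ∈ t n, ck α k * G i s ((k * Real.pi - α) • v)) atTop
        (𝓝 (Real.sin α * Dv v (G i s) 0 - Real.cos α * G i s 0)) :=
    ae_all_iff.2 fun i => ht (G i) (W i) v hv
  obtain ⟨X, hX⟩ : ∃ X : ℕ → S → (Fin m → ℝ), X = fun n s =>
    ∑ k ∈ t n, ck α k • fun i => G i s ((k * Real.pi - α) • v) := ⟨_, rfl⟩
  have eX : ∀ n s i, X n s i = ∑ k ∈ t n, ck α k * G i s ((k * Real.pi - α) • v) := by
    intro n s i
    rw [hX]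
    show (∑ k ∈ t n, ck α k • fun i => G i s ((k * Real.pi - α) • v)) i = _
    rw [Finset.sum_apply]
    rfl
  have mX : ∀ n, Measurable (X n) := fun n => measurable_pi_iff.2 fun i => by
    simp only [eX]
    exact sumI hτ (W i) (t n) _ fun k : ℤ => (k * Real.pi - α) • v
  have e1 : ∫⁻ s, ENNReal.ofReal
      (Φ fun i => Real.sin α * Dv v (G i s) 0 - Real.cos α * G i s 0) ∂P =
      ∫⁻ s, liminf (fun n => ENNReal.ofReal (Φ (X n s))) atTop ∂P := by
    refine lintegral_congr_ae ?_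
    filter_upwards [ae1] with s h
    have h2 : Tendsto (fun n => X n s) atTop
        (𝓝 fun i => Real.sin α * Dv v (G i s) 0 - Real.cos α * G i s 0) := by
      rw [tendsto_pi_nhds]
      intro i
      simp only [eX]
      exact h i
    exact ((ENNReal.tendsto_ofReal ((cc.tendsto _).comp h2)).liminf_eq).symm
  rw [e1]
  refine (lintegral_liminf_le fun n => (cc.measurable.comp (mX n)).ennreal_ofReal).trans ?_
  refine liminf_le_of_le (by isBoundedDefault) fun b hb => ?_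
  obtain ⟨n, hn⟩ := hb.exists
  refine hn.trans ?_
  rw [hX]
  exact fin_ineqV hτ W hs cΦ eΦ (t n)

/-- **the vector form** -/
theorem szegoV [IsProbabilityMeasure P] (hτ : ∀ x, MeasurePreserving (τ x) P P)
    {G : Fin m → S → E d → ℝ} (W : ∀ i, Wave P τ (G i)) {v : E d} (hv : ‖v‖ = 1) (α : ℝ)
    {Φ : (Fin m → ℝ) → ℝ} (cΦ : ConvexOn ℝ Set.univ Φ) (eΦ : ∀ x, Φ (-x) = Φ x) :
    ∫⁻ s, ENNReal.ofReal
      (Φ fun i => Real.cos α * G i s 0 + Real.sin α * Dv v (G i s) 0) ∂P ≤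
      ∫⁻ s, ENNReal.ofReal (Φ fun i => G i s 0) ∂P := by
  by_cases hs : Real.sin α = 0
  · refine le_of_eq (lintegral_congr fun s => ?_)
    simp only [hs, zero_mul, add_zero]
    rcases Real.sin_eq_zero_iff_cos_eq.1 hs with h | h
    · simp only [h, one_mul]
    · simp only [h, neg_one_mul]
      rw [← eΦ fun i => G i s 0]
      rfl
  · have h := szegoV1 hτ W hv (α := -α) (by rw [Real.sin_neg]; exact neg_ne_zero.2 hs) cΦ eΦ
    refine le_trans (le_of_eq (lintegral_congr fun s => ?_)) h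
    simp only [Real.sin_neg, Real.cos_neg]
    rw [← eΦ fun i => Real.cos α * G i s 0 + Real.sin α * Dv v (G i s) 0]
    congr 2
    funext i
    show -(Real.cos α * G i s 0 + Real.sin α * Dv v (G i s) 0) = _
    ring

/-- joint samples -/
abbrev SpV (d m : ℕ) : Type := {f : E d → Fin m → ℝ // ∀ i, ContDiff ℝ ∞ (fun y => f y i) ∧
  ∀ y, Lap (fun y => f y i) y = -f y i}

/-- the shift -/
def shV (x : E d) (f : SpV d m) : SpV d m := ⟨fun y => f.1 (y + x), fun i =>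
  ⟨sh_sm (g := fun y => f.1 y i) (f.2 i).1 x, fun y => by
    have h := (f.2 i).2 (y + x)
    unfold Lap at h ⊢
    rw [← h]
    refine Finset.sum_congr rfl fun j _ => ?_
    rw [d_sh (fun y => f.1 y i) j x, d_sh (D j fun y => f.1 y i) j x]⟩⟩

lemma shV_me (x : E d) : Measurable (shV (m := m) x) := by
  have h : Measurable fun (f : SpV d m) (y : E d) => f.1 (y + x) :=
    measurable_pi_iff.2 fun y => (measurable_pi_apply (y + x)).comp measurable_subtype_coe
  exact h.subtype_mk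

/-- passing to the canonical space -/
theorem redV [IsProbabilityMeasure P] {F : S → E d → Fin m → ℝ}
    (mF : ∀ y, Measurable fun s => F s y)
    (sF : ∀ s i, ContDiff ℝ ∞ fun y => F s y i)
    (eF : ∀ s i y, Lap (fun y => F s y i) y + F s y i = 0)
    (st : ∀ x : E d, P.map (fun s y => F s (y + x)) = P.map (fun s y => F s y))
    (l2 : ∀ i, Integrable (fun s => F s 0 i ^ 2) P) :
    ∃ Ψ : S → SpV d m, Measurable Ψ ∧ (∀ s, (Ψ s).1 = F s) ∧ IsProbabilityMeasure (P.map Ψ) ∧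
      (∀ x : E d, MeasurePreserving (shV x) (P.map Ψ) (P.map Ψ)) ∧
      ∀ i, Wave (P.map Ψ) shV (fun (f : SpV d m) y => f.1 y i) := by
  obtain ⟨Φ, hΦ⟩ : ∃ Φ : S → SpV d m, Φ = fun s => ⟨F s, fun i => ⟨sF s i, fun y => by
    have := eF s i y; linarith⟩⟩ := ⟨_, rfl⟩
  have v1 : ∀ s, (Φ s).1 = F s := fun s => by rw [hΦ]
  have mΦ : Measurable Φ := by
    rw [hΦ]
    exact Measurable.subtype_mk (measurable_pi_iff.2 mF)
  have hQ : IsProbabilityMeasure (P.map Φ) := Measure.isProbabilityMeasure_map mΦ.aemeasurable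
  have hτ : ∀ x : E d, MeasurePreserving (shV x) (P.map Φ) (P.map Φ) := by
    intro x
    refine ⟨shV_me x, ?_⟩
    rw [Measure.map_map (shV_me x) mΦ]
    ext A mA
    obtain ⟨B, mB, rfl⟩ := mA
    have e1 : ((shV x ∘ Φ) ⁻¹' (Subtype.val ⁻¹' B)) = (fun s y => F s (y + x)) ⁻¹' B := by
      ext s
      show (fun y => (Φ s).1 (y + x)) ∈ B ↔ (fun y => F s (y + x)) ∈ B
      rw [v1]
    have e2 : (Φ ⁻¹' (Subtype.val ⁻¹' B)) = (fun s y => F s y) ⁻¹' B := by
      ext s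
      show (Φ s).1 ∈ B ↔ (fun y => F s y) ∈ B
      rw [v1]
    have mV : MeasurableSet (Subtype.val ⁻¹' B : Set (SpV d m)) := ⟨B, mB, rfl⟩
    rw [Measure.map_apply ((shV_me x).comp mΦ) mV, Measure.map_apply mΦ mV, e1, e2,
      ← Measure.map_apply (measurable_pi_iff.2 fun y => mF (y + x)) mB,
      ← Measure.map_apply (measurable_pi_iff.2 fun y => mF y) mB, st x]
  refine ⟨Φ, mΦ, v1, hQ, hτ, fun i => ?_⟩
  have ma : ∀ y, Measurable fun f : SpV d m => f.1 y i := fun y =>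
    (measurable_pi_apply i).comp ((measurable_pi_apply y).comp measurable_subtype_coe)
  refine ⟨⟨ma, fun f => (f.2 i).1, fun x f y => rfl⟩, fun f y => (f.2 i).2 y, ?_⟩
  refine (integrable_map_measure ((ma 0).pow_const 2).aestronglyMeasurable mΦ.aemeasurable).2 ?_
  refine (l2 i).congr (ae_of_all _ fun s => ?_)
  show F s 0 i ^ 2 = (Φ s).1 0 i ^ 2
  rw [v1]

end

end Pool.Agent.X127.SW
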